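import Pool.Agent.Helper92.Weak.Mono

set_option autoImplicit false
set_option linter.unusedSectionVars false

/-! Gauss extensions of the prime divisors of the base are prime divisors of `X`, with finitely
many exceptions. -/

namespace Pool.Agent.Helper92.Ga

open Pool.Agent.Helper92.Weak

variable {k K L : Type*} [Field k] [Field K] [Field L] [Algebra k K] [Algebra k L] [Algebra K L]
  [IsScalarTower k K L] {r : ℕ} {t : Fin r → L}

lemma gauss_norm (Q : DVal k K) : ∃ (c : K) (u : Fin r → ℤ), c ≠ 0 ∧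
    (ZVal.ofDVal 1 Q : ZVal k K) c + ipair (0 : Fin r → ℤ) u = 1 := by
  obtain ⟨p, hp0, hp⟩ := Q.exists_uniformizer
  refine ⟨p, 0, hp0, ?_⟩
  change ((1 : ℕ) : ℤ) * Q p + ipair 0 0 = 1
  rw [hp]
  simp [ipair]

/-- The Gauss extension. -/
noncomputable def gaussVal (ht : IsTorus K t) (Q : DVal k K) : DVal k L :=
  monoVal ht (ZVal.ofDVal 1 Q) 0 (gauss_norm Q)

lemma gaussVal_algebraMap (ht : IsTorus K t) (Q : DVal k K) (a : K) :
    gaussVal ht Q (algebraMap K L a) = Q a := by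
  unfold gaussVal
  rw [monoVal_algebraMap]
  change ((1 : ℕ) : ℤ) * Q a = Q a
  simp

lemma gaussVal_t (ht : IsTorus K t) (Q : DVal k K) (l : Fin r) : gaussVal ht Q (t l) = 0 := by
  unfold gaussVal
  rw [monoVal_t]
  rfl

lemma exists_gaussVal_ev (ht : IsTorus K t) (Q : DVal k K) {f : (Fin r → ℤ) →₀ K} (hf : f ≠ 0) :
    ∃ u, f u ≠ 0 ∧ gaussVal ht Q (ev K t f) = Q (f u) := by
  obtain ⟨u, hu, h⟩ := exists_gaussN (v := (ZVal.ofDVal 1 Q : ZVal k K)) (w := 0) hf
  refine ⟨u, hu, ?_⟩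
  unfold gaussVal
  rw [monoVal_ev _ _ _ _ hf, h]
  change ((1 : ℕ) : ℤ) * Q (f u) + ipair 0 u = Q (f u)
  simp [ipair]

lemma gaussVal_ev_le (ht : IsTorus K t) (Q : DVal k K) {f : (Fin r → ℤ) →₀ K} {u : Fin r → ℤ}
    (hu : f u ≠ 0) : gaussVal ht Q (ev K t f) ≤ Q (f u) := by
  have hf : f ≠ 0 := by rintro rfl; exact hu rfl
  have h := gaussN_le (v := (ZVal.ofDVal 1 Q : ZVal k K)) (w := 0) hu
  unfold gaussVal
  rw [monoVal_ev _ _ _ _ hf]
  refine h.trans ?_
  change ((1 : ℕ) : ℤ) * Q (f u) + ipair 0 u ≤ Q (f u)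
  simp [ipair]

/-- Finiteness of supports. -/
lemma finite_gaussVal (ht : IsTorus K t) (Z : ProjVar k K) {z : L} (hz : z ≠ 0) :
    {Q | Q ∈ Z.primeDivisors ∧ gaussVal ht Q z ≠ 0}.Finite := by
  classical
  have key : ∀ f : (Fin r → ℤ) →₀ K, f ≠ 0 →
      {Q | Q ∈ Z.primeDivisors ∧ gaussVal ht Q (ev K t f) ≠ 0}.Finite := by
    intro f hf
    apply (Set.Finite.biUnion f.support.finite_toSet (t := fun u =>
      {Q | Q ∈ Z.primeDivisors ∧ Q (f u) ≠ 0})
      (fun u hu => Z.finite_support (Finsupp.mem_support_iff.1 hu))).subset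
    rintro Q ⟨hQ, hQ'⟩
    obtain ⟨u, hu, h⟩ := exists_gaussVal_ev ht Q hf
    rw [Set.mem_iUnion₂]
    exact ⟨u, by simpa using hu, hQ, by rwa [← h]⟩
  obtain ⟨f, g, hg, rfl⟩ := exists_ev_div ht z
  have hf : f ≠ 0 := by
    rintro rfl
    rw [map_zero, zero_div] at hz
    exact hz rfl
  have hf' : ev K t f ≠ 0 := fun h => hf (ev_injective ht (by rw [h, map_zero]))
  have hg' : ev K t g ≠ 0 := fun h => hg (ev_injective ht (by rw [h, map_zero]))
  refine ((key f hf).union (key g hg)).subset ?_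
  rintro Q ⟨hQ, hQ2⟩
  by_contra hcon
  simp only [Set.mem_union, Set.mem_ofPred_eq, not_or, not_and, not_not] at hcon
  rw [DVal.map_div _ hf' hg', hcon.1 hQ, hcon.2 hQ] at hQ2
  exact hQ2 (sub_self _)

/-- Almost all Gauss extensions are prime divisors of `X`. -/
theorem finite_gauss_notMem (ht : IsTorus K t) (X : ProjVar k L) (Z : ProjVar k K) :
    {Q | Q ∈ Z.primeDivisors ∧ gaussVal ht Q ∉ X.primeDivisors}.Finite := by
  classical
  have hden : ∀ z : L, ∃ b : L, b ≠ 0 ∧ b ∈ chart k X.x 0 ∧ z * b ∈ chart k X.x 0 := by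
    intro z
    obtain ⟨a, ha, b, hb, hb0, rfl⟩ := X.chart_isFrac 0 z
    refine ⟨b, hb0, hb, ?_⟩
    rw [div_mul_cancel₀ _ hb0]
    exact ha
  choose d hd0 hd hzd using hden
  have hy : ∀ j, X.x j / X.x 0 ≠ 0 := fun j => div_ne_zero (X.x_ne j) (X.x_ne 0)
  have hy' : ∀ j, Z.x j / Z.x 0 ≠ 0 := fun j => div_ne_zero (Z.x_ne j) (Z.x_ne 0)
  have hE : ((⋃ j, {Q | Q ∈ Z.primeDivisors ∧ gaussVal ht Q (d (algebraMap K L (Z.x j / Z.x 0))) ≠ 0}) ∪
      ((⋃ l, {Q | Q ∈ Z.primeDivisors ∧ gaussVal ht Q (d (t l)) ≠ 0}) ∪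
      ((⋃ j, {Q | Q ∈ Z.primeDivisors ∧ gaussVal ht Q (X.x j / X.x 0) ≠ 0}) ∪
      ⋃ j, {Q | Q ∈ Z.primeDivisors ∧ Q (Z.x j / Z.x 0) ≠ 0}))).Finite :=
    (Set.finite_iUnion fun j => finite_gaussVal ht Z (hd0 _)).union
      ((Set.finite_iUnion fun l => finite_gaussVal ht Z (hd0 _)).union
      ((Set.finite_iUnion fun j => finite_gaussVal ht Z (hy j)).union
      (Set.finite_iUnion fun j => Z.finite_support (hy' j))))
  apply hE.subset
  rintro Q ⟨hQ, hQX⟩
  by_contra hcon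
  simp only [Set.mem_union, Set.mem_iUnion, Set.mem_ofPred_eq, not_or, not_exists, not_and,
    not_not] at hcon
  obtain ⟨h1, h2, h3, h4⟩ := hcon
  apply hQX
  set V := gaussVal ht Q with hV
  have hVK : ∀ a : K, V (algebraMap K L a) = Q a := gaussVal_algebraMap ht Q
  have hchart : chart k X.x 0 ≤ V.ring := by
    rw [ProjVar.chart_le_iff]
    intro j
    rw [DVal.mem_ring, h3 j hQ]
  have hchartZ : chart k Z.x 0 ≤ Q.ring := by
    rw [ProjVar.chart_le_iff]
    intro j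
    rw [DVal.mem_ring, h4 j hQ]
  set R := locAt _ (posIdeal V _ hchart) with hR
  have hdom : Dominates R V.ring := dominates_posIdeal hchart
  have hmem : ∀ z : L, V (d z) = 0 → z ∈ R := by
    intro z hz
    have h1 : z = (z * d z) * (d z)⁻¹ := by
      have := hd0 z
      field_simp
    rw [h1]
    exact R.mul_mem (le_locAt _ (hzd z)) (hdom.inv_mem (le_locAt _ (hd z)) hz)
  have hRt : ∀ l, t l ∈ R := fun l => hmem _ (h2 l hQ)
  have hRZ : ∀ a ∈ chart k Z.x 0, algebraMap K L a ∈ R := by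
    have : chart k Z.x 0 ≤ R.comap (IsScalarTower.toAlgHom k K L) := by
      rw [ProjVar.chart_le_iff]
      intro j
      exact hmem _ (h1 j hQ)
    intro a ha
    exact this ha
  have hRQ : ∀ a : K, 0 ≤ Q a → algebraMap K L a ∈ R := by
    intro a ha
    have h5 : locAt _ (posIdeal Q _ hchartZ) = Q.ring :=
      Z.separated (Z.locAt_mem 0 _) hQ (dominates_posIdeal hchartZ) (Dominates.refl _)
    have h6 : a ∈ locAt _ (posIdeal Q _ hchartZ) := by rw [h5]; exact ha
    obtain ⟨u, w, hw, huw⟩ := h6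
    rw [notMem_posIdeal] at hw
    have h7 : a = u / w := by
      rw [← huw]
      have := hw.1
      field_simp
    rw [h7, map_div₀, div_eq_mul_inv]
    exact R.mul_mem (hRZ _ u.2) (hdom.inv_mem (hRZ _ w.2) (by rw [hVK, hw.2]))
  have hRmono : ∀ u : Fin r → ℤ, mono t u ∈ R := by
    intro u
    unfold mono
    apply Subalgebra.prod_mem
    intro l _
    cases u l with
    | ofNat n =>
      rw [Int.ofNat_eq_natCast, zpow_natCast]
      exact R.pow_mem (hRt l) n
    | negSucc n =>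
      rw [zpow_negSucc, ← inv_pow]
      exact R.pow_mem (hdom.inv_mem (hRt l) (gaussVal_t ht Q l)) _
  have hRev : ∀ f : (Fin r → ℤ) →₀ K, (∀ u, f u ≠ 0 → 0 ≤ Q (f u)) → ev K t f ∈ R := by
    intro f hf
    rw [ev_apply]
    apply Subalgebra.sum_mem
    intro u hu
    rw [Algebra.smul_def]
    exact R.mul_mem (hRQ _ (hf u (Finsupp.mem_support_iff.1 hu))) (hRmono u)
  obtain ⟨p, hp0, hp⟩ := Q.exists_uniformizer
  have hpL : algebraMap K L p ≠ 0 := by simpa using hp0
  have hring : V.ring ≤ R := by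
    intro z hz
    by_cases hz0 : z = 0
    · rw [hz0]; exact R.zero_mem
    obtain ⟨f, g, hg, rfl⟩ := exists_ev_div ht z
    have hf : f ≠ 0 := by
      rintro rfl
      rw [map_zero, zero_div] at hz0
      exact hz0 rfl
    have hf' : ev K t f ≠ 0 := fun h => hf (ev_injective ht (by rw [h, map_zero]))
    have hg' : ev K t g ≠ 0 := fun h => hg (ev_injective ht (by rw [h, map_zero]))
    rw [DVal.mem_ring, V.map_div hf' hg'] at hz
    set n := V (ev K t g) with hn
    have hscale : ∀ (f : (Fin r → ℤ) →₀ K), f ≠ 0 → n ≤ V (ev K t f) →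
        ev K t (p ^ (-n) • f) ∈ R := by
      intro f hf hle
      apply hRev
      intro u hu
      rw [Finsupp.smul_apply, smul_eq_mul] at hu ⊢
      have hu' : f u ≠ 0 := right_ne_zero_of_mul hu
      rw [Q.map_mul (zpow_ne_zero _ hp0) hu', Q.map_zpow, hp]
      have := gaussVal_ev_le ht Q hu'
      have h8 : V (ev K t f) ≤ Q (f u) := this
      linarith
    have hf1 := hscale f hf (by omega)
    have hg1 := hscale g hg (by omega)
    rw [map_smul] at hf1 hg1
    have hg2 : V (p ^ (-n) • ev K t g) = 0 := by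
      rw [Algebra.smul_def, V.map_mul (by
        rw [map_zpow₀]; exact zpow_ne_zero _ hpL) hg', hVK, Q.map_zpow, hp]
      rw [← hn]
      ring
    have h9 := R.mul_mem hf1 (hdom.inv_mem hg1 hg2)
    have h10 : p ^ (-n) • ev K t f * (p ^ (-n) • ev K t g)⁻¹ = ev K t f / ev K t g := by
      rw [Algebra.smul_def, Algebra.smul_def, map_zpow₀]
      have := zpow_ne_zero (-n) hpL
      field_simp
    rwa [h10] at h9
  change V.ring ∈ X.localRings
  rw [le_antisymm hring hdom.1]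
  exact X.locAt_mem 0 _

end Pool.Agent.Helper92.Ga
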