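import Pool.Agent.Helper92.Weak.Mono

set_option autoImplicit false
set_option linter.unusedSectionVars false

/-! The field `L = K(t)`: polynomials, valuations trivial on `K`, translations. -/

namespace Pool.Agent.Helper92.Ga

open Pool.Agent.Helper92.Weak Polynomial

/-- `L = K(t)` with `t` transcendental over `K`. -/
structure IsLine (K : Type*) {L : Type*} [Field K] [Field L] [Algebra K L] (t : L) : Prop where
  trans : Transcendental K t
  gen : IntermediateField.adjoin K {t} = ⊤

section poly

variable {K L : Type*} [Field K] [Field L] [Algebra K L] {t : L}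

lemma IsLine.inj (h : IsLine K t) : Function.Injective (aeval t : K[X] →ₐ[K] L) :=
  transcendental_iff_injective.1 h.trans

lemma IsLine.aeval_ne (h : IsLine K t) {p : K[X]} (hp : p ≠ 0) : aeval t p ≠ 0 := fun h0 =>
  hp (h.inj (by rw [h0, map_zero]))

lemma IsLine.aeval_eq_zero (h : IsLine K t) {p : K[X]} : aeval t p = 0 ↔ p = 0 :=
  ⟨fun h0 => h.inj (by rw [h0, map_zero]), fun h0 => by rw [h0, map_zero]⟩

lemma IsLine.ne_zero (h : IsLine K t) : t ≠ 0 := by
  have := h.aeval_ne (p := X) X_ne_zero
  rwa [aeval_X] at this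

lemma IsLine.exists_div (h : IsLine K t) (z : L) :
    ∃ a b : K[X], b ≠ 0 ∧ z = aeval t a / aeval t b := by
  have hz : z ∈ IntermediateField.adjoin K {t} := by rw [h.gen]; trivial
  rw [IntermediateField.mem_adjoin_simple_iff] at hz
  obtain ⟨a, b, hab⟩ := hz
  by_cases hb0 : b = 0
  · refine ⟨0, 1, one_ne_zero, ?_⟩
    rw [hab, hb0]
    simp
  · exact ⟨a, b, hb0, hab⟩

/-- The polynomial ring maps to the field. -/
@[reducible] noncomputable def lineAlg (K : Type*) {L : Type*} [Field K] [Field L] [Algebra K L]
    (t : L) : Algebra K[X] L :=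
  (aeval t : K[X] →ₐ[K] L).toRingHom.toAlgebra

lemma IsLine.isFractionRing (h : IsLine K t) :
    letI := lineAlg K t
    IsFractionRing K[X] L := by
  let _ := lineAlg K t
  have hinj : Function.Injective (algebraMap K[X] L) := h.inj
  have : FaithfulSMul K[X] L := (faithfulSMul_iff_algebraMap_injective _ _).2 hinj
  apply IsFractionRing.of_field
  intro z
  obtain ⟨a, b, -, h⟩ := h.exists_div z
  exact ⟨a, b, h⟩

end poly

section pVal

variable {K L : Type*} [Field K] [Field L] [Algebra K L] {t : L}
variable (k : Type*) [Field k] [Algebra k K] [Algebra k L] [IsScalarTower k K L]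

lemma lineAlg_tower (t : L) :
    letI := lineAlg K t
    IsScalarTower k K[X] L := by
  let _ := lineAlg K t
  apply IsScalarTower.of_algebraMap_eq
  intro x
  change _ = aeval t (algebraMap k K[X] x)
  rw [IsScalarTower.algebraMap_apply k K K[X], AlgHom.commutes,
    ← IsScalarTower.algebraMap_apply]

/-- The valuation of a prime polynomial. -/
noncomputable def pVal (h : IsLine K t) (p : K[X]) (hp : Prime p) : DVal k L :=
  letI := lineAlg K t
  haveI := h.isFractionRing
  haveI := lineAlg_tower (K := K) k t
  DVal.ofPrime k L p hp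

variable (h : IsLine K t) {p : K[X]} (hp : Prime p)

lemma pVal_nonneg (a : K[X]) : 0 ≤ pVal k h p hp (aeval t a) := by
  let _ := lineAlg K t
  have := h.isFractionRing
  have := lineAlg_tower (K := K) k t
  exact DVal.ofPrime_nonneg k L hp a

lemma pVal_pos_iff {a : K[X]} (ha : a ≠ 0) : 0 < pVal k h p hp (aeval t a) ↔ p ∣ a := by
  let _ := lineAlg K t
  have := h.isFractionRing
  have := lineAlg_tower (K := K) k t
  exact DVal.ofPrime_pos_iff k L hp ha

lemma pVal_eq_zero {a : K[X]} (ha : ¬ p ∣ a) : pVal k h p hp (aeval t a) = 0 := by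
  let _ := lineAlg K t
  have := h.isFractionRing
  have := lineAlg_tower (K := K) k t
  exact DVal.ofPrime_eq_zero k L hp ha

lemma pVal_self : pVal k h p hp (aeval t p) = 1 := by
  let _ := lineAlg K t
  have := h.isFractionRing
  have := lineAlg_tower (K := K) k t
  have h := DVal.ofPrime_algebraMap k L hp hp.ne_zero
  rw [multiplicity_self] at h
  exact_mod_cast h

lemma mem_pVal_ring {z : L} : z ∈ (pVal k h p hp).ring ↔
    ∃ a b : K[X], ¬ p ∣ b ∧ z = aeval t a / aeval t b := by
  let _ := lineAlg K t
  have := h.isFractionRing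
  have := lineAlg_tower (K := K) k t
  exact DVal.mem_ofPrime_ring k L hp

lemma pVal_algebraMap (a : K) : pVal k h p hp (algebraMap K L a) = 0 := by
  by_cases ha : a = 0
  · rw [ha]; simp
  have h1 : algebraMap K L a = aeval t (C a : K[X]) := by simp
  rw [h1]
  apply pVal_eq_zero
  intro h
  have h2 : IsUnit (C a : K[X]) := (IsUnit.mk0 a ha).map C
  exact hp.not_isUnit (isUnit_of_dvd_unit h h2)

lemma pVal_eq_of_dvd {q : K[X]} (hq : Prime q) (hqp : q ∣ p) :
    pVal k h p hp = pVal k h q hq := by
  apply DVal.eq_of_ring_le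
  intro z hz
  rw [mem_pVal_ring] at hz ⊢
  obtain ⟨a, b, hb, h1⟩ := hz
  refine ⟨a, b, fun h2 => hb ?_, h1⟩
  exact ((hq.dvd_prime_iff_associated hp).1 hqp).symm.dvd.trans h2

/-- Finiteness of the support, for prime polynomials. -/
lemma finite_pVal {f : L} (hf : f ≠ 0) :
    {v : DVal k L | (∃ (p : K[X]) (hp : Prime p), v = pVal k h p hp) ∧ v f ≠ 0}.Finite := by
  classical
  obtain ⟨a, b, hb, rfl⟩ := h.exists_div f
  have ha : a ≠ 0 := by
    rintro rfl
    rw [map_zero, zero_div] at hf
    exact hf rfl
  have hb' := h.aeval_ne hb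
  have ha' := h.aeval_ne ha
  have key : ∀ c : K[X], c ≠ 0 → {v : DVal k L |
      (∃ (p : K[X]) (hp : Prime p), v = pVal k h p hp) ∧ v (aeval t c) ≠ 0}.Finite := by
    intro c hc
    let F : K[X] → Set (DVal k L) := fun q => {v | ∃ hq : Prime q, v = pVal k h q hq}
    have hF : ∀ q, (F q).Finite := by
      intro q
      by_cases hq : Prime q
      · apply (Set.finite_singleton (pVal k h q hq)).subset
        rintro v ⟨hq', rfl⟩
        rfl
      · have : F q = ∅ := by
          ext v
          simp only [F, Set.mem_ofPred_eq, Set.mem_empty_iff_false, iff_false]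
          rintro ⟨h, -⟩
          exact hq h
        rw [this]
        exact Set.finite_empty
    apply (Set.Finite.biUnion (UniqueFactorizationMonoid.factors c).toFinset.finite_toSet
      fun q _ => hF q).subset
    rintro v ⟨⟨p, hp, rfl⟩, hv⟩
    have h1 : p ∣ c := by
      by_contra h2
      exact hv (pVal_eq_zero k h hp h2)
    obtain ⟨q, hq, hpq⟩ := UniqueFactorizationMonoid.exists_mem_factors_of_dvd hc hp.irreducible h1
    have hqp : Prime q := UniqueFactorizationMonoid.prime_of_factor q hq
    rw [Set.mem_iUnion₂]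
    refine ⟨q, by simpa using hq, hqp, ?_⟩
    exact pVal_eq_of_dvd k h hp hqp hpq.symm.dvd
  refine ((key a ha).union (key b hb)).subset ?_
  rintro v ⟨hv, hv2⟩
  by_contra hcon
  simp only [Set.mem_union, Set.mem_ofPred_eq, not_or, not_and, not_not] at hcon
  rw [DVal.map_div _ ha' hb', hcon.1 hv, hcon.2 hv] at hv2
  exact hv2 (sub_self _)

/-- Functions without poles outside infinity are polynomials. -/
lemma exists_poly_of_nonneg {z : L} (hz : ∀ (p : K[X]) (hp : Prime p), 0 ≤ pVal k h p hp z) :
    ∃ f : K[X], z = aeval t f := by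
  let _ := lineAlg K t
  have := h.isFractionRing
  obtain ⟨a, b, hab, hz'⟩ := IsFractionRing.exists_reduced_fraction (A := K[X]) (K := L) z
  have hb := nonZeroDivisors.ne_zero b.2
  have hzab : z = aeval t a / aeval t (b : K[X]) := by
    rw [← hz', IsFractionRing.mk'_eq_div]
    rfl
  clear hz'
  by_cases ha : a = 0
  · refine ⟨0, ?_⟩
    rw [hzab, ha]; simp
  have hunit : IsUnit (b : K[X]) := by
    by_contra hnu
    obtain ⟨p, hp, hpb⟩ := WfDvdMonoid.exists_irreducible_factor hnu hb
    have hp' : Prime p := hp.prime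
    have h1 := hz p hp'
    rw [hzab, DVal.map_div _ (h.aeval_ne ha) (h.aeval_ne hb)] at h1
    have h2 := (pVal_pos_iff k h hp' hb).2 hpb
    have h3 : ¬ p ∣ a := fun h4 => hp.not_isUnit (hab h4 hpb)
    rw [pVal_eq_zero k h hp' h3] at h1
    omega
  obtain ⟨c, hc, hcb⟩ := Polynomial.isUnit_iff.1 hunit
  refine ⟨C c⁻¹ * a, ?_⟩
  rw [hzab, ← hcb, map_mul, aeval_C, aeval_C, map_inv₀, div_eq_mul_inv, mul_comm]

end pVal

section triv

variable {k K L : Type*} [Field k] [Field K] [Field L] [Algebra k K] [Algebra k L] [Algebra K L]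
  [IsScalarTower k K L] {t : L}

lemma aeval_mem_of {R : Subalgebra k L} (hK : ∀ a : K, algebraMap K L a ∈ R) (hR : t ∈ R)
    (a : K[X]) : aeval t a ∈ R := by
  induction a using Polynomial.induction_on with
  | C a => rw [aeval_C]; exact hK a
  | add p q hp hq => rw [map_add]; exact R.add_mem hp hq
  | monomial n a hp =>
    rw [map_mul, map_pow, aeval_X, aeval_C]
    exact R.mul_mem (hK a) (R.pow_mem hR _)

/-- A valuation which is trivial on `K` and nonnegative at `t`. -/
theorem exists_pVal (h : IsLine K t) (P : DVal k L) (hPK : ∀ a : K, P (algebraMap K L a) = 0)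
    (hPt : 0 ≤ P t) : ∃ (p : K[X]) (hp : Prime p), P = pVal k h p hp := by
  classical
  have hPa : ∀ a : K[X], 0 ≤ P (aeval t a) := fun a =>
    aeval_mem_of (R := P.ring) (fun a => by rw [DVal.mem_ring, hPK]) (by rwa [DVal.mem_ring]) a
  obtain ⟨p, hp, hpp⟩ : ∃ p : K[X], ∃ _ : Prime p, 0 < P (aeval t p) := by
    have key : ∀ a : K[X], P (aeval t a) ≠ 0 → ∃ p : K[X], ∃ _ : Prime p, 0 < P (aeval t p) := by
      intro a
      induction a using UniqueFactorizationMonoid.induction_on_prime with
      | h₁ => intro h; simp at h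
      | h₂ x hx =>
        intro h0
        exfalso
        obtain ⟨y, hy⟩ := isUnit_iff_exists_inv.1 hx
        have h1 := hPa x
        have h2 := hPa y
        have h3 : aeval t x * aeval t y = (1 : L) := by rw [← map_mul, hy, map_one]
        have h4 := P.map_mul (left_ne_zero_of_mul_eq_one h3) (right_ne_zero_of_mul_eq_one h3)
        rw [h3, P.map_one] at h4
        omega
      | h₃ x p hx hp ih =>
        intro h0
        by_cases h1 : P (aeval t p) = 0
        · apply ih
          intro h2
          apply h0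
          rw [map_mul, P.map_mul (h.aeval_ne hp.ne_zero) (h.aeval_ne hx), h1, h2, add_zero]
        · refine ⟨p, hp, ?_⟩
          have := hPa p
          omega
    obtain ⟨z, hz⟩ := P.surj'
    change P z = 1 at hz
    obtain ⟨u, w, hw, rfl⟩ := h.exists_div z
    have hw' := h.aeval_ne hw
    have hu' : aeval t u ≠ 0 := by
      intro h
      rw [h] at hz
      simp at hz
    rw [P.map_div hu' hw'] at hz
    by_cases h1 : P (aeval t u) = 0
    · exact key w (by omega)
    · exact key u h1
  refine ⟨p, hp, ?_⟩
  symm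
  apply DVal.eq_of_ring_le
  intro z hz
  rw [mem_pVal_ring] at hz
  obtain ⟨a, b, hb, rfl⟩ := hz
  have hb0 : b ≠ 0 := by rintro rfl; exact hb (dvd_zero p)
  have hPb : P (aeval t b) = 0 := by
    by_contra hne
    have hpos : 0 < P (aeval t b) := lt_of_le_of_ne (hPa b) (Ne.symm hne)
    have hcop : IsCoprime p b := (Irreducible.coprime_iff_not_dvd hp.irreducible).2 hb
    obtain ⟨u, w, huw⟩ := hcop
    have h1 : P.Ge 1 (aeval t (u * p + w * b)) := by
      rw [map_add, map_mul, map_mul]
      have hu : P.Ge 0 (aeval t u) := Or.inr (by exact_mod_cast hPa u)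
      have hw : P.Ge 0 (aeval t w) := Or.inr (by exact_mod_cast hPa w)
      have hp1 : P.Ge 1 (aeval t p) := Or.inr (by exact_mod_cast hpp)
      have hb1 : P.Ge 1 (aeval t b) := Or.inr (by exact_mod_cast hpos)
      have h2 := hu.mul hp1
      have h3 := hw.mul hb1
      rw [zero_add] at h2 h3
      exact h2.add h3
    rw [huw, map_one, DVal.ge_iff one_ne_zero, P.map_one] at h1
    norm_num at h1
  by_cases ha : a = 0
  · rw [ha]; simp
  rw [DVal.mem_ring, P.map_div (h.aeval_ne ha) (h.aeval_ne hb0), hPb, sub_zero]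
  exact hPa a

/-- Values of polynomials at a place at infinity. -/
lemma val_aeval_of_neg (h : IsLine K t) (P : DVal k L)
    (hPK : ∀ a : K, P (algebraMap K L a) = 0) (hPt : P t < 0) {p : K[X]} (hp : p ≠ 0) :
    P (aeval t p) = p.natDegree * P t := by
  classical
  induction hn : p.natDegree using Nat.strong_induction_on generalizing p with
  | _ n ih =>
    have hdecomp : aeval t p = aeval t (C p.leadingCoeff * X ^ p.natDegree) + aeval t p.eraseLead := by
      rw [← map_add]
      congr 1
      conv_lhs => rw [← Polynomial.eraseLead_add_C_mul_X_pow p]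
      rw [add_comm]
    have hlc : p.leadingCoeff ≠ 0 := leadingCoeff_ne_zero.2 hp
    have hlc' : algebraMap K L p.leadingCoeff ≠ 0 := by simpa using hlc
    have hlead : P (aeval t (C p.leadingCoeff * X ^ p.natDegree)) = p.natDegree * P t := by
      rw [map_mul, map_pow, aeval_X, aeval_C, P.map_mul hlc' (pow_ne_zero _ h.ne_zero), hPK,
        P.map_pow, zero_add]
    have hlead0 : aeval t (C p.leadingCoeff * X ^ p.natDegree) ≠ 0 := by
      apply h.aeval_ne
      exact mul_ne_zero (by simpa using hlc) (pow_ne_zero _ X_ne_zero)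
    rw [hdecomp, P.map_add_eq_of_lt hlead0, hlead, hn]
    by_cases he : p.eraseLead = 0
    · left; rw [he, map_zero]
    · right
      have hcard : p.support.card ≠ 0 := by simpa using hp
      have hpos : 0 < p.natDegree := by
        by_contra h0
        have h1 : p.natDegree = 0 := by omega
        apply he
        rw [Polynomial.eq_C_of_natDegree_eq_zero h1]
        simp
      have hlt : p.eraseLead.natDegree < p.natDegree := by
        have h2 := Polynomial.eraseLead_natDegree_le p
        omega
      rw [hlead, ih _ (by omega) he rfl]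
      have h3 : (p.eraseLead.natDegree : ℤ) < p.natDegree := by exact_mod_cast hlt
      nlinarith

lemma IsLine.isTorus (h : IsLine K t) : IsTorus K (fun _ : Fin 1 => t) := by
  constructor
  · rw [algebraicIndependent_unique_type_iff]
    exact h.trans
  · rw [← h.gen]
    congr 1
    ext x
    simp [eq_comm]

/-- The place at infinity. -/
noncomputable def infVal (k : Type*) [Field k] [Algebra k K] [Algebra k L] [IsScalarTower k K L]
    (h : IsLine K t) : DVal k L :=
  monoVal h.isTorus (ZVal.trivial k K) (fun _ => -1) ⟨1, fun _ => -1, one_ne_zero, by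
    unfold ipair
    simp [ZVal.trivial]⟩

lemma infVal_algebraMap (h : IsLine K t) (a : K) : infVal k h (algebraMap K L a) = 0 :=
  monoVal_algebraMap _ _ _ _ a

lemma infVal_t (h : IsLine K t) : infVal k h t = -1 :=
  monoVal_t h.isTorus (ZVal.trivial k K) (fun _ => -1) _ 0

lemma infVal_aeval (h : IsLine K t) {p : K[X]} (hp : p ≠ 0) :
    infVal k h (aeval t p) = -p.natDegree := by
  rw [val_aeval_of_neg h (infVal k h) (infVal_algebraMap h) (by rw [infVal_t]; norm_num) hp,
    infVal_t]
  ring

/-- A valuation which is trivial on `K` and negative at `t`. -/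
theorem eq_infVal (h : IsLine K t) (P : DVal k L) (hPK : ∀ a : K, P (algebraMap K L a) = 0)
    (hPt : P t < 0) : P = infVal k h := by
  have key : ∀ z : L, P z = -(P t) * infVal k h z := by
    intro z
    by_cases hz : z = 0
    · rw [hz]; simp
    obtain ⟨a, b, hb, rfl⟩ := h.exists_div z
    have ha : a ≠ 0 := by
      rintro rfl
      rw [map_zero, zero_div] at hz
      exact hz rfl
    rw [P.map_div (h.aeval_ne ha) (h.aeval_ne hb),
      (infVal k h).map_div (h.aeval_ne ha) (h.aeval_ne hb), infVal_aeval h ha, infVal_aeval h hb,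
      val_aeval_of_neg h P hPK hPt ha, val_aeval_of_neg h P hPK hPt hb]
    ring
  obtain ⟨z, hz⟩ := P.surj'
  change P z = 1 at hz
  have h1 := key z
  rw [hz] at h1
  have h2 : -(P t) = 1 := by
    have h3 : -(P t) ∣ 1 := ⟨_, h1⟩
    have h4 := Int.eq_one_or_neg_one_of_mul_eq_one h1.symm
    omega
  apply DVal.ext
  intro z
  rw [key z, h2, one_mul]

end triv

end Pool.Agent.Helper92.Ga
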