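import Pool.Agent.Helper92.Weak.FormsOrd
import Pool.Agent.Helper92.Weak.Bridge
import Pool.Agent.Helper92.Ga.Line

set_option autoImplicit false
set_option linter.unusedSectionVars false

/-! Differential forms on `L = K(t)`: the logarithmic inequality. -/

namespace Pool.Agent.Helper92.Ga

open scoped KaehlerDifferential
open Module Pool.Agent.Helper92.Weak Pool.Agent.Helper50.Forms

section det

variable {k L : Type*} [Field k] [Field L] [Algebra k L] {v : DVal k L} {n : ℕ}

lemma Ge.prod {ι : Type*} {s : Finset ι} {f : ι → L} {m : ι → ℚ} (h : ∀ i ∈ s, v.Ge (m i) (f i)) :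
    v.Ge (∑ i ∈ s, m i) (∏ i ∈ s, f i) := by
  classical
  induction s using Finset.induction_on with
  | empty =>
    right
    simp
  | insert a s ha ih =>
    rw [Finset.sum_insert ha, Finset.prod_insert ha]
    exact (h a (Finset.mem_insert_self a s)).mul (ih fun i hi => h i (Finset.mem_insert_of_mem hi))

/-- Determinants with bounded entries. -/
lemma det_ge (M : Matrix (Fin n) (Fin n) L) (r c : Fin n → ℚ)
    (h : ∀ i j, v.Ge (r i + c j) (M i j)) : v.Ge (∑ i, r i + ∑ j, c j) M.det := by
  rw [Matrix.det_apply]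
  refine DVal.Ge.sum fun σ _ => ?_
  have h2 : v.Ge (∑ i, r i + ∑ j, c j) (∏ i, M (σ i) i) := by
    have h3 := Ge.prod (v := v) (s := Finset.univ) (f := fun i => M (σ i) i)
      (m := fun i => r (σ i) + c i) (fun i _ => h _ _)
    rwa [Finset.sum_add_distrib, Equiv.sum_comp σ r] at h3
  rcases Int.units_eq_one_or (Equiv.Perm.sign σ) with hs | hs
  · rw [hs, one_smul]
    exact h2
  · rw [hs, Units.neg_smul, one_smul]
    exact h2.neg

end det

variable {k K L : Type*} [Field k] [Field K] [Field L] [Algebra k K] [Algebra k L] [Algebra K L]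
  [IsScalarTower k K L] {t : L}

/-- The form `f dz₁ ∧ ... ∧ dz_d ∧ dt`. -/
noncomputable def omega1 {d : ℕ} (t : L) (f : K) (z : Fin d → K) : ⋀[L]^(d + 1) Ω[L⁄k] :=
  algebraMap K L f • dform k (Fin.append (fun i => algebraMap K L (z i)) (fun _ : Fin 1 => t))

lemma omega0_eq (h : IsLine K t) {d : ℕ} (f : K) (z : Fin d → K) :
    omega1 (k := k) t f z = t • omega0 (k := k) (fun _ : Fin 1 => t) f z := by
  unfold omega0 omega1
  rw [smul_smul]
  congr 1
  have := h.ne_zero
  rw [Fin.prod_univ_one]
  field_simp

/-- The order at infinity. -/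
lemma isOrd_inf [CharZero k] {d : ℕ} {y : Fin d → K} (hy : IsTranscendenceBasis k y)
    (h : IsLine K t) {f : K} (hf : f ≠ 0) (z : Fin d → K) (hz : dform k z ≠ 0) :
    (infVal k h).IsOrd (omega1 (k := k) t f z) (-2) := by
  rw [omega0_eq h]
  have h1 := isOrd_hor hy h.isTorus (fun _ => -1) ⟨1, fun _ => -1, one_ne_zero, by
    unfold ipair
    simp [ZVal.trivial]⟩ hf z hz
  have h2 := (isOrd_smul (infVal k h) h.ne_zero (ω := omega0 (k := k) (fun _ : Fin 1 => t) f z)
    (a := -1)).2 h1
  rw [infVal_t] at h2
  exact h2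

section par

variable {d : ℕ} {z : Fin d → K} {B : Basis (Fin (d + 1)) L Ω[L⁄k]}

/-- The last coordinate of the differential of a polynomial is its derivative. -/
lemma repr_aeval (hB : ∀ i, B i = KaehlerDifferential.D k L
      (Fin.append (fun i => algebraMap K L (z i)) (fun _ : Fin 1 => t) i))
    (h2 : ∀ (f : K) (j : Fin 1),
      B.repr (KaehlerDifferential.D k L (algebraMap K L f)) (Fin.natAdd d j) = 0)
    (p : Polynomial K) :
    B.repr (KaehlerDifferential.D k L (Polynomial.aeval t p)) (Fin.natAdd d 0) =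
      Polynomial.aeval t (Polynomial.derivative p) := by
  have hT : B.repr (KaehlerDifferential.D k L t) (Fin.natAdd d 0) = 1 := by
    have h4 : KaehlerDifferential.D k L t = B (Fin.natAdd d 0) := by
      rw [hB, Fin.append_right]
    rw [h4, B.repr_self, Finsupp.single_eq_same]
  induction p using Polynomial.induction_on' with
  | add p q hp hq =>
    rw [map_add, map_add, map_add, Finsupp.add_apply, hp, hq, Polynomial.derivative_add, map_add]
  | monomial n a =>
    rw [Polynomial.aeval_monomial, Derivation.leibniz, map_add, Finsupp.add_apply, map_smul,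
      map_smul, Finsupp.smul_apply, Finsupp.smul_apply, h2, smul_zero, add_zero,
      Derivation.leibniz_pow, map_nsmul, map_smul, Finsupp.smul_apply, Finsupp.smul_apply, hT,
      Polynomial.derivative_monomial, Polynomial.aeval_monomial, map_mul, map_natCast]
    simp only [smul_eq_mul, mul_one, nsmul_eq_mul]
    ring

end par

/-- The order at a prime polynomial. -/
theorem isOrd_pVal [CharZero k] {d : ℕ} {y : Fin d → K} (hy : IsTranscendenceBasis k y)
    (h : IsLine K t) {p : Polynomial K} (hp : Prime p) {f : K} (hf : f ≠ 0) (z : Fin d → K)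
    (hz : dform k z ≠ 0) : (pVal k h p hp).IsOrd (omega1 (k := k) t f z) 0 := by
  classical
  obtain ⟨b₀, -⟩ := exists_kaehler_basis hy
  obtain ⟨b, hb⟩ := exists_basis_of_ne_zero b₀ z hz
  obtain ⟨B, hB, hB1, hB2⟩ := exists_basis_tower hy _ h.isTorus.indep h.isTorus.gen z b hb
  set V := pVal k h p hp with hV
  rw [omega1]
  set x : Fin (d + 1) → L := Fin.append (fun i => algebraMap K L (z i)) (fun _ : Fin 1 => t) with hx
  have hxc : ∀ i, x (Fin.castAdd 1 i) = algebraMap K L (z i) := fun i => by
    rw [hx, Fin.append_left]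
  have hxn : ∀ l, x (Fin.natAdd d l) = t := fun l => by rw [hx, Fin.append_right]
  have hpoly : ∀ (q : Polynomial K) (i : Fin (d + 1)), ∃ q' : Polynomial K,
      B.repr (KaehlerDifferential.D k L (Polynomial.aeval t q)) i = Polynomial.aeval t q' := by
    intro q i
    induction q using Polynomial.induction_on' with
    | add q₁ q₂ h1 h2 =>
      obtain ⟨a₁, h1⟩ := h1
      obtain ⟨a₂, h2⟩ := h2
      exact ⟨a₁ + a₂, by rw [map_add, map_add, map_add, Finsupp.add_apply, h1, h2, map_add]⟩
    | monomial n a =>
      have h3 : ∃ q' : Polynomial K, B.repr (KaehlerDifferential.D k L (algebraMap K L a)) i =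
          Polynomial.aeval t q' := by
        induction i using Fin.addCases with
        | left i => exact ⟨Polynomial.C (b.repr (KaehlerDifferential.D k K a) i), by
            rw [hB1, Polynomial.aeval_C]⟩
        | right l => exact ⟨0, by rw [hB2, map_zero]⟩
      have h4 : ∃ q' : Polynomial K, B.repr (KaehlerDifferential.D k L t) i =
          Polynomial.aeval t q' := by
        have h5 : KaehlerDifferential.D k L t = B (Fin.natAdd d 0) := by
          rw [hB, hxn]
        refine ⟨Polynomial.C (if Fin.natAdd d 0 = i then 1 else 0), ?_⟩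
        rw [h5, B.repr_self, Finsupp.single_apply, Polynomial.aeval_C]
        split_ifs <;> simp
      obtain ⟨q₁, h3⟩ := h3
      obtain ⟨q₂, h4⟩ := h4
      refine ⟨Polynomial.C a * ((n : Polynomial K) * (Polynomial.X ^ (n - 1) * q₂)) +
        Polynomial.X ^ n * q₁, ?_⟩
      rw [Polynomial.aeval_monomial, Derivation.leibniz, map_add, Finsupp.add_apply, map_smul,
        map_smul, Finsupp.smul_apply, Finsupp.smul_apply, h3, Derivation.leibniz_pow, map_nsmul,
        map_smul, Finsupp.smul_apply, Finsupp.smul_apply, h4]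
      simp only [smul_eq_mul, nsmul_eq_mul, map_add, map_mul, map_pow, Polynomial.aeval_C,
        Polynomial.aeval_X, map_natCast]
  have hf' : algebraMap K L f ≠ 0 := by simpa using hf
  have key : V.IsOrd (algebraMap K L f • dform k x) (V (algebraMap K L f)) := by
    refine isOrd_of_coord V x B hB ?_ ?_ hf'
    · intro i
      induction i using Fin.addCases with
      | left i => rw [hxc, hV, pVal_algebraMap]
      | right l =>
        rw [hxn, hV]
        have := pVal_nonneg k h hp Polynomial.X
        rwa [Polynomial.aeval_X] at this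
    · intro y hy i
      have hy' : y ∈ V.ring := hy
      rw [hV, mem_pVal_ring] at hy'
      obtain ⟨a', b', hb', rfl⟩ := hy'
      obtain ⟨a₁, h1⟩ := hpoly a' i
      obtain ⟨b₁, h2⟩ := hpoly b' i
      have h3 : B.repr (KaehlerDifferential.D k L (Polynomial.aeval t a' / Polynomial.aeval t b')) i =
          Polynomial.aeval t (b' * a₁ - a' * b₁) / Polynomial.aeval t (b' ^ 2) := by
        rw [Derivation.leibniz_div, map_smul, map_sub, map_smul, map_smul, Finsupp.smul_apply,
          Finsupp.sub_apply, Finsupp.smul_apply, Finsupp.smul_apply, h1, h2]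
        simp only [smul_eq_mul, map_sub, _root_.map_mul, map_pow]
        rw [div_eq_mul_inv, inv_pow, mul_comm]
      rw [h3]
      change _ ∈ V.ring
      rw [hV, mem_pVal_ring]
      exact ⟨_, _, fun h => hb' (hp.dvd_of_dvd_pow h), rfl⟩
  have hval : V (algebraMap K L f) = 0 := by rw [hV, pVal_algebraMap]
  rw [hval] at key
  exact key

/-- Coordinates with a uniformizer for an order. -/
lemma exists_coord_unif [CharZero k] {n : ℕ} {y : Fin n → L} (hy : IsTranscendenceBasis k y)
    (v : DVal k L) {ω : ⋀[L]^n Ω[L⁄k]} {a : ℤ} (h : v.IsOrd ω a) :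
    ∃ (z : Fin n → L) (b : Basis (Fin n) L Ω[L⁄k]) (i₀ : Fin n) (p g : L),
      (∀ i, b i = KaehlerDifferential.D k L (z i)) ∧ (∀ i, 0 ≤ v (z i)) ∧
      (∀ y, 0 ≤ v y → ∀ i, 0 ≤ v (b.repr (KaehlerDifferential.D k L y) i)) ∧
      v p = 1 ∧ z i₀ = p ∧ g ≠ 0 ∧ v g = a ∧ ω = g • dform k z := by
  obtain ⟨b₀, -⟩ := exists_kaehler_basis hy
  have hω : ω ≠ 0 := by
    rintro rfl
    exact not_isOrd_zero v a h
  obtain ⟨z, b, f, hb, hz, hreg, hf, hfa, he⟩ := exists_coord v b₀ hω h
  obtain ⟨p, hp0, hp⟩ := v.exists_uniformizer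
  obtain ⟨z', b', i₀, u, hb', hz', hreg', hzp, hu, hvu, he'⟩ :=
    exists_coord_uniformizer hy v p hp z b hb hz hreg
  refine ⟨z', b', i₀, p, f * u, hb', hz', hreg', hp, hzp, mul_ne_zero hf hu, ?_, ?_⟩
  · rw [v.map_mul hf hu, hvu, add_zero, hfa]
  · rw [he, he', smul_smul]

/-- The logarithmic inequality. -/
theorem log_ineq [CharZero k] {d : ℕ} {y : Fin d → K} (hy : IsTranscendenceBasis k y)
    (h : IsLine K t) {f : K} (hf : f ≠ 0) (z : Fin d → K) (hz : dform k z ≠ 0)
    {v : DVal k L} {v₀ : DVal k K} {e : ℕ} (he : ∀ a : K, v (algebraMap K L a) = e * v₀ a)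
    {o κ : ℤ} (ho : v.IsOrd (omega1 (k := k) t f z) o) (hκ : v₀.IsOrd (f • dform k z) κ)
    {p : Polynomial K} (hp : Polynomial.derivative p ≠ 0) :
    v (Polynomial.aeval t p) ≤ v (Polynomial.aeval t (Polynomial.derivative p)) +
      (o + 1 - e * (κ + 1)) := by
  classical
  -- coordinates on the base
  obtain ⟨b₀, hb₀⟩ := exists_kaehler_basis hy
  obtain ⟨b, hb⟩ := exists_basis_of_ne_zero b₀ z hz
  obtain ⟨z', b', i₀, q, g, hb', hz', hreg', hq, hzq, hg, hgκ, heq⟩ := exists_coord_unif hy v₀ hκ
  obtain ⟨B, hB, hB1, hB2⟩ := exists_basis_tower hy _ h.isTorus.indep h.isTorus.gen z b hb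
  obtain ⟨B', hB', hB1', hB2'⟩ := exists_basis_tower hy _ h.isTorus.indep h.isTorus.gen z' b' hb'
  -- the form in the new coordinates
  have hom : omega1 (k := k) t f z =
      algebraMap K L g • dform k (Fin.append (fun i => algebraMap K L (z' i)) (fun _ : Fin 1 => t)) := by
    unfold omega1
    rw [dform_append _ z z' b' B' hB' hB1' hB2', smul_smul, ← _root_.map_mul]
    congr 2
    have h1 : f • dform k z = (f * b'.det fun j => KaehlerDifferential.D k K (z j)) • dform k z' := by
      rw [dform_eq_det z' b' hb' z, smul_smul]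
    rw [heq] at h1
    exact (smul_dform_inj z' b' hb' h1).symm
  -- a transcendence basis of `L`
  have hyL : IsTranscendenceBasis k (Fin.append (fun i => algebraMap K L (y i))
      (fun _ : Fin 1 => t)) := by
    have ht' : IsTranscendenceBasis K (fun _ : Fin 1 => t) := by
      rw [h.isTorus.indep.isTranscendenceBasis_iff_isAlgebraic]
      constructor
      intro a
      have ha : a ∈ IntermediateField.adjoin K (Set.range (fun _ : Fin 1 => t)) := by
        rw [h.isTorus.gen]
        trivial
      rw [IntermediateField.mem_adjoin_iff_div] at ha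
      obtain ⟨r, hr, s, hs, rfl⟩ := ha
      have h1 : IsAlgebraic (Algebra.adjoin K (Set.range (fun _ : Fin 1 => t))) r :=
        isAlgebraic_algebraMap (⟨r, hr⟩ : Algebra.adjoin K (Set.range (fun _ : Fin 1 => t)))
      have h2 : IsAlgebraic (Algebra.adjoin K (Set.range (fun _ : Fin 1 => t))) s :=
        isAlgebraic_algebraMap (⟨s, hs⟩ : Algebra.adjoin K (Set.range (fun _ : Fin 1 => t)))
      rw [div_eq_mul_inv]
      exact h1.mul h2.inv
    have h1 := hy.sumElim_comp ht'
    let ε : Fin (d + 1) ≃ Fin 1 ⊕ Fin d := finSumFinEquiv.symm.trans (Equiv.sumComm _ _)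
    have h2 := h1.comp_equiv ε
    convert h2 using 1
    funext i
    induction i using Fin.addCases with
    | left i => rw [Fin.append_left]; simp [ε]
    | right l => rw [Fin.append_right]; simp [ε]
  obtain ⟨x, C, j₀, π, γ, hC, hx, hregx, hπ, hxπ, hγ, hγo, heqx⟩ := exists_coord_unif hyL v ho
  have hπ0 : π ≠ 0 := v.ne_zero_of_pos (by omega)
  have hq0 : q ≠ 0 := v₀.ne_zero_of_pos (by omega)
  set F := Polynomial.aeval t p with hF
  have hp0 : p ≠ 0 := by
    rintro rfl
    simp at hp
  have hF0 : F ≠ 0 := h.aeval_ne hp0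
  have hF'0 : Polynomial.aeval t (Polynomial.derivative p) ≠ 0 := h.aeval_ne hp
  -- replace `t` by `F`
  have hupd := dform_update _ B' hB' (Fin.natAdd d 0) F
  rw [repr_aeval hB' hB2' p] at hupd
  set w : Fin (d + 1) → L := Function.update (Fin.append (fun i => algebraMap K L (z' i))
    (fun _ : Fin 1 => t)) (Fin.natAdd d 0) F with hw
  have hwc : ∀ i, w (Fin.castAdd 1 i) = algebraMap K L (z' i) := by
    intro i
    rw [hw, Function.update_of_ne, Fin.append_left]
    exact castAdd_ne_natAdd i 0
  have hwn : w (Fin.natAdd d 0) = F := by rw [hw, Function.update_self]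
  have hdet := dform_eq_det x C hC w
  set T := C.toMatrix (fun j => KaehlerDifferential.D k L (w j)) with hT
  rw [C.det_apply, ← hT] at hdet
  -- the relation
  have hrel : Polynomial.aeval t (Polynomial.derivative p) * γ = algebraMap K L g * T.det := by
    apply smul_dform_inj x C hC
    rw [← smul_smul, ← smul_smul, ← hdet, hupd, ← heqx, hom, smul_comm]
  -- the entries
  have hentry : ∀ y : L, y ≠ 0 → ∀ i, v.Ge ((if i = j₀ then (-1 : ℚ) else 0) + v y)
      (C.repr (KaehlerDifferential.D k L y) i) := by
    intro y hy0 i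
    obtain ⟨c, hc, h1⟩ := repr_split (v₀ := v) hπ hxπ hC hregx hy0 i
    rw [h1]
    have h2 : v.Ge (v y : ℚ) (π ^ (v y) * c) := by
      have h3 : v.Ge (v y : ℚ) (π ^ (v y)) := by
        right
        rw [v.map_zpow, hπ, mul_one]
      have h4 : v.Ge 0 c := ge_of_mem v hc
      simpa using h3.mul h4
    have hint : ∀ n : ℤ, v.Ge 0 (n : L) := by
      intro n
      have h : (n : L) ∈ v.ring := by
        have := v.ring.algebraMap_mem (n : k)
        rwa [map_intCast] at this
      exact (v.mem_ring_iff_ge).1 h
    split_ifs with hi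
    · apply DVal.Ge.add
      · exact h2.mono (by linarith)
      · have h5 : v.Ge (-1 : ℚ) (π⁻¹) := by
          right
          rw [v.map_inv, hπ]
          norm_num
        have h6 := ((hint (v y)).mul h5).mul (DVal.ge_self (v := v) y)
        refine h6.mono ?_
        linarith
    · rw [add_zero]
      exact h2.mono (by linarith)
  let cc : Fin (d + 1) → ℚ := Fin.append (fun i : Fin d => if i = i₀ then (e : ℚ) else 0)
    (fun _ : Fin 1 => (v F : ℚ))
  have hTge : v.Ge (∑ i, (if i = j₀ then (-1 : ℚ) else 0) + ∑ j, cc j) T.det := by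
    apply det_ge
    intro i j
    rw [hT, Basis.toMatrix_apply]
    induction j using Fin.addCases with
    | left l =>
      simp only [cc, Fin.append_left]
      rw [hwc]
      split_ifs with h1 h2 h2
      · have h3 := hentry (algebraMap K L (z' l)) (by
          rw [h2, hzq]; simpa using hq0) i
        rw [if_pos h1, he, h2, hzq, hq, mul_one, Int.cast_natCast] at h3
        rw [h2, hzq]
        exact h3
      · by_cases hz0 : z' l = 0
        · rw [hz0]
          left
          simp
        · have h3 := hentry (algebraMap K L (z' l)) (by simpa using hz0) i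
          rw [if_pos h1] at h3
          refine h3.mono ?_
          have h4 : (0 : ℤ) ≤ v (algebraMap K L (z' l)) := by
            rw [he]
            exact mul_nonneg (by positivity) (hz' l)
          have h5 : (0 : ℚ) ≤ v (algebraMap K L (z' l)) := by exact_mod_cast h4
          linarith
      · have h3 := hentry (algebraMap K L (z' l)) (by
          rw [h2, hzq]; simpa using hq0) i
        rw [if_neg h1, he, h2, hzq, hq, mul_one, Int.cast_natCast] at h3
        rw [h2, hzq]
        exact h3
      · have h5 : (0 : ℤ) ≤ v (algebraMap K L (z' l)) := by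
          rw [he]
          exact mul_nonneg (by positivity) (hz' l)
        have h6 := hregx _ h5 i
        rw [add_zero]
        exact ge_of_mem v h6
    | right l =>
      have hl : l = 0 := Subsingleton.elim _ _
      subst hl
      simp only [cc, Fin.append_right]
      rw [hwn]
      exact hentry F hF0 i
  have hsum1 : ∑ i : Fin (d + 1), (if i = j₀ then (-1 : ℚ) else 0) = -1 := by
    rw [Finset.sum_ite_eq' Finset.univ j₀]
    simp
  have hsum2 : ∑ j, cc j = e + v F := by
    rw [Fin.sum_univ_add]
    simp only [cc, Fin.append_left, Fin.append_right]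
    rw [Finset.sum_ite_eq' Finset.univ i₀]
    simp
  rw [hsum1, hsum2] at hTge
  have hTne : T.det ≠ 0 := by
    intro h0
    rw [h0, mul_zero] at hrel
    exact mul_ne_zero hF'0 hγ hrel
  rw [DVal.ge_iff hTne] at hTge
  have hgL : algebraMap K L g ≠ 0 := by simpa using hg
  have hval := congrArg v hrel
  rw [v.map_mul hF'0 hγ, v.map_mul hgL hTne, hγo, he, hgκ] at hval
  have h7 : (-1 : ℤ) + (e + v F) ≤ v T.det := by exact_mod_cast hTge
  linarith

end Pool.Agent.Helper92.Ga
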