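import Pool.Agent.Helper92.Ga.Main1

set_option autoImplicit false
set_option linter.unusedSectionVars false

/-! Log canonical pairs with an action of the additive group. -/

namespace Pool.Agent.Helper92.Ga

open Pool.Agent.Helper92.Weak Polynomial Filter

/-- Changing the coefficient of the effective part. -/
theorem kod_nu_eps {k K : Type*} [Field k] [Field K] [Algebra k K] {Z : ProjVar k K}
    {T B DZ : Z.Div} {N N₃ : ℕ} (hN : 0 < N) (hN₃ : 0 < N₃) (hDZ : ∀ Q, DZ Q = N * T Q + B Q)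
    (hB : ∀ Q, 0 ≤ B Q) (hint : Z.IsInt DZ) {η : K} (hη : η ≠ 0)
    (hT : ∀ Q : Z.primeDivisors, 0 ≤ (Q.1 η : ℚ) + N₃ * T Q) (hdvd : N₃ ∣ N) {ε : ℚ}
    (hε : 0 < ε) : Comparison Z Z (T + ε • B) DZ 0 := by
  obtain ⟨c, hc⟩ := hdvd
  have hc0 : 0 < c := by
    rcases Nat.eq_zero_or_pos c with h | h
    · rw [h, mul_zero] at hc
      omega
    · exact h
  have hN₃' : (0 : ℚ) < N₃ := by exact_mod_cast hN₃
  have hcQ : (N : ℚ) = N₃ * c := by exact_mod_cast hc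
  obtain ⟨q₀, hq₀⟩ := exists_nat_ge (max ε 1)
  obtain ⟨q₁, hq₁⟩ := exists_nat_ge (max (ε⁻¹) N)
  have hq₀1 : ε ≤ q₀ := (le_max_left _ _).trans hq₀
  have hq₀2 : (1 : ℚ) ≤ q₀ := (le_max_right _ _).trans hq₀
  have hq₁1 : ε⁻¹ ≤ q₁ := (le_max_left _ _).trans hq₁
  have hq₁2 : (N : ℚ) ≤ q₁ := (le_max_right _ _).trans hq₁
  have hq₀' : 1 ≤ q₀ := by exact_mod_cast hq₀2
  have hq₁' : N ≤ q₁ := by exact_mod_cast hq₁2
  have hq₁ε : 1 ≤ q₁ * ε := by
    have := mul_le_mul_of_nonneg_right hq₁1 hε.le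
    rwa [inv_mul_cancel₀ hε.ne'] at this
  refine comparison_of_le hint (η := η ^ c) (pow_ne_zero _ hη) ?_ (p := N₃) (q := N₃ * q₀) hN₃
    (Nat.mul_pos hN₃ hq₀') (ψ := η ^ (q₀ * N - 1)) (pow_ne_zero _ hη) ?_ (p' := N₃)
    (q' := N₃ * q₁) hN₃ (Nat.mul_pos hN₃ (by omega)) (ψ' := η ^ (q₁ - N)) (pow_ne_zero _ hη) ?_
  · intro Q
    rw [DVal.map_pow, hDZ, hcQ]
    push_cast
    have h1 := hB Q
    have h2 : (0 : ℚ) ≤ c := by positivity
    have h3 := mul_nonneg h2 (hT Q)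
    linarith
  · intro Q
    rw [DVal.map_pow, hDZ, Finsupp.add_apply, Finsupp.smul_apply, smul_eq_mul]
    have h1 : 1 ≤ q₀ * N := Nat.mul_pos hq₀' hN
    have h2 : ((q₀ * N - 1 : ℕ) : ℚ) = q₀ * N - 1 := by
      rw [Nat.cast_sub h1]
      push_cast
      rfl
    have h3 : (0 : ℚ) ≤ (q₀ * N - 1 : ℕ) := by positivity
    have h4 := mul_nonneg h3 (hT Q)
    have h5 := mul_nonneg (mul_nonneg hN₃'.le (sub_nonneg.2 hq₀1)) (hB Q)
    rw [h2] at h4
    push_cast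
    rw [h2]
    linarith
  · intro Q
    rw [DVal.map_pow, hDZ, Finsupp.add_apply, Finsupp.smul_apply, smul_eq_mul]
    have h2 : ((q₁ - N : ℕ) : ℚ) = q₁ - N := by
      rw [Nat.cast_sub hq₁']
    have h3 : (0 : ℚ) ≤ (q₁ - N : ℕ) := by positivity
    have h4 := mul_nonneg h3 (hT Q)
    have h5 := mul_nonneg (mul_nonneg hN₃'.le (sub_nonneg.2 hq₁ε)) (hB Q)
    rw [h2] at h4
    push_cast
    rw [h2]
    linarith

namespace GV

variable {k K L : Type*} [Field k] [Field K] [Field L] [Algebra k K] [Algebra k L] [Algebra K L]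
  [IsScalarTower k K L] {t : L} {𝒱 : GV k K t} [CharZero k]

/-- Multiples. -/
noncomputable def Red.scale {E : 𝒱.X.Div} (R : Red E) (N : ℕ) (hN : 0 < N) : Red E where
  M := R.M * N
  M_pos := Nat.mul_pos R.M_pos hN
  int := by
    have h := R.int.nsmul N
    rw [smul_smul] at h
    have h4 : (N : ℚ) * R.M = ((R.M * N : ℕ) : ℚ) := by push_cast; ring
    rwa [h4] at h
  G := R.G ^ N
  G_ne := pow_ne_zero _ R.G_ne
  D := (N : ℚ) • R.D
  D_eq P := by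
    rw [Finsupp.smul_apply, R.D_eq, DVal.map_pow, smul_eq_mul]
    push_cast
    ring
  noPoly := R.noPoly.smul _

/-- A polynomial with prescribed zeros. -/
lemma exists_monic (A : 𝒱.X.Div) (hA : ∀ P, ∃ n : ℕ, A P = n) :
    ∃ F : K[X], F.Monic ∧ ∀ P : 𝒱.X.primeDivisors,
      (∃ (p : K[X]) (hp : Prime p), P.1 = pVal k 𝒱.h p hp) → (P.1 (aeval t F) : ℚ) = A P := by
  classical
  induction A using Finsupp.induction with
  | zero => exact ⟨1, monic_one, fun P _ => by simp⟩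
  | single_add P₀ b A hP₀ _ ih =>
    have hAP₀ : A P₀ = 0 := Finsupp.notMem_support_iff.1 hP₀
    obtain ⟨F, hF, h⟩ := ih (fun P => by
      by_cases hP : P = P₀
      · exact ⟨0, by rw [hP, hAP₀]; simp⟩
      · obtain ⟨n, hn⟩ := hA P
        rw [Finsupp.add_apply, Finsupp.single_apply, if_neg (Ne.symm hP), zero_add] at hn
        exact ⟨n, hn⟩)
    obtain ⟨n, hn⟩ := hA P₀
    rw [Finsupp.add_apply, Finsupp.single_eq_same, hAP₀, add_zero] at hn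
    by_cases hex : ∃ (p : K[X]) (hp : Prime p), P₀.1 = pVal k 𝒱.h p hp
    · obtain ⟨p', hp', hPp'⟩ := hex
      have hp : Prime (normalize p') := (normalize_associated p').symm.prime hp'
      have hPp : P₀.1 = pVal k 𝒱.h _ hp := by
        rw [hPp']
        exact pVal_eq_of_dvd k 𝒱.h hp' hp (normalize_associated p').dvd
      have hmonic : (normalize p').Monic := Polynomial.monic_normalize hp'.ne_zero
      generalize normalize p' = p at hp hPp hmonic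
      refine ⟨p ^ n * F, (hmonic.pow n).mul hF, fun P hP => ?_⟩
      have hp0 : aeval t p ≠ 0 := 𝒱.h.aeval_ne hp.ne_zero
      have hF0 : aeval t F ≠ 0 := 𝒱.h.aeval_ne hF.ne_zero
      rw [map_mul, map_pow, DVal.map_mul _ (pow_ne_zero _ hp0) hF0, DVal.map_pow,
        Finsupp.add_apply, Finsupp.single_apply, ← h P hP, hn]
      push_cast
      congr 1
      split_ifs with heq
      · rw [← heq, hPp, pVal_self]
        simp
      · obtain ⟨q, hq, hPq⟩ := hP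
        have h1 : P.1 (aeval t p) = 0 := by
          rw [hPq]
          apply pVal_eq_zero
          intro hqp
          apply heq
          apply Subtype.ext
          rw [hPp, hPq]
          exact pVal_eq_of_dvd k 𝒱.h hp hq hqp
        rw [h1]
        simp
    · refine ⟨F, hF, fun P hP => ?_⟩
      rw [Finsupp.add_apply, Finsupp.single_apply, if_neg (by
        rintro rfl
        exact hex hP), zero_add]
      exact h P hP

variable (𝒱) in
/-- The data of a log canonical pair. -/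
structure Adj where
  KX : 𝒱.X.Div
  Δ : 𝒱.X.Div
  Δ_nonneg : ∀ P, 0 ≤ Δ P
  KZ : 𝒱.Z.Div
  ΔZ : 𝒱.Z.Div
  ΔZ_le : ∀ j : 𝒱.JJ, mult j * ΔZ (base j) ≤ Δ ⟨j.1, j.2.1⟩ + (mult j - 1)
  KX_int : 𝒱.X.IsInt KX
  g : L
  g_ne : g ≠ 0
  pol : ∀ P : 𝒱.X.primeDivisors, (∃ (p : K[X]) (hp : Prime p), P.1 = pVal k 𝒱.h p hp) →
    KX P = P.1 g
  o : 𝒱.JJ → ℚ
  vert : ∀ j : 𝒱.JJ, KX ⟨j.1, j.2.1⟩ = j.1 g + o j
  log : ∀ (j : 𝒱.JJ) (p : K[X]), derivative p ≠ 0 → (j.1 (aeval t p) : ℚ) ≤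
    j.1 (aeval t (derivative p)) + (o j + 1 - mult j * (KZ (base j) + 1))
  qc : 𝒱.X.IsQCartier (KX + Δ)
  lc_inf : ∀ c, 𝒱.X.IsValue (infVal k 𝒱.h) (KX + Δ) c → c ≤ infVal k 𝒱.h g - 1

/-- The values of polynomials and their leading coefficients. -/
lemma Adj.le_lead (𝒜 : 𝒱.Adj) (j : 𝒱.JJ) {p : K[X]} (hp : p ≠ 0) :
    (j.1 (aeval t p) : ℚ) ≤ j.1 (algebraMap K L p.leadingCoeff) +
      p.natDegree * (𝒜.o j + 1 - mult j * (𝒜.KZ (base j) + 1)) := by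
  have : CharZero K := charZero_of_injective_algebraMap (algebraMap k K).injective
  induction hn : p.natDegree generalizing p with
  | zero =>
    rw [Polynomial.eq_C_of_natDegree_eq_zero hn, aeval_C, leadingCoeff_C]
    simp
  | succ n ih =>
    have hd0 : derivative p ≠ 0 := by
      intro h0
      have := derivative_eq_zero.1 h0
      omega
    have hdeg : (derivative p).natDegree = n := by
      rw [natDegree_derivative, hn]
      rfl
    have h1 := ih hd0 hdeg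
    have h2 := 𝒜.log j p hd0
    have hlc : (derivative p).leadingCoeff = p.leadingCoeff * ((n : K) + 1) := by
      unfold leadingCoeff
      rw [hdeg, coeff_derivative, hn]
    have h3 : j.1 (algebraMap K L (derivative p).leadingCoeff) =
        j.1 (algebraMap K L p.leadingCoeff) := by
      have hl0 : algebraMap K L p.leadingCoeff ≠ 0 := by simpa using hp
      have hn1 : algebraMap K L ((n : K) + 1) = algebraMap k L ((n : k) + 1) := by
        rw [map_add, map_add, map_one, map_one, map_natCast, map_natCast]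
      have hn0 : algebraMap K L ((n : K) + 1) ≠ 0 := by
        rw [Ne, map_eq_zero_iff _ (algebraMap K L).injective]
        exact_mod_cast Nat.succ_ne_zero n
      rw [hlc, map_mul, j.1.map_mul hl0 hn0, hn1, j.1.map_const, add_zero]
    rw [h3] at h1
    push_cast
    linarith

lemma Adj.le_zero (𝒜 : 𝒱.Adj) (j : 𝒱.JJ) {F : K[X]} (hF : F.Monic) :
    (j.1 (aeval t F) : ℚ) ≤ 0 := by
  have h1 := (𝒱.vert_inv j).le_leadingCoeff hF.ne_zero
  rw [hF.leadingCoeff, map_one, j.1.map_one] at h1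
  exact_mod_cast h1

lemma Adj.le_mul (𝒜 : 𝒱.Adj) (j : 𝒱.JJ) {F : K[X]} (hF : F.Monic) {x y : ℚ} (hx : 0 ≤ x)
    (hy : 0 ≤ y) (hxy : y ≤ x * F.natDegree) :
    x * (j.1 (aeval t F) : ℚ) ≤ y * (𝒜.o j + 1 - mult j * (𝒜.KZ (base j) + 1)) := by
  have h1 := 𝒜.le_zero j hF
  have h2 := 𝒜.le_lead j hF.ne_zero
  rw [hF.leadingCoeff, map_one, j.1.map_one, Int.cast_zero, zero_add] at h2
  set δ := 𝒜.o j + 1 - mult j * (𝒜.KZ (base j) + 1) with hδ
  rcases le_total 0 δ with h3 | h3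
  · have h4 : x * (j.1 (aeval t F) : ℚ) ≤ 0 := mul_nonpos_of_nonneg_of_nonpos hx h1
    have h5 : 0 ≤ y * δ := mul_nonneg hy h3
    linarith
  · have h4 := mul_le_mul_of_nonneg_left h2 hx
    have h5 := mul_le_mul_of_nonpos_right hxy h3
    linarith

/-- The main theorem. -/
theorem adj_main (𝒜 : 𝒱.Adj) {N₃ : ℕ} (hN₃ : 0 < N₃) {η : K} (hη : η ≠ 0)
    (hη2 : ∀ Q : 𝒱.QQ, 0 ≤ (Q.1 η : ℚ) + N₃ * (𝒜.KZ Q + 𝒜.ΔZ Q)) :
    (𝒱.X.kod (𝒜.KX + 𝒜.Δ) = ⊥ ∧ 𝒱.X.nu (𝒜.KX + 𝒜.Δ) = ⊥) ∨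
    ∃ (s : ℕ) (B : 𝒱.Z.Div), s ≤ 1 ∧ (∀ Q, 0 ≤ B Q) ∧ ∀ ε : ℚ, 0 < ε →
      𝒱.X.kod (𝒜.KX + 𝒜.Δ) = s + 𝒱.Z.kod (𝒜.KZ + 𝒜.ΔZ + ε • B) ∧
      𝒱.X.nu (𝒜.KX + 𝒜.Δ) = s + 𝒱.Z.nu (𝒜.KZ + 𝒜.ΔZ + ε • B) := by
  classical
  obtain ⟨M, hM, hMΔ⟩ := IsInt.smul_of_dvd 𝒜.Δ
  obtain ⟨F, hF, hFv⟩ := exists_monic ((M : ℚ) • 𝒜.Δ) (fun P => by
    obtain ⟨z, hz⟩ := hMΔ P
    have h1 : 0 ≤ ((M : ℚ) • 𝒜.Δ) P := by
      rw [Finsupp.smul_apply, smul_eq_mul]
      exact mul_nonneg (by positivity) (𝒜.Δ_nonneg P)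
    rw [hz] at h1
    have h2 : 0 ≤ z := by exact_mod_cast h1
    obtain ⟨n, hn⟩ := Int.eq_ofNat_of_zero_le h2
    exact ⟨n, by rw [hz, hn]; simp⟩)
  have hM' : (0 : ℚ) < M := by exact_mod_cast hM
  have hF0 : aeval t F ≠ 0 := 𝒱.h.aeval_ne hF.ne_zero
  set E := 𝒜.KX + 𝒜.Δ with hE
  have hGne : 𝒜.g ^ M * aeval t F ≠ 0 := mul_ne_zero (pow_ne_zero _ 𝒜.g_ne) hF0
  have hvG : ∀ v : DVal k L, (v (𝒜.g ^ M * aeval t F) : ℚ) = M * v 𝒜.g + v (aeval t F) := by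
    intro v
    rw [v.map_mul (pow_ne_zero _ 𝒜.g_ne) hF0, v.map_pow]
    push_cast
    rfl
  have hEint : 𝒱.X.IsInt ((M : ℚ) • E) := by
    rw [hE, smul_add]
    exact (𝒜.KX_int.nsmul M).add hMΔ
  let R : Red E :=
    { M := M
      M_pos := hM
      int := hEint
      G := 𝒜.g ^ M * aeval t F
      G_ne := hGne
      D := (M : ℚ) • E - 𝒱.X.prin (𝒜.g ^ M * aeval t F)
      D_eq := fun P => by
        rw [Finsupp.sub_apply, Finsupp.smul_apply, ProjVar.prin_apply, smul_eq_mul]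
      noPoly := fun P hP => by
        rw [Finsupp.sub_apply, Finsupp.smul_apply, ProjVar.prin_apply, smul_eq_mul, hvG,
          hFv P hP, hE, Finsupp.add_apply, 𝒜.pol P hP, Finsupp.smul_apply, smul_eq_mul]
        ring }
  have hRD : R.D = (M : ℚ) • E - 𝒱.X.prin (𝒜.g ^ M * aeval t F) := rfl
  have hRint : 𝒱.X.IsInt R.D := hEint.sub (𝒱.X.isInt_prin _)
  -- values
  have hval : ∀ (v : DVal k L) (c : ℚ), 𝒱.X.IsValue v E c →
      𝒱.X.IsValue v R.D (M * c - (M * v 𝒜.g + v (aeval t F))) := by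
    intro v c hc
    have h1 := (hc.smul (M : ℚ)).add ((ProjVar.IsValue.prin (X := 𝒱.X) (v := v) hGne).smul (-1))
    have h2 : (M : ℚ) • E + (-1 : ℚ) • 𝒱.X.prin (𝒜.g ^ M * aeval t F) = R.D := by
      rw [hRD, neg_one_smul, sub_eq_add_neg]
    rw [h2, hvG] at h1
    have h3 : (M : ℚ) * c + -1 * (M * v 𝒜.g + v (aeval t F)) =
        M * c - (M * v 𝒜.g + v (aeval t F)) := by ring
    rwa [h3] at h1
  obtain ⟨c₀, hc₀⟩ := 𝒜.qc.exists_value (infVal k 𝒱.h)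
  have hlc := 𝒜.lc_inf c₀ hc₀
  have hd := hval _ _ hc₀
  rw [infVal_aeval 𝒱.h hF.ne_zero] at hd
  set d : ℚ := M * c₀ - (M * infVal k 𝒱.h 𝒜.g + ((-(F.natDegree : ℤ) : ℤ) : ℚ)) with hd_def
  have hdn : d ≤ F.natDegree - M := by
    rw [hd_def]
    push_cast
    have := mul_le_mul_of_nonneg_left hlc hM'.le
    linarith
  by_cases hd0 : d < 0
  · exact Or.inl (neg_case R hd hd0)
  push Not at hd0
  right
  have hnM : (M : ℚ) ≤ F.natDegree := by linarith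
  -- the vertical coefficients
  have hDj : ∀ j : 𝒱.JJ, R.D ⟨j.1, j.2.1⟩ =
      M * (𝒜.o j + 𝒜.Δ ⟨j.1, j.2.1⟩) - j.1 (aeval t F) := by
    intro j
    have h1 := R.D_eq ⟨j.1, j.2.1⟩
    change R.D ⟨j.1, j.2.1⟩ = M * E ⟨j.1, j.2.1⟩ - (j.1 (𝒜.g ^ M * aeval t F) : ℚ) at h1
    rw [h1, hvG, hE, Finsupp.add_apply, 𝒜.vert]
    ring
  have hDlow : ∀ j : 𝒱.JJ, (mult j : ℚ) * (M * (𝒜.KZ (base j) + 𝒜.ΔZ (base j))) ≤
      R.D ⟨j.1, j.2.1⟩ := by
    intro j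
    have h1 := 𝒜.le_mul j hF (x := 1) (y := M) zero_le_one hM'.le (by rw [one_mul]; exact hnM)
    have h2 := mul_le_mul_of_nonneg_left (𝒜.ΔZ_le j) hM'.le
    rw [hDj]
    linarith
  -- the multiple
  have hmfin := 𝒱.finite_mult
  set e₀ : ℕ := ∏ j ∈ hmfin.toFinset, mult j with he₀
  have he₀pos : 0 < e₀ := Finset.prod_pos fun j _ => mult_pos j
  have hdvd₀ : ∀ j : 𝒱.JJ, mult j ∣ e₀ := by
    intro j
    by_cases hj : mult j = 1
    · rw [hj]; exact one_dvd _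
    · exact Finset.dvd_prod_of_mem _ (by rw [Set.Finite.mem_toFinset]; exact hj)
  obtain ⟨T, hT⟩ := exists_nat_ge (max 1 (F.natDegree / d))
  have hT1 : (1 : ℚ) ≤ T := (le_max_left _ _).trans hT
  have hT2 : (F.natDegree : ℚ) / d ≤ T := (le_max_right _ _).trans hT
  have hTpos : 0 < T := by
    have : 1 ≤ T := by exact_mod_cast hT1
    omega
  set N₂ : ℕ := N₃ * (e₀ * T) with hN₂
  have hN₂pos : 0 < N₂ := Nat.mul_pos hN₃ (Nat.mul_pos he₀pos hTpos)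
  have hN₂' : (1 : ℚ) ≤ N₂ := by exact_mod_cast hN₂pos
  have hTN₂ : (T : ℚ) ≤ N₂ := by
    have : T ≤ N₂ := by
      rw [hN₂]
      calc T ≤ e₀ * T := Nat.le_mul_of_pos_left _ he₀pos
        _ ≤ N₃ * (e₀ * T) := Nat.le_mul_of_pos_left _ hN₃
    exact_mod_cast this
  have hdvd : ∀ j : 𝒱.JJ, mult j ∣ N₂ := fun j =>
    ((hdvd₀ j).mul_right T).mul_left N₃
  -- the divisor on the base
  have key : ∀ Q : 𝒱.QQ, ∃ x : ℤ,
      (∀ j : 𝒱.JJ, base j = Q → (mult j : ℚ) * x ≤ N₂ * R.D ⟨j.1, j.2.1⟩) ∧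
      (((∃ j : 𝒱.JJ, base j = Q ∧ (mult j : ℚ) * x = N₂ * R.D ⟨j.1, j.2.1⟩)) ∨
        ((∀ j : 𝒱.JJ, base j ≠ Q) ∧ ∃ dv, 𝒱.X.IsValue (gaussVal 𝒱.h.isTorus Q.1)
          ((N₂ : ℚ) • R.D) dv ∧ dv ≤ x)) ∧
      (N₂ * M) * (𝒜.KZ Q + 𝒜.ΔZ Q) ≤ (x : ℚ) := by
    intro Q
    by_cases hQ : ∃ j : 𝒱.JJ, base j = Q
    · have hne : (𝒱.fib Q).toFinset.Nonempty := by
        obtain ⟨j, hj⟩ := hQ
        exact ⟨j, by simpa using hj⟩
      obtain ⟨j, hj, hjmin⟩ := Finset.exists_min_image (𝒱.fib Q).toFinset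
        (fun j => R.D ⟨j.1, j.2.1⟩ / mult j) hne
      have hjQ : base j = Q := by simpa using hj
      obtain ⟨c, hc⟩ := hdvd j
      obtain ⟨z, hz⟩ := hRint ⟨j.1, j.2.1⟩
      have hej : (0 : ℚ) < mult j := by exact_mod_cast mult_pos j
      have hcQ : (N₂ : ℚ) = mult j * c := by exact_mod_cast hc
      have hx : (mult j : ℚ) * ((c * z : ℤ) : ℚ) = N₂ * R.D ⟨j.1, j.2.1⟩ := by
        rw [hz, hcQ]
        push_cast
        ring
      refine ⟨c * z, fun j' hj' => ?_, Or.inl ⟨j, hjQ, hx⟩, ?_⟩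
      · have h1 := hjmin j' (by simpa using hj')
        have hej' : (0 : ℚ) < mult j' := by exact_mod_cast mult_pos j'
        have h2 : ((c * z : ℤ) : ℚ) = N₂ * (R.D ⟨j.1, j.2.1⟩ / mult j) := by
          field_simp
          linarith
        rw [h2]
        have h3 := mul_le_mul_of_nonneg_left (mul_le_mul_of_nonneg_left h1
          (by positivity : (0 : ℚ) ≤ N₂)) hej'.le
        refine h3.trans (le_of_eq ?_)
        field_simp
      · have h1 := hDlow j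
        rw [hjQ] at h1
        have h2 := mul_le_mul_of_nonneg_left h1 (by positivity : (0 : ℚ) ≤ N₂)
        rw [← hx] at h2
        have h3 : (mult j : ℚ) * ((N₂ * M) * (𝒜.KZ Q + 𝒜.ΔZ Q)) ≤
            mult j * ((c * z : ℤ) : ℚ) := by
          refine le_trans (le_of_eq ?_) h2
          ring
        exact le_of_mul_le_mul_left h3 hej
    · push Not at hQ
      obtain ⟨c, hc⟩ := 𝒜.qc.exists_value (gaussVal 𝒱.h.isTorus Q.1)
      have hdv := (hval _ _ hc).smul (N₂ : ℚ)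
      refine ⟨max ⌈(N₂ : ℚ) * (M * c - (M * gaussVal 𝒱.h.isTorus Q.1 𝒜.g +
        gaussVal 𝒱.h.isTorus Q.1 (aeval t F)))⌉ ⌈(N₂ * M) * (𝒜.KZ Q + 𝒜.ΔZ Q)⌉,
        fun j hj => absurd hj (hQ j), Or.inr ⟨hQ, _, hdv, ?_⟩, ?_⟩
      · exact (Int.le_ceil _).trans (by exact_mod_cast le_max_left _ _)
      · exact (Int.le_ceil _).trans (by exact_mod_cast le_max_right _ _)
  choose x hxlow hxatt hxKZ using key
  have hxfin : {Q | x Q ≠ 0}.Finite := by
    have h1 : {j : 𝒱.JJ | R.D ⟨j.1, j.2.1⟩ ≠ 0}.Finite := by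
      apply Set.Finite.of_finite_image (f := fun j : 𝒱.JJ => (⟨j.1, j.2.1⟩ : 𝒱.X.primeDivisors))
      · apply R.D.hasFiniteSupport.subset
        rintro _ ⟨j, hj, rfl⟩
        exact hj
      · intro j _ j' _ h
        exact Subtype.ext (congrArg (fun x : 𝒱.X.primeDivisors => x.1) h)
    apply (𝒱.finite_not_base.union (h1.image base)).subset
    intro Q hQ
    by_contra hcon
    simp only [Set.mem_union, Set.mem_ofPred_eq, Set.mem_image, not_or, not_forall,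
      not_exists, not_and, not_not] at hcon
    obtain ⟨⟨j, hj⟩, h2⟩ := hcon
    rcases hxatt Q with ⟨j', hj', hj'2⟩ | ⟨hno, -⟩
    · apply hQ
      have h3 : R.D ⟨j'.1, j'.2.1⟩ = 0 := by
        by_contra hne
        exact h2 j' hne hj'
      rw [h3, mul_zero] at hj'2
      have hej' : (mult j' : ℚ) ≠ 0 := by exact_mod_cast (mult_pos j').ne'
      have h4 := (mul_eq_zero.1 hj'2).resolve_left hej'
      exact_mod_cast h4
    · exact hno j hj
  let DZ : 𝒱.Z.Div := Finsupp.onFinset hxfin.toFinset (fun Q => (x Q : ℚ)) (by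
    intro Q hQ
    rw [Set.Finite.mem_toFinset, Set.mem_ofPred_eq]
    intro h0
    rw [h0] at hQ
    simp at hQ)
  have hDZ : ∀ Q, DZ Q = (x Q : ℚ) := fun Q => rfl
  have hDZint : 𝒱.Z.IsInt DZ := fun Q => ⟨x Q, hDZ Q⟩
  let B : 𝒱.Z.Div := DZ - ((N₂ * M : ℕ) : ℚ) • (𝒜.KZ + 𝒜.ΔZ)
  have hBQ : ∀ Q, B Q = DZ Q - ((N₂ * M : ℕ) : ℚ) * (𝒜.KZ Q + 𝒜.ΔZ Q) := fun Q => by
    change (DZ - ((N₂ * M : ℕ) : ℚ) • (𝒜.KZ + 𝒜.ΔZ)) Q = _
    rw [Finsupp.sub_apply, Finsupp.smul_apply, Finsupp.add_apply, smul_eq_mul]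
  have hB : ∀ Q, 0 ≤ B Q := by
    intro Q
    rw [hBQ, hDZ]
    have := hxKZ Q
    push_cast
    linarith
  have hdvdN : N₃ ∣ N₂ * M := (Dvd.intro _ rfl : N₃ ∣ N₂).mul_right M
  have heps : ∀ ε : ℚ, 0 < ε → Comparison 𝒱.Z 𝒱.Z (𝒜.KZ + 𝒜.ΔZ + ε • B) DZ 0 := by
    intro ε hε
    refine kod_nu_eps (N := N₂ * M) (Nat.mul_pos hN₂pos hM) hN₃ ?_ hB hDZint hη ?_ hdvdN hε
    · intro Q
      rw [hBQ, Finsupp.add_apply]
      ring
    · intro Q
      rw [Finsupp.add_apply]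
      exact hη2 Q
  obtain ⟨c₁, hc₁⟩ := hdvdN
  have hc₁Q : ((N₂ * M : ℕ) : ℚ) = N₃ * c₁ := by exact_mod_cast hc₁
  have heff : ∀ Q : 𝒱.Z.primeDivisors, 0 ≤ (Q.1 (η ^ c₁) : ℚ) + DZ Q := by
    intro Q
    rw [DVal.map_pow]
    have h1 := hB Q
    rw [hBQ, hc₁Q] at h1
    have h2 := mul_nonneg (by positivity : (0 : ℚ) ≤ c₁) (hη2 Q)
    push_cast
    linarith
  let R₂ := R.scale N₂ hN₂pos
  have hR₂D : R₂.D = (N₂ : ℚ) • R.D := rfl
  have hd₂ : 𝒱.X.IsValue (infVal k 𝒱.h) R₂.D (N₂ * d) := hd.smul (N₂ : ℚ)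
  have hlow₂ : ∀ j : 𝒱.JJ, mult j * DZ (base j) ≤ R₂.D ⟨j.1, j.2.1⟩ := by
    intro j
    rw [hR₂D, Finsupp.smul_apply, smul_eq_mul, hDZ]
    exact hxlow _ j rfl
  have hatt₂ : ∀ Q : 𝒱.QQ, (∃ j : 𝒱.JJ, base j = Q ∧ mult j * DZ Q = R₂.D ⟨j.1, j.2.1⟩) ∨
      ((∀ j : 𝒱.JJ, base j ≠ Q) ∧ ∃ dv, 𝒱.X.IsValue (gaussVal 𝒱.h.isTorus Q.1) R₂.D dv ∧
        dv ≤ DZ Q) := by
    intro Q
    exact hxatt Q
  rcases hd0.eq_or_lt with hd1 | hd1
  · -- degree zero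
    rw [← hd1, mul_zero] at hd₂
    have hcomp := comparison_zero R₂ hd₂ hDZint hlow₂ hatt₂ (pow_ne_zero c₁ hη) heff
    refine ⟨0, B, by omega, hB, fun ε hε => ?_⟩
    have h1 := heps ε hε
    rw [hcomp.kod_eq, hcomp.nu_eq, h1.kod_eq, h1.nu_eq]
    simp
  · -- positive degree
    have hndeg : (F.natDegree : ℚ) ≤ N₂ * d := by
      rw [div_le_iff₀ hd1] at hT2
      refine hT2.trans ?_
      exact mul_le_mul_of_nonneg_right hTN₂ hd1.le
    have hFn : 0 < F.natDegree := by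
      have : (0 : ℚ) < F.natDegree := by linarith
      exact_mod_cast this
    have hη' : η ^ c₁ ≠ 0 := pow_ne_zero _ hη
    have hpn : 0 < (F * C (η ^ c₁)).natDegree := by
      rw [natDegree_mul_C hη']
      exact hFn
    have hp0 : F * C (η ^ c₁) ≠ 0 := by
      intro h0
      rw [h0] at hpn
      simp at hpn
    have hηL : algebraMap K L (η ^ c₁) ≠ 0 := by simpa using hη'
    have hpD : aeval t (F * C (η ^ c₁)) ∈ 𝒱.X.H0 R₂.D := by
      rw [mem_H0 (𝒱.h.aeval_ne hp0)]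
      intro P
      rw [map_mul, aeval_C, P.1.map_mul hF0 hηL, hR₂D, Finsupp.smul_apply, smul_eq_mul]
      rcases 𝒱.trichotomy P.1 with ⟨q, hq, hPq⟩ | hinf | ⟨a, ha⟩
      · rw [R.noPoly P ⟨q, hq, hPq⟩, hPq, pVal_algebraMap, add_zero, mul_zero, add_zero]
        exact_mod_cast pVal_nonneg k 𝒱.h hq F
      · have hi : infVal k 𝒱.h ∈ 𝒱.X.primeDivisors := by rw [← hinf]; exact P.2
        have h4 : P = ⟨infVal k 𝒱.h, hi⟩ := Subtype.ext hinf
        rw [h4, ← IsValue.eq_coeff hi hd]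
        change 0 ≤ (((infVal k 𝒱.h (aeval t F) + infVal k 𝒱.h (algebraMap K L (η ^ c₁)) : ℤ)) : ℚ)
          + _
        rw [infVal_algebraMap, infVal_aeval 𝒱.h hF.ne_zero]
        push_cast
        linarith
      · let j : 𝒱.JJ := ⟨P.1, P.2, a, ha⟩
        have h1 : R.D P = M * (𝒜.o j + 𝒜.Δ P) - j.1 (aeval t F) := hDj j
        have h2 : P.1 (algebraMap K L (η ^ c₁)) = mult j * (base j).1 (η ^ c₁) := mult_spec j _
        rw [h1, h2, DVal.map_pow]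
        have h3 := 𝒜.le_mul j hF (x := N₂ - 1) (y := N₂ * M) (by linarith)
          (by positivity) (by
            have h4 : (N₂ : ℚ) * d ≤ N₂ * (F.natDegree - M) :=
              mul_le_mul_of_nonneg_left hdn (by positivity)
            nlinarith)
        have h5 := mul_le_mul_of_nonneg_left (𝒜.ΔZ_le j)
          (by positivity : (0 : ℚ) ≤ N₂ * M)
        have h6 := mul_nonneg (by positivity : (0 : ℚ) ≤ mult j * c₁) (hη2 (base j))
        have h7 : ((N₂ : ℚ) * M) = N₃ * c₁ := by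
          rw [← hc₁Q]
          push_cast
          rfl
        have h8 : (mult j : ℚ) * c₁ * (((base j).1 η : ℚ) +
            N₃ * (𝒜.KZ (base j) + 𝒜.ΔZ (base j))) = mult j * (c₁ * ((base j).1 η : ℚ)) +
            mult j * (N₂ * M) * (𝒜.KZ (base j) + 𝒜.ΔZ (base j)) := by
          rw [h7]
          ring
        rw [h8] at h6
        change (N₂ : ℚ) * M * (mult j * 𝒜.ΔZ (base j)) ≤ N₂ * M * (𝒜.Δ P + (mult j - 1)) at h5
        change ((N₂ : ℚ) - 1) * (P.1 (aeval t F) : ℚ) ≤ _ at h3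
        change 0 ≤ (((P.1 (aeval t F) + mult j * (c₁ * (base j).1 η) : ℤ)) : ℚ) +
          N₂ * (M * (𝒜.o j + 𝒜.Δ P) - (P.1 (aeval t F) : ℚ))
        push_cast
        linarith
    have hcomp := comparison_one R₂ hd₂ (by positivity) hDZint hlow₂ hatt₂ hη' heff hpn hpD
    refine ⟨1, B, le_rfl, hB, fun ε hε => ?_⟩
    have h1 := heps ε hε
    rw [hcomp.kod_eq, hcomp.nu_eq, h1.kod_eq, h1.nu_eq]
    simp

end GV

end Pool.Agent.Helper92.Ga
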