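import Pool.Agent.Helper92.Weak.Final
import Pool.Agent.Helper92.Ga.Main2
import Pool.Agent.Helper92.Ga.Forms

set_option autoImplicit false
set_option linter.unusedSectionVars false

/-! The comparison theorem for log canonical pairs with an action of the additive group. -/

namespace Pool.Agent.Helper92.Ga

open scoped KaehlerDifferential
open Module Pool.Agent.Helper92.Weak Polynomial

section

variable {k K L : Type*} [Field k] [Field K] [Field L] [Algebra k K] [Algebra k L] [Algebra K L]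
  [IsScalarTower k K L] {t : L} [CharZero k]

/-- The adjoint divisor of a log canonical pair. -/
theorem exists_adj (𝒱 : GV k K t) {d : ℕ} {y : Fin d → K} (hy : IsTranscendenceBasis k y)
    (ωZ : ⋀[K]^d Ω[K⁄k]) (KZ : 𝒱.Z.Div) (hKZ : 𝒱.Z.IsDivOf ωZ KZ)
    (ωX : ⋀[L]^(d + 1) Ω[L⁄k]) (KX : 𝒱.X.Div) (hKX : 𝒱.X.IsDivOf ωX KX)
    (Δ : 𝒱.X.Div) (hΔ : ∀ P, 0 ≤ Δ P) (hlc : 𝒱.X.IsLC ωX KX Δ)
    (ΔZ : 𝒱.Z.Div)
    (hle : ∀ j : 𝒱.JJ, GV.mult j * ΔZ (GV.base j) ≤ Δ ⟨j.1, j.2.1⟩ + (GV.mult j - 1)) :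
    ∃ 𝒜 : 𝒱.Adj, 𝒜.KX = KX ∧ 𝒜.Δ = Δ ∧ 𝒜.KZ = KZ ∧ 𝒜.ΔZ = ΔZ := by
  classical
  -- the form on the base
  obtain ⟨b, hb⟩ := Pool.Agent.Helper50.Forms.exists_kaehler_basis hy
  obtain ⟨f₀, hf₀⟩ := Pool.Agent.Helper50.Forms.exists_smul_dform y b hb ωZ
  have hy0 : dform k y ≠ 0 := Pool.Agent.Helper50.Forms.dform_ne_zero y b hb
  obtain ⟨f, hf, hfω⟩ : ∃ f : K, f ≠ 0 ∧ ∀ (v₀ : DVal k K) (a : ℤ), v₀.IsOrd ωZ a →
      v₀.IsOrd (f • dform k y) a := by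
    by_cases h : f₀ = 0
    · refine ⟨1, one_ne_zero, fun v₀ a ha => ?_⟩
      rw [hf₀, h, zero_smul] at ha
      exact absurd ha (not_isOrd_zero v₀ a)
    · exact ⟨f₀, h, fun v₀ a ha => by rwa [hf₀] at ha⟩
  -- the form on `L`
  obtain ⟨g₀, hg₀⟩ := exists_smul_omega0 hy 𝒱.h.isTorus hf y hy0 ωX
  have ht0 := 𝒱.h.ne_zero
  have hg₁ : ωX = (g₀ * t⁻¹) • omega1 (k := k) t f y := by
    rw [hg₀, omega0_eq 𝒱.h, smul_smul, mul_assoc, inv_mul_cancel₀ ht0, mul_one]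
  -- if there is no valuation on `L` everything is trivial
  obtain ⟨g, hg, hgω⟩ : ∃ g : L, g ≠ 0 ∧ ((∃ v : DVal k L, True) →
      ωX = g • omega1 (k := k) t f y) := by
    by_cases h : g₀ = 0
    · refine ⟨1, one_ne_zero, fun ⟨v, _⟩ => ?_⟩
      exfalso
      obtain ⟨P, hP⟩ := 𝒱.X.exists_prime v
      obtain ⟨a, -, ha⟩ := hKX ⟨P, hP⟩
      rw [hg₀, h, zero_smul] at ha
      exact not_isOrd_zero _ _ ha
    · exact ⟨g₀ * t⁻¹, mul_ne_zero h (inv_ne_zero ht0), fun _ => hg₁⟩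
  have hord : ∀ (v : DVal k L) (a : ℤ), v.IsOrd (omega1 (k := k) t f y) a →
      v.IsOrd ωX (v g + a) := by
    intro v a ha
    rw [hgω ⟨v, trivial⟩]
    exact (isOrd_smul v hg).2 ha
  have hord' : ∀ (v : DVal k L) (a : ℤ), v.IsOrd ωX a →
      v.IsOrd (omega1 (k := k) t f y) (a - v g) := by
    intro v a ha
    rw [hgω ⟨v, trivial⟩] at ha
    apply (isOrd_smul v hg).1
    rwa [add_sub_cancel]
  have hKX' : ∀ (P : 𝒱.X.primeDivisors) (a : ℤ), P.1.IsOrd (omega1 (k := k) t f y) a →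
      KX P = P.1 g + a := by
    intro P a ha
    obtain ⟨a', h1, h2⟩ := hKX P
    rw [h1, isOrd_unique h2 (hord P.1 a ha)]
    push_cast
    rfl
  refine ⟨{ KX := KX, KZ := KZ, Δ := Δ, Δ_nonneg := hΔ, ΔZ := ΔZ,
            ΔZ_le := hle, KX_int := ?_, g := g, g_ne := hg, pol := ?_,
            o := fun j => KX ⟨j.1, j.2.1⟩ - j.1 g,
            vert := fun j => by ring, log := ?_, qc := hlc.1, lc_inf := ?_ }, rfl, rfl, rfl, rfl⟩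
  · intro P
    obtain ⟨a, h1, -⟩ := hKX P
    exact ⟨a, h1⟩
  · rintro P ⟨p, hp, hPp⟩
    have h1 : P.1.IsOrd (omega1 (k := k) t f y) 0 := by
      rw [hPp]
      exact isOrd_pVal hy 𝒱.h hp hf y hy0
    rw [hKX' P 0 h1]
    simp
  · intro j p hp
    obtain ⟨a, h1, h2⟩ := hKX ⟨j.1, j.2.1⟩
    obtain ⟨κ, h3, h4⟩ := hKZ (GV.base j)
    have h5 := log_ineq hy 𝒱.h hf y hy0 (GV.mult_spec j) (hord' _ _ h2) (hfω _ _ h4) hp
    rw [h1, h3]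
    have h6 : ((j.1 (aeval t p) : ℤ) : ℚ) ≤ ((j.1 (aeval t (derivative p)) +
      (a - j.1 g + 1 - GV.mult j * (κ + 1)) : ℤ) : ℚ) := by exact_mod_cast h5
    push_cast at h6
    exact h6
  · intro c hc
    have h1 := hlc.2 _ (monoVal_isDivisorial 𝒱.h.isTorus 𝒱.fgK _ (fun _ => -1)
      ⟨1, fun _ => -1, one_ne_zero, by
        unfold ipair
        simp [ZVal.trivial]⟩ (Or.inl rfl)) _ c
      (hord _ _ (isOrd_inf hy 𝒱.h hf y hy0)) hc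
    change c ≤ 1 + ((infVal k 𝒱.h g + -2 : ℤ) : ℚ) at h1
    push_cast at h1
    linarith

lemma stable_of {X : ProjVar k L} (h : IsLine K t)
    (hst : ∀ (σ : L ≃ₐ[K] L) (c : k), σ t = t + algebraMap k L c →
      ∀ R ∈ X.localRings, ∃ R' ∈ X.localRings, ∀ z, z ∈ R' ↔ σ z ∈ R) :
    ∀ (c : k), ∀ P ∈ X.primeDivisors, P.comap (shift h c) ∈ X.primeDivisors := by
  intro c P hP
  obtain ⟨R', hR', h1⟩ := hst (shiftEquiv h (algebraMap k K c)) c (by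
    rw [shiftEquiv_t, ← IsScalarTower.algebraMap_apply]) P.ring hP
  have h2 : R' = (P.comap (shift h c)).ring := by
    ext z
    rw [h1, DVal.mem_ring, DVal.mem_ring, DVal.comap_apply, shift_apply]
  change (P.comap (shift h c)).ring ∈ X.localRings
  rwa [← h2]

/-- The comparison theorem. -/
theorem additive_quotient {d : ℕ} (hd : Algebra.trdeg k K = d)
    (h : IsLine K t) (Z : ProjVar k K) (X : ProjVar k L)
    (hstable : ∀ (σ : L ≃ₐ[K] L) (c : k), σ t = t + algebraMap k L c →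
      ∀ R ∈ X.localRings, ∃ R' ∈ X.localRings, ∀ z, z ∈ R' ↔ σ z ∈ R)
    (hequi : ∀ P ∈ X.primeDivisors, (∃ a : K, P (algebraMap K L a) ≠ 0) →
      ∃ Q ∈ Z.primeDivisors, ∃ e, LiesOver P Q e)
    (ωZ : ⋀[K]^d Ω[K⁄k]) (KZ : Z.Div) (hKZ : Z.IsDivOf ωZ KZ)
    (ωX : ⋀[L]^(d + 1) Ω[L⁄k]) (KX : X.Div) (hKX : X.IsDivOf ωX KX)
    (Δ : X.Div) (hΔ : ∀ P, 0 ≤ Δ P) (hlc : X.IsLC ωX KX Δ)
    (ΔZ : Z.Div)
    (hbase : ∀ (P : X.primeDivisors) (Q : Z.primeDivisors) (e : ℕ), LiesOver P.1 Q.1 e →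
      e * ΔZ Q ≤ Δ P + (e - 1))
    (hκ : Z.kod (KZ + ΔZ) ≠ ⊥) :
    (X.kod (KX + Δ) = ⊥ ∧ X.nu (KX + Δ) = ⊥) ∨
    ∃ (s : ℕ) (B : Z.Div), s ≤ 1 ∧ (∀ Q, 0 ≤ B Q) ∧ ∀ ε : ℚ, 0 < ε →
      X.kod (KX + Δ) = s + Z.kod (KZ + ΔZ + ε • B) ∧
      X.nu (KX + Δ) = s + Z.nu (KZ + ΔZ + ε • B) := by
  obtain ⟨y, hy⟩ := exists_basis_of_trdeg hd
  let 𝒱 : GV k K t :=
    { h := h
      Z := Z
      X := X
      stable := stable_of h hstable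
      equi := fun P hP h => by
        obtain ⟨Q, hQ, e, -, he⟩ := hequi P hP h
        exact ⟨Q, hQ, e, he⟩ }
  obtain ⟨𝒜, h1, h2, h3, h4⟩ := exists_adj 𝒱 hy ωZ KZ hKZ ωX KX hKX Δ hΔ hlc ΔZ
    (fun j => hbase ⟨j.1, j.2.1⟩ (GV.base j) (GV.mult j) ⟨GV.mult_pos j, GV.mult_spec j⟩)
  -- a pluricanonical form
  obtain ⟨m, hm, η, hη, hη2⟩ : ∃ m : ℕ, 0 < m ∧ ∃ η : K, η ≠ 0 ∧
      ∀ Q : 𝒱.QQ, 0 ≤ (Q.1 η : ℚ) + m * (𝒜.KZ Q + 𝒜.ΔZ Q) := by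
    have hne : ¬ ∀ m : ℕ, 1 ≤ m → Z.h0 ((m : ℚ) • (KZ + ΔZ)) = 0 := by
      intro h
      apply hκ
      unfold ProjVar.kod kodDim
      rw [if_pos h]
    push Not at hne
    obtain ⟨m, hm, hm2⟩ := hne
    have h5 : sdim (Z.H0 ((m : ℚ) • (KZ + ΔZ))) ≠ 0 := by
      intro h0
      have := Z.h0_le ((m : ℚ) • (KZ + ΔZ))
      rw [h0] at this
      exact hm2 (le_antisymm this zero_le)
    rw [sdim_ne_zero] at h5
    obtain ⟨η, hη, hη0⟩ := h5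
    refine ⟨m, hm, η, hη0, fun Q => ?_⟩
    unfold ProjVar.H0 at hη
    rw [mem_sec_of_ne hη0] at hη
    have h6 := hη Q
    rw [Finsupp.smul_apply, Finsupp.add_apply, smul_eq_mul] at h6
    rw [h3, h4]
    exact h6
  have key := GV.adj_main 𝒜 hm hη hη2
  rw [h1, h2, h3, h4] at key
  exact key

end

end Pool.Agent.Helper92.Ga
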