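import Pool.Agent.Helper92.Ga.Lct1
import Pool.Agent.Helper92.Weak.Final

set_option autoImplicit false
set_option linter.unusedSectionVars false

/-! Values of effective divisors on smooth varieties. -/

namespace Pool.Agent.Helper92.Ga

open scoped KaehlerDifferential
open Module Pool.Agent.Helper92.Weak Pool.Agent.Helper50.Forms

variable {k K : Type*} [Field k] [Field K] [Algebra k K] [CharZero k] {d : ℕ}

/-- Local coordinates exist at all points. -/
def SmoothI (Z : ProjVar k K) (d : ℕ) : Prop :=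
  ∀ S ∈ Z.localRings, ∃ x : Fin d → K, (∀ i, x i ∈ S) ∧
    ∀ Q ∈ Z.primeDivisors, S ≤ Q.ring → Q.IsOrd (dform k x) 0

/-- A function vanishing along a given effective divisor. -/
lemma exists_dominating (Z : ProjVar k K) (i : Fin (Z.n + 1)) (B : Z.Div) :
    ∃ h ∈ chart k Z.x i, h ≠ 0 ∧ ∀ Q : Z.primeDivisors, chart k Z.x i ≤ Q.1.ring →
      B Q ≤ Q.1 h := by
  classical
  set A := chart k Z.x i with hA
  have key : ∀ Q : Z.primeDivisors, ∃ a ∈ A, a ≠ 0 ∧ (A ≤ Q.1.ring → 0 < Q.1 a) := by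
    intro Q
    obtain ⟨p, hp0, hp⟩ := Q.1.exists_uniformizer
    obtain ⟨a, ha, b, hb, hb0, rfl⟩ := Z.chart_isFrac i p
    have ha0 : a ≠ 0 := by
      rintro rfl
      simp at hp0
    refine ⟨a, ha, ha0, fun hQ => ?_⟩
    rw [DVal.map_div _ ha0 hb0] at hp
    have : 0 ≤ Q.1 b := hQ hb
    omega
  choose a ha ha0 hapos using key
  refine ⟨∏ Q ∈ B.support, a Q ^ ⌈B Q⌉₊, ?_, ?_, ?_⟩
  · exact Subalgebra.prod_mem _ fun Q _ => Subalgebra.pow_mem _ (ha Q) _
  · exact Finset.prod_ne_zero_iff.2 fun Q _ => pow_ne_zero _ (ha0 Q)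
  · intro Q hQ
    rw [DVal.map_prod _ _ _ fun Q _ => pow_ne_zero _ (ha0 Q)]
    have hnn : ∀ Q' ∈ B.support, 0 ≤ Q.1 (a Q' ^ ⌈B Q'⌉₊) := by
      intro Q' _
      exact hQ (Subalgebra.pow_mem _ (ha Q') _)
    by_cases hB : B Q = 0
    · rw [hB]
      exact_mod_cast Finset.sum_nonneg hnn
    · have h1 : Q.1 (a Q ^ ⌈B Q⌉₊) ≤ ∑ Q' ∈ B.support, Q.1 (a Q' ^ ⌈B Q'⌉₊) :=
        Finset.single_le_sum hnn (Finsupp.mem_support_iff.2 hB)
      have h2 : ((⌈B Q⌉₊ : ℕ) : ℤ) ≤ Q.1 (a Q ^ ⌈B Q⌉₊) := by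
        rw [DVal.map_pow]
        have h3 := hapos Q hQ
        exact le_mul_of_one_le_right (by positivity) (by omega)
      have h4 : B Q ≤ ((⌈B Q⌉₊ : ℤ) : ℚ) := by
        have := Nat.le_ceil (B Q)
        exact_mod_cast this
      refine h4.trans ?_
      exact_mod_cast h2.trans h1

lemma IsValue.le_of_dominating {Z : ProjVar k K} {B : Z.Div} {v : DVal k K} {c : ℚ}
    (hc : Z.IsValue v B c) {A : Subalgebra k K} (hAv : A ≤ v.ring)
    (hloc : locAt A (posIdeal v A hAv) ∈ Z.localRings) {h : K}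
    (h0 : h ≠ 0) (hle : ∀ Q : Z.primeDivisors, A ≤ Q.1.ring → B Q ≤ Q.1 h) : c ≤ v h := by
  obtain ⟨R, hR, hRv, m, f, hm, ⟨hf0, hf⟩, rfl⟩ := hc
  have hRR : R = locAt A (posIdeal v A hAv) := Z.separated hR hloc hRv (dominates_posIdeal hAv)
  have hm' : (0 : ℚ) < m := by exact_mod_cast hm
  have h1 : 0 ≤ v (h ^ m * f⁻¹) := by
    apply ProjVar.val_nonneg hR hRv
    intro P hP hRP
    rw [P.map_mul (pow_ne_zero _ h0) (inv_ne_zero hf0), P.map_pow, P.map_inv]
    have h2 := hf ⟨P, hP⟩ hRP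
    have h3 := hle ⟨P, hP⟩ (((le_locAt (posIdeal v A hAv)).trans hRR.ge).trans hRP)
    rw [Finsupp.smul_apply, smul_eq_mul] at h2
    have h4 := mul_le_mul_of_nonneg_left h3 hm'.le
    rw [← h2] at h4
    have h5 : ((P f : ℤ) : ℚ) ≤ ((m * P h : ℤ) : ℚ) := by
      push_cast
      exact h4
    have h6 : P f ≤ m * P h := by exact_mod_cast h5
    linarith
  rw [v.map_mul (pow_ne_zero _ h0) (inv_ne_zero hf0), v.map_pow, v.map_inv] at h1
  rw [div_le_iff₀ hm']
  have h2 : v f ≤ v h * m := by linarith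
  exact_mod_cast h2

/-- The bound on one chart. -/
theorem exists_chart_bound {y : Fin d → K} (hy : IsTranscendenceBasis k y) (Z : ProjVar k K)
    (hsm : SmoothI Z d) (ωZ : ⋀[K]^d Ω[K⁄k]) (KZ : Z.Div) (hKZ : Z.IsDivOf ωZ KZ)
    (i : Fin (Z.n + 1)) {h : K} (hh : h ∈ chart k Z.x i) (h0 : h ≠ 0) :
    ∃ C : ℕ, ∀ v : DVal k K, chart k Z.x i ≤ v.ring → ∀ (a : ℤ) (κ : ℚ), v.IsOrd ωZ a →
      Z.IsValue v KZ κ → 0 ≤ a - κ ∧ v h ≤ C * (1 + a - κ) := by
  classical
  set A := chart k Z.x i with hA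
  let I : Set A := {b | ∃ C : ℕ, ∀ v : DVal k K, A ≤ v.ring → (b : K) ≠ 0 → v (b : K) = 0 →
    ∀ (a : ℤ) (κ : ℚ), v.IsOrd ωZ a → Z.IsValue v KZ κ →
      0 ≤ a - κ ∧ v h ≤ C * (1 + a - κ)}
  by_cases hI : Ideal.span I = ⊤
  · -- compactness
    have h1 : (1 : A) ∈ Submodule.span A I := by
      change (1 : A) ∈ Ideal.span I
      rw [hI]
      trivial
    obtain ⟨T, hT, hT2⟩ := Submodule.mem_span_finite_of_mem_span h1
    have key : ∀ b : A, ∃ C : ℕ, b ∈ T → ∀ v : DVal k K, A ≤ v.ring → (b : K) ≠ 0 →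
        v (b : K) = 0 → ∀ (a : ℤ) (κ : ℚ), v.IsOrd ωZ a → Z.IsValue v KZ κ →
      0 ≤ a - κ ∧ v h ≤ C * (1 + a - κ) := by
      intro b
      by_cases hb : b ∈ T
      · obtain ⟨C, hC⟩ := hT hb
        exact ⟨C, fun _ => hC⟩
      · exact ⟨0, fun h => absurd h hb⟩
    choose C hC using key
    refine ⟨∑ b ∈ T, C b, fun v hAv a κ ha hκ => ?_⟩
    obtain ⟨b, hbT, hb⟩ : ∃ b ∈ T, b ∉ posIdeal v A hAv := by
      by_contra hcon
      push Not at hcon
      have h2 : Submodule.span A (T : Set A) ≤ posIdeal v A hAv := by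
        rw [Submodule.span_le]
        exact hcon
      have h3 := h2 hT2
      rw [mem_posIdeal] at h3
      rcases h3 with h3 | h3
      · exact one_ne_zero h3
      · push_cast at h3
        rw [v.map_one] at h3
        norm_num at h3
    rw [notMem_posIdeal] at hb
    obtain ⟨h4, h5⟩ := hC b hbT v hAv hb.1 hb.2 a κ ha hκ
    refine ⟨h4, h5.trans ?_⟩
    apply mul_le_mul_of_nonneg_right _ (by linarith)
    have h6 : C b ≤ ∑ b ∈ T, C b := Finset.single_le_sum (fun _ _ => Nat.zero_le _) hbT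
    exact_mod_cast h6
  · exfalso
    obtain ⟨m, hm, hIm⟩ := Ideal.exists_le_maximal _ hI
    have hmp : m.IsPrime := hm.isPrime
    have hIm' : ∀ b : A, b ∈ I → b ∈ m := fun b hb => hIm (Ideal.subset_span hb)
    by_cases hm0 : m = ⊥
    · -- the chart is a field
      have h1 : (1 : A) ∈ I := by
        refine ⟨0, fun v hAv => ?_⟩
        exfalso
        have hfield : ∀ a : A, a ≠ 0 → v (a : K) = 0 := by
          intro a ha
          have ham : a ∉ m := by
            rw [hm0]
            exact ha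
          obtain ⟨c, hc⟩ : ∃ c : A, a * c = 1 := by
            have hunit : IsUnit a := by
              by_contra hnu
              obtain ⟨m', hm', ham'⟩ := exists_max_ideal_of_mem_nonunits hnu
              have h2 : m = m' := hm.eq_of_le hm'.ne_top (by rw [hm0]; exact bot_le)
              rw [h2] at ham
              exact ham ham'
            obtain ⟨u, hu⟩ := hunit
            exact ⟨↑u⁻¹, by rw [← hu]; exact u.mul_inv⟩
          have h2 : (a : K) * (c : K) = 1 := by
            have := congrArg (fun x : A => (x : K)) hc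
            simpa using this
          have ha0 : (a : K) ≠ 0 := left_ne_zero_of_mul_eq_one h2
          have hc0 : (c : K) ≠ 0 := right_ne_zero_of_mul_eq_one h2
          have h3 := v.map_mul ha0 hc0
          rw [h2, v.map_one] at h3
          have h4 : 0 ≤ v (a : K) := hAv a.2
          have h5 : 0 ≤ v (c : K) := hAv c.2
          omega
        obtain ⟨p, hp0, hp⟩ := v.exists_uniformizer
        obtain ⟨a, ha, b, hb, hb0, rfl⟩ := Z.chart_isFrac i p
        have ha0 : a ≠ 0 := by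
          rintro rfl
          simp at hp0
        rw [v.map_div ha0 hb0, hfield ⟨a, ha⟩ (fun h => ha0 (congrArg Subtype.val h)),
          hfield ⟨b, hb⟩ (fun h => hb0 (congrArg Subtype.val h))] at hp
        norm_num at hp
      exact hm.ne_top ((Ideal.eq_top_iff_one _).2 (hIm' 1 h1))
    · obtain ⟨a₁, ha₁m, ha₁0⟩ := Submodule.exists_mem_ne_zero_of_ne_bot hm0
      have hS : locAt A m ∈ Z.localRings := Z.locAt_mem i m
      obtain ⟨Q₀, hQ₀, hSQ₀⟩ : ∃ Q ∈ Z.primeDivisors, locAt A m ≤ Q.ring := by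
        by_contra hcon
        push Not at hcon
        apply (mem_iff_inv_notMem ha₁0).1 ha₁m
        exact Z.hartogs hS fun P hP hSP => absurd hSP (hcon P hP)
      obtain ⟨x, hxS, hxord⟩ := hsm _ hS
      have hx0 : dform k x ≠ 0 := by
        intro h0
        have := hxord Q₀ hQ₀ hSQ₀
        rw [h0] at this
        exact not_isOrd_zero _ _ this
      obtain ⟨b₀, -⟩ := exists_kaehler_basis hy
      obtain ⟨b, hb⟩ := exists_basis_of_ne_zero b₀ x hx0
      obtain ⟨f₁, hf₁⟩ := exists_smul_dform x b hb ωZ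
      have hf₁0 : f₁ ≠ 0 := by
        rintro rfl
        obtain ⟨z, -, hz⟩ := hKZ ⟨Q₀, hQ₀⟩
        rw [hf₁, zero_smul] at hz
        exact not_isOrd_zero _ _ hz
      obtain ⟨C, hC⟩ := exists_bound hy x hx0 h0
      -- the bad divisors
      have hbad : {Q : Z.primeDivisors | (Q.1 f₁ : ℚ) ≠ KZ Q}.Finite := by
        apply ((Z.finite_prin f₁).union KZ.hasFiniteSupport).subset
        intro Q hQ
        by_contra hcon
        simp only [Set.mem_union, Set.mem_ofPred_eq, not_or, not_not] at hcon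
        apply hQ
        rw [hcon.1]
        by_contra hne
        exact hcon.2 (fun h => hne h.symm)
      have hbadS : ∀ Q : Z.primeDivisors, (Q.1 f₁ : ℚ) ≠ KZ Q → ¬ locAt A m ≤ Q.1.ring := by
        intro Q hQ hSQ
        apply hQ
        obtain ⟨z, hz1, hz2⟩ := hKZ Q
        rw [hf₁] at hz2
        have h1 := (isOrd_smul Q.1 hf₁0).2 (hxord Q.1 Q.2 hSQ)
        rw [hz1, isOrd_unique hz2 h1, add_zero]
      have hden : ∀ Q : Z.primeDivisors, ∃ c : A, c ∉ m ∧ ((Q.1 f₁ : ℚ) ≠ KZ Q →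
          ¬ (A ≤ Q.1.ring ∧ Q.1 (c : K) = 0)) := by
        intro Q
        by_cases hQ : (Q.1 f₁ : ℚ) ≠ KZ Q
        · by_cases hAQ : A ≤ Q.1.ring
          · by_contra hcon
            push Not at hcon
            apply hbadS Q hQ
            rintro z ⟨u, w, hw, hz⟩
            by_cases hz0 : z = 0
            · rw [hz0]; exact Subalgebra.zero_mem _
            have h1 := (hcon w hw).2.2
            have hw0 := coe_ne_zero_of_notMem hw
            have h2 : 0 ≤ Q.1 (u : K) := hAQ u.2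
            rw [← hz, DVal.map_mul _ hz0 hw0, h1, add_zero] at h2
            exact h2
          · exact ⟨1, fun h => hmp.ne_top ((Ideal.eq_top_iff_one _).2 h), fun _ h => hAQ h.1⟩
        · exact ⟨1, fun h => hmp.ne_top ((Ideal.eq_top_iff_one _).2 h), fun h => absurd h hQ⟩
      choose cQ hcQm hcQ using hden
      have hxden : ∀ l : Fin d, ∃ c : A, c ∉ m ∧ ∃ u : A, x l * c = u := by
        intro l
        obtain ⟨u, c, hc, hu⟩ := hxS l
        exact ⟨c, hc, u, hu⟩
      choose cx hcxm hcx using hxden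
      let β : A := (∏ Q ∈ hbad.toFinset, cQ Q) * ∏ l, cx l
      have hβm : β ∉ m := by
        intro hβ
        rcases hmp.mem_or_mem hβ with h1 | h1
        · rw [hmp.prod_mem_iff] at h1
          obtain ⟨Q, -, hQ⟩ := h1
          exact hcQm Q hQ
        · rw [hmp.prod_mem_iff] at h1
          obtain ⟨l, -, hl⟩ := h1
          exact hcxm l hl
      apply hβm
      apply hIm'
      refine ⟨C, fun v hAv hβ0 hvβ a κ ha hκ => ?_⟩
      have hβu : ∀ c : A, c ∣ β → (c : K) ≠ 0 ∧ v (c : K) = 0 ∧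
          (c : K)⁻¹ ∈ locAt A (posIdeal v A hAv) := by
        rintro c ⟨c', hc'⟩
        have h1 : (β : K) = (c : K) * (c' : K) := by
          rw [hc']
          rfl
        rw [h1] at hβ0 hvβ
        have hc0 := left_ne_zero_of_mul hβ0
        have hc0' := right_ne_zero_of_mul hβ0
        have h2 : 0 ≤ v (c : K) := hAv c.2
        have h3 : 0 ≤ v (c' : K) := hAv c'.2
        rw [v.map_mul hc0 hc0'] at hvβ
        have h4 : v (c : K) = 0 := by omega
        exact ⟨hc0, h4, inv_mem_locAt ((notMem_posIdeal hAv).2 ⟨hc0, h4⟩)⟩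
      set S := locAt A (posIdeal v A hAv) with hS'
      have hSloc : S ∈ Z.localRings := Z.locAt_mem i _
      have hSv : Dominates S v.ring := dominates_posIdeal hAv
      -- the coordinates are regular
      have hxv : ∀ l, 0 ≤ v (x l) := by
        intro l
        obtain ⟨u, hu⟩ := hcx l
        obtain ⟨h1, h2, -⟩ := hβu (cx l) ((Finset.dvd_prod_of_mem _ (Finset.mem_univ l)).mul_left _)
        by_cases hxl : x l = 0
        · rw [hxl]; simp
        have h3 : 0 ≤ v (u : K) := hAv u.2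
        rw [← hu, v.map_mul hxl h1, h2, add_zero] at h3
        exact h3
      -- the local equation of the canonical divisor
      have hloc : ∀ Q : Z.primeDivisors, S ≤ Q.1.ring → (Q.1 f₁ : ℚ) = KZ Q := by
        intro Q hSQ
        by_contra hne
        apply hcQ Q hne
        have hdvd : cQ Q ∣ β := by
          apply Dvd.dvd.mul_right
          apply Finset.dvd_prod_of_mem
          rw [Set.Finite.mem_toFinset]
          exact hne
        obtain ⟨h1, h2, h3⟩ := hβu _ hdvd
        have hAQ : A ≤ Q.1.ring := (le_locAt _).trans hSQ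
        refine ⟨hAQ, ?_⟩
        have h4 : 0 ≤ Q.1 ((cQ Q : A) : K) := hAQ (cQ Q).2
        have h5 : 0 ≤ Q.1 ((cQ Q : A) : K)⁻¹ := hSQ h3
        rw [DVal.map_inv] at h5
        omega
      have hκ' : κ = v f₁ := by
        apply ProjVar.IsValue.unique hκ
        refine ⟨S, hSloc, hSv, 1, f₁, one_pos, ⟨hf₁0, fun Q hSQ => ?_⟩, by simp⟩
        rw [Nat.cast_one, one_smul]
        exact hloc Q hSQ
      have hord : v.IsOrd (dform k x) (a - v f₁) := by
        rw [hf₁] at ha
        apply (isOrd_smul v hf₁0).1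
        rwa [add_sub_cancel]
      obtain ⟨h1, h2⟩ := hC v hxv (hAv hh) _ hord
      rw [hκ']
      constructor
      · have : ((0 : ℤ) : ℚ) ≤ ((a - v f₁ : ℤ) : ℚ) := by exact_mod_cast h1
        push_cast at this
        exact this
      · have : ((v h : ℤ) : ℚ) ≤ ((C * (1 + (a - v f₁)) : ℤ) : ℚ) := by exact_mod_cast h2
        push_cast at this
        linarith

end Pool.Agent.Helper92.Ga
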