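import Pool.Agent.Helper92.Ga.Defs
import Pool.Agent.Helper92.Ga.Final1
import Pool.Agent.Helper92.Ga.Lct2

set_option autoImplicit false
set_option linter.unusedSectionVars false

/-! The comparison theorem for log canonical pairs with an action of the additive group. -/

namespace Pool.Agent.Helper92.Ga

open scoped KaehlerDifferential
open Module Pool.Agent.Helper92.Weak Pool.Agent.Helper50.Forms

section

variable {k K : Type*} [Field k] [Field K] [Algebra k K] [CharZero k] {d : ℕ}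

/-- Comparison of the value of an effective divisor with the log discrepancy. -/
theorem exists_value_le {y : Fin d → K} (hy : IsTranscendenceBasis k y) (Z : ProjVar k K)
    (hsm : SmoothI Z d) (ωZ : ⋀[K]^d Ω[K⁄k]) (KZ : Z.Div) (hKZ : Z.IsDivOf ωZ KZ) (B : Z.Div) :
    ∃ C : ℕ, ∀ (v : DVal k K) (a : ℤ) (κ c : ℚ), v.IsOrd ωZ a → Z.IsValue v KZ κ →
      Z.IsValue v B c → 0 ≤ a - κ ∧ c ≤ C * (1 + a - κ) := by
  classical
  choose h hh h0 hle using fun i => exists_dominating Z i B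
  choose C hC using fun i => exists_chart_bound hy Z hsm ωZ KZ hKZ i (hh i) (h0 i)
  refine ⟨∑ i, C i, fun v a κ c ha hκ hc => ?_⟩
  obtain ⟨R, hR, hRv⟩ := Z.exists_center v
  obtain ⟨i, p, hp, rfl⟩ := Z.mem_localRings.1 hR
  have hAv : chart k Z.x i ≤ v.ring := (le_locAt p).trans hRv.1
  obtain ⟨h1, h2⟩ := hC i v hAv a κ ha hκ
  refine ⟨h1, ?_⟩
  have h3 := IsValue.le_of_dominating hc hAv (Z.locAt_mem i _) (h0 i) (hle i)
  have h4 : ((C i : ℕ) : ℚ) ≤ ((∑ i, C i : ℕ) : ℚ) := by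
    exact_mod_cast Finset.single_le_sum (fun _ _ => Nat.zero_le _) (Finset.mem_univ i)
  have h5 := mul_le_mul_of_nonneg_right h4 (by linarith : 0 ≤ 1 + (a : ℚ) - κ)
  linarith

/-- Small multiples of effective divisors. -/
theorem klt_add_smul (hd : Algebra.trdeg k K = d) (Z : ProjVar k K) (hsm : Z.IsSmooth d)
    (hqf : Z.IsQFactorial) (q : Z.Pair d) (hklt : Z.IsKlt q.ω q.can q.Δ) (B : Z.Div) :
    ∃ ε₀ : ℚ, 0 < ε₀ ∧ ∀ ε, 0 < ε → ε ≤ ε₀ → Z.IsKlt q.ω q.can (q.Δ + ε • B) := by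
  classical
  obtain ⟨y, hy⟩ := exists_basis_of_trdeg hd
  obtain ⟨b, hb⟩ := exists_kaehler_basis hy
  obtain ⟨ωZ, hωZ⟩ := exists_form b y hb q.ω
  have hsm' : SmoothI Z d := by
    intro S hS
    obtain ⟨x, hx, hxo⟩ := hsm S hS
    refine ⟨x, hx, fun Q hQ hSQ => ?_⟩
    have h1 := hxo Q hQ hSQ
    rw [← one_smul K (wedge k x)] at h1
    rw [← one_smul K (dform k x)]
    unfold DVal.HasOrd at h1
    unfold DVal.IsOrd
    simpa only [smul_wedge_eq_iff b y hb] using h1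
  have hKZ : Z.IsDivOf ωZ q.can := by
    intro Q
    obtain ⟨a, ha, ha'⟩ := q.isDivisorOf Q
    exact ⟨a, ha, (hωZ _ _).1 ha'⟩
  obtain ⟨C, hC⟩ := exists_value_le hy Z hsm' ωZ q.can hKZ B
  obtain ⟨δ, hδ, hlc⟩ := hklt
  have hC1 : (0 : ℚ) < C + 1 := by positivity
  refine ⟨(δ / 2) / ((1 + δ) * (1 + δ / 2) * (C + 1)), by positivity, fun ε hε hε₀ => ?_⟩
  refine ⟨δ / 2, by positivity, hqf _, fun v hv a c ha hc => ?_⟩
  obtain ⟨κ, hκ⟩ := (hqf q.can).exists_value v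
  obtain ⟨c₁, hc₁⟩ := (hqf q.Δ).exists_value v
  obtain ⟨c₂, hc₂⟩ := (hqf B).exists_value v
  have h1 := hκ.add ((hc₁.add (hc₂.smul ε)).smul (1 + δ / 2))
  rw [hc.unique h1]
  have h2 := hlc.2 v hv a _ ha (hκ.add (hc₁.smul (1 + δ)))
  obtain ⟨h3, h4⟩ := hC v a κ c₂ ((hωZ v a).1 ha) hκ hc₂
  set A : ℚ := 1 + a - κ with hA
  have hA0 : 0 < A := by rw [hA]; linarith
  have h5 : c₁ ≤ A / (1 + δ) := by
    rw [le_div_iff₀ (by positivity)]
    linarith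
  have h6 : ε * c₂ ≤ (δ / 2) / ((1 + δ) * (1 + δ / 2)) * A := by
    have h7 : ε * c₂ ≤ ε * (C * A) := mul_le_mul_of_nonneg_left h4 hε.le
    have h8 : ε * (C * A) ≤ (δ / 2) / ((1 + δ) * (1 + δ / 2) * (C + 1)) * (C * A) :=
      mul_le_mul_of_nonneg_right hε₀ (by positivity)
    have h9 : (δ / 2) / ((1 + δ) * (1 + δ / 2) * (C + 1)) * (C * A) ≤
        (δ / 2) / ((1 + δ) * (1 + δ / 2) * (C + 1)) * ((C + 1) * A) :=
      mul_le_mul_of_nonneg_left (by nlinarith) (by positivity)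
    refine (h7.trans (h8.trans h9)).trans (le_of_eq ?_)
    field_simp
  have h7 : (1 + δ / 2) * (c₁ + ε * c₂) ≤ A := by
    have h8 : c₁ + ε * c₂ ≤ A / (1 + δ) + (δ / 2) / ((1 + δ) * (1 + δ / 2)) * A := add_le_add h5 h6
    have h9 := mul_le_mul_of_nonneg_left h8 (by positivity : 0 ≤ 1 + δ / 2)
    refine h9.trans (le_of_eq ?_)
    field_simp
    ring
  rw [hA] at h7
  linarith

end

section

variable {k K L : Type*} [Field k] [Field K] [Field L] [Algebra k K] [Algebra k L] [Algebra K L]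
  [IsScalarTower k K L] {t : L} [CharZero k]

/-- The comparison theorem, in terms of pairs. -/
theorem additive_quotient_pair {d : ℕ} (hd : Algebra.trdeg k K = d) (Z : ProjVar k K)
    (X : ProjVar k L) (h : IsAdditiveQuotient t X Z) (p : X.Pair (d + 1))
    (hlc : p.LC) (q : Z.Pair d) (hq : IsOrbifoldBase p q) (hκ : Z.kod q.logDiv ≠ ⊥) :
    (X.kod p.logDiv = ⊥ ∧ X.nu p.logDiv = ⊥) ∨
    ∃ (s : ℕ) (B : Z.Div), s ≤ 1 ∧ (∀ Q, 0 ≤ B Q) ∧
      (∀ ε : ℚ, 0 < ε → X.kod p.logDiv = s + Z.kod (q.logDiv + ε • B) ∧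
        X.nu p.logDiv = s + Z.nu (q.logDiv + ε • B)) ∧
      (Z.IsSmooth d → Z.IsQFactorial → Z.IsKlt q.ω q.can q.Δ →
        ∃ ε₀ : ℚ, 0 < ε₀ ∧ ∀ ε, 0 < ε → ε ≤ ε₀ → Z.IsKlt q.ω q.can (q.Δ + ε • B)) := by
  obtain ⟨y, hy⟩ := exists_basis_of_trdeg hd
  have hl : IsLine K t := ⟨h.trans, h.gen⟩
  have ht : IsTorus K (fun _ : Fin 1 => t) := hl.isTorus
  obtain ⟨b, hb⟩ := Pool.Agent.Helper50.Forms.exists_kaehler_basis hy
  obtain ⟨B, hB, -, -⟩ := Pool.Agent.Helper50.Forms.exists_basis_tower hy _ ht.indep ht.gen y b hb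
  obtain ⟨ωZ, hωZ⟩ := exists_form b y hb q.ω
  obtain ⟨ωX, hωX⟩ := exists_form B _ hB p.ω
  have h1 : Z.IsDivOf ωZ q.can := by
    intro Q
    obtain ⟨a, ha, ha'⟩ := q.isDivisorOf Q
    exact ⟨a, ha, (hωZ _ _).1 ha'⟩
  have h2 : X.IsDivOf ωX p.can := by
    intro P
    obtain ⟨a, ha, ha'⟩ := p.isDivisorOf P
    exact ⟨a, ha, (hωX _ _).1 ha'⟩
  have h3 : X.IsLC ωX p.can p.Δ :=
    ⟨hlc.1, fun v hv a c ha hc => hlc.2 v hv a c ((hωX v a).2 ha) hc⟩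
  rcases additive_quotient hd hl Z X h.stable h.equi ωZ q.can h1
    ωX p.can h2 p.Δ p.nonneg h3 q.Δ hq hκ with h1 | ⟨s, B, hs, hB, hinv⟩
  · exact Or.inl h1
  · exact Or.inr ⟨s, B, hs, hB, hinv, fun hsm hqf hklt => klt_add_smul hd Z hsm hqf q hklt B⟩

end

end Pool.Agent.Helper92.Ga
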