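import Pool.Agent.Helper92.Weak.Values

set_option autoImplicit false
set_option linter.unusedSectionVars false

/-! Comparison of the Kodaira and numerical dimensions of divisors on two varieties. -/

namespace Pool.Agent.Helper92.Ga

open Pool.Agent.Helper92.Weak Filter

variable {k K L : Type*} [Field k] [Field K] [Field L] [Algebra k K] [Algebra k L]

/-- The section spaces of multiples of `E` are comparable to those of multiples of `DZ`. -/
structure Comparison (X : ProjVar k L) (Z : ProjVar k K) (E : X.Div) (DZ : Z.Div) (s : ℕ) :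
    Prop where
  int : Z.IsInt DZ
  eff : ∃ η : K, η ≠ 0 ∧ ∀ Q : Z.primeDivisors, 0 ≤ (Q.1 η : ℚ) + DZ Q
  upper : ∀ A : X.Div, ∃ (A' : Z.Div) (C a c : ℕ) (φ : ℕ → ℕ), Z.IsInt A' ∧
    Tendsto φ atTop atTop ∧ (∀ m, φ m ≤ a * (m + c)) ∧ ∀ᶠ m : ℕ in atTop,
      sdim (X.H0 ((m : ℚ) • E + A)) ≤ C * (m : ℕ∞) ^ s * sdim (Z.H0 ((φ m : ℚ) • DZ + A'))
  upper0 : ∃ M C a : ℕ, 0 < M ∧ 0 < a ∧ ∀ n : ℕ, 1 ≤ n →
    sdim (X.H0 (((M * n : ℕ) : ℚ) • E)) ≤ C * (n : ℕ∞) ^ s *
      sdim (Z.H0 (((a * n : ℕ) : ℚ) • DZ))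
  lower : ∃ a : ℕ, 0 < a ∧ ∀ A : Z.Div, Z.IsInt A → ∃ A' : X.Div, (A = 0 → A' = 0) ∧
    ∀ n : ℕ, 1 ≤ n → (n : ℕ∞) ^ s * Z.h0 ((n : ℚ) • DZ + A) ≤ X.h0 (((a * n : ℕ) : ℚ) • E + A')

lemma h0_mono_of_eff {Z : ProjVar k K} {DZ : Z.Div} {η : K} (hη : η ≠ 0)
    (h : ∀ Q : Z.primeDivisors, 0 ≤ (Q.1 η : ℚ) + DZ Q) {i j : ℕ} (hij : i ≤ j) (A : Z.Div) :
    sdim (Z.H0 ((i : ℚ) • DZ + A)) ≤ sdim (Z.H0 ((j : ℚ) • DZ + A)) := by
  apply sdim_sec_le (η ^ (j - i)) (pow_ne_zero _ hη)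
  intro q
  rw [DVal.map_pow, Finsupp.add_apply, Finsupp.add_apply, Finsupp.smul_apply,
    Finsupp.smul_apply, smul_eq_mul, smul_eq_mul]
  have h1 := h q
  have h2 : ((j - i : ℕ) : ℚ) = j - i := by rw [Nat.cast_sub hij]
  have h3 : (0 : ℚ) ≤ (j : ℚ) - i := by
    have : (i : ℚ) ≤ j := by exact_mod_cast hij
    linarith
  push_cast
  rw [h2]
  have h4 := mul_nonneg h3 h1
  linarith

namespace Comparison

variable {X : ProjVar k L} {Z : ProjVar k K} {E : X.Div} {DZ : Z.Div} {s : ℕ}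
  (h : Comparison X Z E DZ s)
include h

theorem nu_eq : X.nu E = s + Z.nu DZ := by
  apply le_antisymm
  · unfold ProjVar.nu
    apply iSup_le
    intro A
    obtain ⟨A', C, a, c, φ, hA', hφ, hφ', hU⟩ := h.upper A
    have hle : logGrowth (fun m => X.h0 ((m : ℚ) • E + A)) ≤
        (s : EReal) + logGrowth (fun m => Z.h0 ((m : ℚ) • DZ + A')) := by
      apply logGrowth_le (C := C) (a := a) (c := c) (φ := φ) hφ hφ'
      filter_upwards [hU] with m hm
      rw [Z.h0_of_int ((h.int.nsmul _).add hA')]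
      exact (X.h0_le _).trans hm
    refine hle.trans ?_
    gcongr
    exact le_iSup (fun A => logGrowth fun m => Z.h0 ((m : ℚ) • DZ + A)) A'
  · rw [add_comm, ← EReal.le_sub_iff_add_le (Or.inl (EReal.natCast_ne_bot _))
      (Or.inl (EReal.natCast_ne_top _))]
    unfold ProjVar.nu
    apply iSup_le
    intro A
    rw [EReal.le_sub_iff_add_le (Or.inl (EReal.natCast_ne_bot _))
      (Or.inl (EReal.natCast_ne_top _)), add_comm]
    obtain ⟨a, ha, hlow⟩ := h.lower
    by_cases hA : Z.IsInt A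
    · obtain ⟨A', -, hA'⟩ := hlow A hA
      have h1 : (s : EReal) + logGrowth (fun m => Z.h0 ((m : ℚ) • DZ + A)) ≤
          logGrowth (fun m => X.h0 ((m : ℚ) • E + A')) := by
        apply le_logGrowth (a := a) ha
        intro n hn
        exact hA' n hn
      exact h1.trans (le_iSup (fun A => logGrowth fun m => X.h0 ((m : ℚ) • E + A)) A')
    · have h1 : logGrowth (fun m => Z.h0 ((m : ℚ) • DZ + A)) = ⊥ := by
        apply logGrowth_eq_bot
        filter_upwards with m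
        unfold ProjVar.h0
        rw [if_neg]
        intro h2
        apply hA
        have h3 := h2.sub (h.int.nsmul m)
        rwa [add_sub_cancel_left] at h3
      rw [h1]
      simp

theorem kod_eq : X.kod E = s + Z.kod DZ := by
  obtain ⟨M, C, a, hM, ha, hU⟩ := h.upper0
  obtain ⟨a', ha', hlow⟩ := h.lower
  obtain ⟨η, hη, heff⟩ := h.eff
  obtain ⟨c, hc⟩ := exists_mult_bound (ord := fun P : X.primeDivisors => P.1) E M hM
  unfold ProjVar.kod
  apply kodDim_eq (C := C * (1 + c) ^ s) (a := a) (c := c) (a' := a')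
    (φ := fun m => a * (m + c))
  · exact ha'
  · apply tendsto_atTop_mono (f := fun m => m)
    · intro m
      calc m ≤ m + c := Nat.le_add_right _ _
        _ ≤ a * (m + c) := Nat.le_mul_of_pos_left _ ha
    · exact tendsto_id
  · intro m; exact le_rfl
  · intro m hm _
    exact Nat.mul_pos ha (by omega)
  · intro m hm
    obtain ⟨n, hn1, hnm, hn2⟩ := hc m hm
    have h1 : X.h0 ((m : ℚ) • E) ≤ C * (n : ℕ∞) ^ s * sdim (Z.H0 (((a * n : ℕ) : ℚ) • DZ)) := by
      refine (X.h0_le _).trans ?_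
      exact le_trans hn2 (hU n hn1)
    have h2 : sdim (Z.H0 (((a * n : ℕ) : ℚ) • DZ)) ≤ Z.h0 (((a * (m + c) : ℕ) : ℚ) • DZ) := by
      rw [Z.h0_of_int (h.int.nsmul _)]
      have := h0_mono_of_eff hη heff (i := a * n) (j := a * (m + c))
        (Nat.mul_le_mul_left _ hnm) 0
      rwa [add_zero, add_zero] at this
    have h3 : (n : ℕ∞) ^ s ≤ (1 + c) ^ s * (m : ℕ∞) ^ s := by
      rw [← mul_pow]
      gcongr
      have h4 : n ≤ (1 + c) * m := by nlinarith
      exact_mod_cast h4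
    refine h1.trans ?_
    calc C * (n : ℕ∞) ^ s * sdim (Z.H0 (((a * n : ℕ) : ℚ) • DZ)) ≤
        C * ((1 + c) ^ s * (m : ℕ∞) ^ s) * Z.h0 (((a * (m + c) : ℕ) : ℚ) • DZ) := by gcongr
      _ = _ := by push_cast; ring
  · intro n hn
    obtain ⟨A', hA', h1⟩ := hlow 0 (fun Q => ⟨0, by simp⟩)
    have h2 := h1 n hn
    rw [hA' rfl, add_zero, add_zero] at h2
    exact h2
  · intro j m hj hm hne
    rw [Z.h0_of_int (h.int.nsmul m)] at hne
    rw [Z.h0_of_int (h.int.nsmul (j * m))]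
    rw [sdim_ne_zero] at hne ⊢
    obtain ⟨f, hf, hf0⟩ := hne
    refine ⟨f ^ j, ?_, pow_ne_zero _ hf0⟩
    have h1 := pow_mem_sec hf0 hf j
    have h2 : (j : ℚ) • ((((m : ℚ) • DZ : Z.Div)) : Z.primeDivisors → ℚ) =
        ((((j * m : ℕ) : ℚ) • DZ : Z.Div) : Z.primeDivisors → ℚ) := by
      funext q
      simp only [Pi.smul_apply, Finsupp.smul_apply, smul_eq_mul]
      push_cast
      ring
    rw [h2] at h1
    exact h1

end Comparison

lemma IsInt.smul_of_dvd {Z : ProjVar k K} (D : Z.Div) : ∃ b : ℕ, 0 < b ∧ Z.IsInt ((b : ℚ) • D) := by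
  classical
  refine ⟨∏ Q ∈ D.support, (D Q).den, Finset.prod_pos fun Q _ => (D Q).pos, fun Q => ?_⟩
  by_cases hQ : Q ∈ D.support
  · have h1 : (D Q).den ∣ ∏ Q ∈ D.support, (D Q).den := Finset.dvd_prod_of_mem _ hQ
    obtain ⟨c, hc⟩ := h1
    refine ⟨c * (D Q).num, ?_⟩
    rw [Finsupp.smul_apply, smul_eq_mul, hc]
    have h2 := Rat.mul_den_eq_num (D Q)
    push_cast
    rw [← h2]
    ring
  · refine ⟨0, ?_⟩
    rw [Finsupp.smul_apply, Finsupp.notMem_support_iff.1 hQ]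
    simp

lemma IsInt.ceilAbs {Z : ProjVar k K} (A : Z.Div) :
    ∃ A' : Z.Div, Z.IsInt A' ∧ (∀ Q, |A Q| ≤ A' Q) ∧ (A = 0 → A' = 0) := by
  classical
  refine ⟨A.mapRange (fun x => (⌈|x|⌉ : ℚ)) (by simp), fun Q => ⟨⌈|A Q|⌉, by simp⟩,
    fun Q => ?_, fun h => ?_⟩
  · rw [Finsupp.mapRange_apply]
    exact Int.le_ceil _
  · rw [h]
    ext Q
    simp

/-- Comparable divisors on one variety. -/
theorem comparison_of_le {Z : ProjVar k K} {D DZ : Z.Div} (hint : Z.IsInt DZ)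
    {η : K} (hη : η ≠ 0) (heff : ∀ Q : Z.primeDivisors, 0 ≤ (Q.1 η : ℚ) + DZ Q)
    {p q : ℕ} (hp : 0 < p) (hq : 0 < q) {ψ : K} (hψ : ψ ≠ 0)
    (h1 : ∀ Q : Z.primeDivisors, p * D Q ≤ q * DZ Q + Q.1 ψ)
    {p' q' : ℕ} (hp' : 0 < p') (hq' : 0 < q') {ψ' : K} (hψ' : ψ' ≠ 0)
    (h2 : ∀ Q : Z.primeDivisors, p' * DZ Q ≤ q' * D Q + Q.1 ψ') :
    Comparison Z Z D DZ 0 := by
  classical
  refine ⟨hint, ⟨η, hη, heff⟩, ?_, ?_, ?_⟩
  · intro A
    -- the remainders
    choose A' hA' hA'2 _ using fun ρ : ℕ => IsInt.ceilAbs (((ρ : ℚ)) • D + A)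
    refine ⟨∑ ρ ∈ Finset.range p, A' ρ, 1, q, 0, fun m => q * (m / p), ?_, ?_, ?_, ?_⟩
    · have : ∀ s : Finset ℕ, Z.IsInt (∑ ρ ∈ s, A' ρ) := by
        intro s
        induction s using Finset.induction_on with
        | empty => intro Q; exact ⟨0, by simp⟩
        | insert a s ha ih =>
          rw [Finset.sum_insert ha]
          exact (hA' a).add ih
      exact this _
    · apply tendsto_atTop_mono (f := fun m => m / p)
      · intro m
        exact Nat.le_mul_of_pos_left _ hq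
      · exact Nat.tendsto_div_const_atTop hp.ne'
    · intro m
      exact Nat.mul_le_mul_left _ ((Nat.div_le_self _ _).trans (Nat.le_add_right _ _))
    · filter_upwards with m
      rw [pow_zero, mul_one, Nat.cast_one, one_mul]
      apply sdim_sec_le (ψ ^ (m / p)) (pow_ne_zero _ hψ)
      intro Q
      rw [DVal.map_pow, Finsupp.add_apply, Finsupp.add_apply, Finsupp.smul_apply,
        Finsupp.smul_apply, smul_eq_mul, smul_eq_mul]
      have h3 := hA'2 (m % p) Q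
      have h4 : A' (m % p) Q ≤ (∑ ρ ∈ Finset.range p, A' ρ) Q := by
        rw [Finsupp.finsetSum_apply]
        exact Finset.single_le_sum (f := fun ρ => A' ρ Q)
          (fun ρ _ => (abs_nonneg _).trans (hA'2 ρ Q))
          (Finset.mem_range.2 (Nat.mod_lt _ hp))
      have h5 : (m : ℚ) = p * (m / p : ℕ) + (m % p : ℕ) := by
        exact_mod_cast (Nat.div_add_mod m p).symm
      have h6 := h1 Q
      rw [Finsupp.add_apply, Finsupp.smul_apply, smul_eq_mul] at h3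
      have h7 := (le_abs_self _).trans h3
      have h8 : (0 : ℚ) ≤ (m / p : ℕ) := by positivity
      have h9 := mul_le_mul_of_nonneg_left h6 h8
      rw [h5]
      generalize (∑ ρ ∈ Finset.range p, A' ρ) Q = S at h4 ⊢
      generalize m / p = l at h5 h8 h9 ⊢
      generalize m % p = ρ at h3 h4 h5 h7 ⊢
      push_cast at h7 h9 ⊢
      linarith
  · refine ⟨p, 1, q, hp, hq, fun n _ => ?_⟩
    rw [pow_zero, mul_one, Nat.cast_one, one_mul]
    apply sdim_sec_le (ψ ^ n) (pow_ne_zero _ hψ)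
    intro Q
    rw [DVal.map_pow, Finsupp.smul_apply, Finsupp.smul_apply, smul_eq_mul, smul_eq_mul]
    have h8 : (0 : ℚ) ≤ n := by positivity
    have h9 := mul_le_mul_of_nonneg_left (h1 Q) h8
    push_cast
    linarith
  · obtain ⟨b, hb, hbD⟩ := IsInt.smul_of_dvd D
    refine ⟨q' * b, Nat.mul_pos hq' hb, fun A hA => ⟨A, fun h => h, fun n hn => ?_⟩⟩
    rw [pow_zero, one_mul, Z.h0_of_int ((hint.nsmul n).add hA), Z.h0_of_int]
    · have h3 : sdim (Z.H0 ((n : ℚ) • DZ + A)) ≤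
          sdim (Z.H0 (((p' * b * n : ℕ) : ℚ) • DZ + A)) := by
        apply h0_mono_of_eff hη heff
        have : 0 < p' * b := Nat.mul_pos hp' hb
        exact Nat.le_mul_of_pos_left _ this
      refine h3.trans ?_
      apply sdim_sec_le (ψ' ^ (b * n)) (pow_ne_zero _ hψ')
      intro Q
      rw [DVal.map_pow, Finsupp.add_apply, Finsupp.add_apply, Finsupp.smul_apply,
        Finsupp.smul_apply, smul_eq_mul, smul_eq_mul]
      have h8 : (0 : ℚ) ≤ (b * n : ℕ) := by positivity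
      have h9 := mul_le_mul_of_nonneg_left (h2 Q) h8
      push_cast at h9 ⊢
      linarith
    · apply ProjVar.IsInt.add _ hA
      have h3 := hbD.nsmul (q' * n)
      rw [smul_smul] at h3
      have h4 : ((q' * n : ℕ) : ℚ) * b = ((q' * b * n : ℕ) : ℚ) := by push_cast; ring
      rwa [h4] at h3

end Pool.Agent.Helper92.Ga
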