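import Pool.Agent.Helper92.Weak.Defs

set_option autoImplicit false

/-!
# Quotients by the additive group

Smooth varieties, klt pairs and varieties with an action of the additive group.
-/

namespace Pool.Agent.Helper92.Weak

/-- The variety `X` of dimension `n` is smooth: every point of `X` has local coordinates, that is
`n` functions `x₁, ..., xₙ` in the local ring `R` of the point such that `dx₁ ∧ ... ∧ dxₙ` has
neither a zero nor a pole on the prime divisors through the point. -/
def ProjVar.IsSmooth {k L : Type*} [Field k] [Field L] [Algebra k L] (X : ProjVar k L)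
    (n : ℕ) : Prop :=
  ∀ R ∈ X.localRings, ∃ x : Fin n → L, (∀ i, x i ∈ R) ∧
    ∀ P ∈ X.primeDivisors, R ≤ P.ring → P.HasOrd (wedge k x) 0

/-- The pair `(X, Δ)` is klt, where `K` is the divisor of the form `ω`: the pair `(X, (1 + δ) Δ)`
is log canonical for some `δ > 0`. (This is the usual notion if `X` itself is klt, for instance
if `X` is smooth.) -/
def ProjVar.IsKlt {k L : Type*} [Field k] [Field L] [Algebra k L] (X : ProjVar k L) {n : ℕ}
    (ω : Form k L n) (K Δ : X.Div) : Prop :=
  ∃ δ : ℚ, 0 < δ ∧ X.IsLogCanonical ω K ((1 + δ) • Δ)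

/-- The variety `X` has the function field `L = K(t)`, where `K` is the function field of `Z`, it
is stable under the action `t ↦ t + c` of the additive group, and every prime divisor of `X` maps
onto `Z` or onto a prime divisor of `Z`. -/
structure IsAdditiveQuotient {k K L : Type*} [Field k] [Field K] [Field L] [Algebra k K]
    [Algebra k L] [Algebra K L] (t : L) (X : ProjVar k L) (Z : ProjVar k K) : Prop where
  trans : Transcendental K t
  gen : IntermediateField.adjoin K {t} = ⊤
  stable : ∀ (σ : L ≃ₐ[K] L) (c : k), σ t = t + algebraMap k L c →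
    ∀ R ∈ X.localRings, ∃ R' ∈ X.localRings, ∀ z, z ∈ R' ↔ σ z ∈ R
  equi : ∀ P ∈ X.primeDivisors, (∃ a : K, P (algebraMap K L a) ≠ 0) →
    ∃ Q ∈ Z.primeDivisors, ∃ e, LiesOver P Q e

end Pool.Agent.Helper92.Weak
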