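import Pool.Agent.Helper92.Weak.Values

set_option autoImplicit false
set_option linter.unusedSectionVars false

/-! The value of sections along arbitrary valuations. -/

namespace Pool.Agent.Helper92.Ga

open Pool.Agent.Helper92.Weak

variable {k L : Type*} [Field k] [Field L] [Algebra k L] {X : ProjVar k L}

/-- A function with prescribed zeros through a point. -/
lemma exists_local_bound {R : Subalgebra k L} (hR : R ∈ X.localRings) (A : X.Div) :
    ∃ a : L, a ≠ 0 ∧ ∀ P : X.primeDivisors, R ≤ P.1.ring → A P ≤ P.1 a := by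
  classical
  induction A using Finsupp.induction with
  | zero => exact ⟨1, one_ne_zero, fun P _ => by simp⟩
  | single_add P₀ b A _ _ ih =>
    obtain ⟨f, hf, h⟩ := ih
    by_cases hRP : R ≤ P₀.1.ring
    · obtain ⟨a, ha0, haR, haP⟩ : ∃ a : L, a ≠ 0 ∧ a ∈ R ∧ 1 ≤ P₀.1 a := by
        obtain ⟨i, p, hp, rfl⟩ := X.mem_localRings.1 hR
        obtain ⟨z, hz0, hz⟩ := P₀.1.exists_uniformizer
        obtain ⟨a, ha, b, hb, hb0, rfl⟩ := X.chart_isFrac i z
        have ha0 : a ≠ 0 := by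
          rintro rfl
          rw [zero_div] at hz0
          exact hz0 rfl
        have h1 : 0 ≤ P₀.1 b := hRP (le_locAt _ hb)
        rw [P₀.1.map_div ha0 hb0] at hz
        exact ⟨a, ha0, le_locAt _ ha, by omega⟩
      refine ⟨a ^ ⌈b⌉₊ * f, mul_ne_zero (pow_ne_zero _ ha0) hf, fun P hP => ?_⟩
      rw [DVal.map_mul _ (pow_ne_zero _ ha0) hf, DVal.map_pow, Finsupp.add_apply,
        Finsupp.single_apply]
      have h1 := h P hP
      have h2 : (0 : ℤ) ≤ P.1 a := hP haR
      have h3 : (0 : ℚ) ≤ P.1 a := by exact_mod_cast h2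
      push_cast
      split_ifs with heq
      · have h4 : (1 : ℚ) ≤ P.1 a := by
          rw [← heq]
          exact_mod_cast haP
        have h5 := Nat.le_ceil b
        have h6 : (0 : ℚ) ≤ (⌈b⌉₊ : ℚ) := by positivity
        nlinarith
      · have h4 : (0 : ℚ) ≤ (⌈b⌉₊ : ℚ) * P.1 a := by positivity
        linarith
    · refine ⟨f, hf, fun P hP => ?_⟩
      rw [Finsupp.add_apply, Finsupp.single_apply, if_neg (by
        rintro rfl
        exact hRP hP), zero_add]
      exact h P hP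

/-- The values of sections of `n E + A` along a valuation. -/
theorem exists_value_bound {E : X.Div} {v : DVal k L} {c : ℚ} (hc : X.IsValue v E c)
    (A : X.Div) : ∃ C : ℚ, (A = 0 → C = 0) ∧ ∀ (n : ℕ) (h : L), h ≠ 0 →
      h ∈ X.H0 ((n : ℚ) • E + A) → -(n * c) - C ≤ v h := by
  classical
  obtain ⟨R, hR, hRv, m, f, hm, ⟨hf0, hf⟩, rfl⟩ := hc
  obtain ⟨a, ha0, ha⟩ : ∃ a : L, a ≠ 0 ∧ (A = 0 → a = 1) ∧
      ∀ P : X.primeDivisors, R ≤ P.1.ring → A P ≤ P.1 a := by
    by_cases hA : A = 0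
    · exact ⟨1, one_ne_zero, fun _ => rfl, fun P _ => by rw [hA]; simp⟩
    · obtain ⟨a, ha0, ha⟩ := exists_local_bound hR A
      exact ⟨a, ha0, fun h => absurd h hA, ha⟩
  have hm0 : (0 : ℚ) < m := by exact_mod_cast hm
  refine ⟨v a, fun h => by rw [ha.1 h, v.map_one, Int.cast_zero], fun n h hh0 hh => ?_⟩
  unfold ProjVar.H0 at hh
  rw [mem_sec_of_ne hh0] at hh
  have hne1 : h ^ m ≠ 0 := pow_ne_zero _ hh0
  have hne2 : f ^ n ≠ 0 := pow_ne_zero _ hf0
  have hne3 : a ^ m ≠ 0 := pow_ne_zero _ ha0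
  have key : 0 ≤ v (h ^ m * f ^ n * a ^ m) := by
    apply ProjVar.val_nonneg hR hRv
    intro P hP hRP
    have h1 := hh ⟨P, hP⟩
    have h2 := hf ⟨P, hP⟩ hRP
    have h3 := ha.2 ⟨P, hP⟩ hRP
    rw [Finsupp.add_apply, Finsupp.smul_apply, smul_eq_mul] at h1
    rw [Finsupp.smul_apply, smul_eq_mul] at h2
    rw [P.map_mul (mul_ne_zero hne1 hne2) hne3, P.map_mul hne1 hne2, P.map_pow, P.map_pow,
      P.map_pow]
    have h4 : (0 : ℚ) ≤ ((m * P h + n * P f + m * P a : ℤ) : ℚ) := by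
      push_cast
      change (P f : ℚ) = _ at h2
      rw [h2]
      have h5 : (0 : ℚ) ≤ (P h : ℚ) + (n * E ⟨P, hP⟩ + P a) := by
        refine h1.trans ?_
        have : A ⟨P, hP⟩ ≤ (P a : ℚ) := h3
        change (P h : ℚ) + _ ≤ _
        linarith
      have h6 := mul_nonneg hm0.le h5
      linarith
    exact_mod_cast h4
  rw [v.map_mul (mul_ne_zero hne1 hne2) hne3, v.map_mul hne1 hne2, v.map_pow, v.map_pow,
    v.map_pow] at key
  have key' : (0 : ℚ) ≤ m * v h + n * v f + m * v a := by exact_mod_cast key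
  have h1 : -((n : ℚ) * ((v f : ℚ) / m)) - v a = (-(n * v f : ℚ) - m * v a) / m := by
    field_simp
  rw [h1, div_le_iff₀ hm0]
  linarith

/-- The value at a prime divisor is the coefficient. -/
lemma IsValue.eq_coeff {P : DVal k L} (hP : P ∈ X.primeDivisors) {E : X.Div} {c : ℚ}
    (hc : X.IsValue P E c) : c = E ⟨P, hP⟩ := by
  obtain ⟨R, hR, hRv, m, f, hm, ⟨hf0, hf⟩, rfl⟩ := hc
  have hRR : R = P.ring := X.separated hR hP hRv (Dominates.refl _)
  have h1 := hf ⟨P, hP⟩ hRR.le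
  rw [Finsupp.smul_apply, smul_eq_mul] at h1
  change (P f : ℚ) = _ at h1
  rw [h1]
  have hm0 : (m : ℚ) ≠ 0 := by exact_mod_cast hm.ne'
  field_simp

end Pool.Agent.Helper92.Ga
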