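import Pool.Agent.Helper92.Ga.Forms

set_option autoImplicit false
set_option linter.unusedSectionVars false

/-! Values of functions and orders of forms: the basic inequality. -/

namespace Pool.Agent.Helper92.Ga

open scoped KaehlerDifferential
open Module Pool.Agent.Helper92.Weak Pool.Agent.Helper50.Forms

variable {k L : Type*} [Field k] [Field L] [Algebra k L] [CharZero k] {n : ℕ}

/-- The value of a partial derivative. -/
lemma pder_ge {y : Fin n → L} (hy : IsTranscendenceBasis k y) {v : DVal k L} (x : Fin n → L)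
    (b : Basis (Fin n) L Ω[L⁄k]) (hb : ∀ i, b i = KaehlerDifferential.D k L (x i))
    (hx : ∀ i, 0 ≤ v (x i)) {a : ℤ} (ha : v.IsOrd (dform k x) a) {f : L} (hf : f ≠ 0)
    (i : Fin n) : v.Ge ((v f : ℚ) - 1 - a) (b.repr (KaehlerDifferential.D k L f) i) := by
  classical
  obtain ⟨z, C, j₀, π, γ, hC, hz, hreg, hπ, hzπ, hγ, hγa, heq⟩ := exists_coord_unif hy v ha
  set c := b.repr (KaehlerDifferential.D k L f) i with hc
  by_cases hc0 : c = 0
  · left; exact hc0
  have hπ0 : π ≠ 0 := v.ne_zero_of_pos (by omega)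
  have hupd := dform_update x b hb i f
  set w : Fin n → L := Function.update x i f with hw
  have hdet := dform_eq_det z C hC w
  set T := C.toMatrix (fun j => KaehlerDifferential.D k L (w j)) with hT
  rw [C.det_apply, ← hT] at hdet
  have hrel : c * γ = T.det := by
    apply smul_dform_inj z C hC
    rw [← hdet, hupd, ← smul_smul, ← heq]
  have hentry : ∀ y : L, y ≠ 0 → ∀ i, v.Ge ((if i = j₀ then (-1 : ℚ) else 0) + v y)
      (C.repr (KaehlerDifferential.D k L y) i) := by
    intro y hy0 i
    obtain ⟨c, hc, h1⟩ := repr_split (v₀ := v) hπ hzπ hC hreg hy0 i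
    rw [h1]
    have h2 : v.Ge (v y : ℚ) (π ^ (v y) * c) := by
      have h3 : v.Ge (v y : ℚ) (π ^ (v y)) := by
        right
        rw [v.map_zpow, hπ, mul_one]
      have h4 : v.Ge 0 c := ge_of_mem v hc
      simpa using h3.mul h4
    have hint : ∀ n : ℤ, v.Ge 0 (n : L) := by
      intro n
      have h : (n : L) ∈ v.ring := by
        have := v.ring.algebraMap_mem (n : k)
        rwa [map_intCast] at this
      exact (v.mem_ring_iff_ge).1 h
    split_ifs with hi
    · apply DVal.Ge.add
      · exact h2.mono (by linarith)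
      · have h5 : v.Ge (-1 : ℚ) (π⁻¹) := by
          right
          rw [v.map_inv, hπ]
          norm_num
        have h6 := ((hint (v y)).mul h5).mul (DVal.ge_self (v := v) y)
        refine h6.mono ?_
        linarith
    · rw [add_zero]
      exact h2.mono (by linarith)
  have hTge : v.Ge (∑ l, (if l = j₀ then (-1 : ℚ) else 0) +
      ∑ j, (if j = i then (v f : ℚ) else 0)) T.det := by
    apply det_ge
    intro l j
    rw [hT, Basis.toMatrix_apply, hw]
    by_cases hj : j = i
    · rw [hj, Function.update_self, if_pos rfl]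
      exact hentry f hf l
    · rw [Function.update_of_ne hj, if_neg hj]
      have h6 : v.Ge 0 (C.repr (KaehlerDifferential.D k L (x j)) l) :=
        ge_of_mem v (hreg _ (hx j) l)
      refine h6.mono ?_
      split_ifs <;> norm_num
  have hsum1 : ∑ l : Fin n, (if l = j₀ then (-1 : ℚ) else 0) = -1 := by
    rw [Finset.sum_ite_eq' Finset.univ j₀]
    simp
  have hsum2 : ∑ j : Fin n, (if j = i then (v f : ℚ) else 0) = v f := by
    rw [Finset.sum_ite_eq' Finset.univ i]
    simp
  rw [hsum1, hsum2, ← hrel, DVal.ge_iff (mul_ne_zero hc0 hγ), v.map_mul hc0 hγ, hγa] at hTge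
  right
  push_cast at hTge
  linarith

/-- Values of polynomials in the coordinates. -/
lemma v_aeval_le {y : Fin n → L} (hy : IsTranscendenceBasis k y) {v : DVal k L} (x : Fin n → L)
    (b : Basis (Fin n) L Ω[L⁄k]) (hb : ∀ i, b i = KaehlerDifferential.D k L (x i))
    (hx : ∀ i, 0 ≤ v (x i)) {a : ℤ} (ha : v.IsOrd (dform k x) a) (ha0 : 0 ≤ a) (d : ℕ) :
    ∀ G : MvPolynomial (Fin n) k, G.totalDegree < d → G ≠ 0 →
      v (MvPolynomial.aeval x G) ≤ G.totalDegree * (1 + a) := by
  induction d with
  | zero => intro G h; omega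
  | succ d ih =>
    intro G hd hG
    have hG0 : MvPolynomial.aeval x G ≠ 0 := aeval_ne_zero x b hb _ G (Nat.lt_succ_self _) hG
    rcases exists_pderiv G hG with ⟨c, hc, rfl⟩ | ⟨i, hi, hlt⟩
    · rw [MvPolynomial.algHom_C, v.map_const]
      positivity
    · have h1 := pder_ge hy x b hb hx ha hG0 i
      rw [Pool.Agent.Helper50.Forms.repr_aeval x b hb] at h1
      have h2 : MvPolynomial.aeval x (MvPolynomial.pderiv i G) ≠ 0 :=
        aeval_ne_zero x b hb _ _ (Nat.lt_succ_self _) hi
      rw [DVal.ge_iff h2] at h1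
      have h3 := ih _ (by omega) hi
      have h4 : ((v (MvPolynomial.aeval x G) - 1 - a : ℤ) : ℚ) ≤
          ((v (MvPolynomial.aeval x (MvPolynomial.pderiv i G)) : ℤ) : ℚ) := by
        push_cast
        exact h1
      have h5 : v (MvPolynomial.aeval x G) - 1 - a ≤
          v (MvPolynomial.aeval x (MvPolynomial.pderiv i G)) := by exact_mod_cast h4
      have h6 : ((MvPolynomial.pderiv i G).totalDegree : ℤ) + 1 ≤ G.totalDegree := by
        exact_mod_cast hlt
      have h7 := mul_le_mul_of_nonneg_right h6 (by omega : 0 ≤ 1 + a)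
      linarith

/-- The basic inequality. -/
theorem exists_bound {y : Fin n → L} (hy : IsTranscendenceBasis k y) (x : Fin n → L)
    (hx0 : dform k x ≠ 0) {f : L} (hf : f ≠ 0) :
    ∃ C : ℕ, ∀ v : DVal k L, (∀ i, 0 ≤ v (x i)) → 0 ≤ v f → ∀ a : ℤ, v.IsOrd (dform k x) a →
      0 ≤ a ∧ v f ≤ C * (1 + a) := by
  classical
  obtain ⟨b₀, -⟩ := exists_kaehler_basis hy
  obtain ⟨b, hb⟩ := exists_basis_of_ne_zero b₀ x hx0
  have hxb : IsTranscendenceBasis k x := isTranscendenceBasis_of_basis hy x b hb
  -- an algebraic relation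
  let R := MvPolynomial (Fin n) k
  let _ : Algebra R L := (MvPolynomial.aeval x).toRingHom.toAlgebra
  have hmap : ∀ p : R, algebraMap R L p = MvPolynomial.aeval x p := fun p => rfl
  have hinj : Function.Injective (algebraMap R L) := hxb.1
  have : FaithfulSMul R L := (faithfulSMul_iff_algebraMap_injective R L).mpr hinj
  have : Algebra.IsAlgebraic R L := by
    have h1 := hxb.isAlgebraic
    let : Algebra (Algebra.adjoin k (Set.range x)) R := hxb.1.aevalEquiv.symm.toRingHom.toAlgebra
    have : IsScalarTower (Algebra.adjoin k (Set.range x)) R L :=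
      IsScalarTower.of_algebraMap_eq fun a => by
        change (a : L) = MvPolynomial.aeval x (hxb.1.aevalEquiv.symm a)
        obtain ⟨p, rfl⟩ := hxb.1.aevalEquiv.surjective a
        rw [AlgEquiv.symm_apply_apply]
        exact hxb.1.algebraMap_aevalEquiv p
    exact Algebra.IsAlgebraic.extendScalars (R := Algebra.adjoin k (Set.range x)) (S := R)
      hxb.1.aevalEquiv.symm.injective
  obtain ⟨g, hg, H, hH, hHg⟩ := (Algebra.IsAlgebraic.isAlgebraic (R := R) f).exists_nonzero_eq_adjoin_mul
    (mem_nonZeroDivisors_of_ne_zero hf)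
  rw [hmap] at hHg
  refine ⟨H.totalDegree, fun v hx hvf a ha => ?_⟩
  have ha0 : 0 ≤ a := ha.2 ⟨x, 1, hx, one_ne_zero, by simp, by rw [one_smul]⟩
  refine ⟨ha0, ?_⟩
  have h1 := v_aeval_le hy x b hb hx ha ha0 _ H (Nat.lt_succ_self _) hH
  have hpoly : ∀ p : R, MvPolynomial.aeval x p ∈ v.ring := by
    intro G
    induction G using MvPolynomial.induction_on with
    | C a => rw [MvPolynomial.algHom_C]; exact v.ring.algebraMap_mem a
    | add p q hp hq => rw [map_add]; exact v.ring.add_mem hp hq
    | mul_X p j hp => rw [map_mul, MvPolynomial.aeval_X]; exact v.ring.mul_mem hp (hx j)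
  have hgv : g ∈ v.ring := by
    clear hHg
    induction hg using Algebra.adjoin_induction with
    | mem z hz => rw [hz]; exact hvf
    | algebraMap p => rw [hmap]; exact hpoly p
    | add z w _ _ h1 h2 => exact v.ring.add_mem h1 h2
    | mul z w _ _ h1 h2 => exact v.ring.mul_mem h1 h2
  have hne : f * g ≠ 0 := by
    rw [hHg]
    exact aeval_ne_zero x b hb _ H (Nat.lt_succ_self _) hH
  have hg0 : g ≠ 0 := right_ne_zero_of_mul hne
  rw [← hHg, v.map_mul hf hg0] at h1
  have h2 : 0 ≤ v g := hgv
  linarith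

end Pool.Agent.Helper92.Ga
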