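import Pool.Agent.Helper92.Ga.Sect

set_option autoImplicit false
set_option linter.unusedSectionVars false

/-! Comparison of a divisor on `X` with a divisor on the base. -/

namespace Pool.Agent.Helper92.Ga

open Pool.Agent.Helper92.Weak Polynomial Filter

namespace GV

variable {k K L : Type*} [Field k] [Field K] [Field L] [Algebra k K] [Algebra k L] [Algebra K L]
  [IsScalarTower k K L] {t : L} {𝒱 : GV k K t} [CharZero k]

/-- The upper bound. -/
theorem bound_of_att {D : 𝒱.X.Div} (hD : 𝒱.NoPoly D) {d : ℚ}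
    (hd : 𝒱.X.IsValue (infVal k 𝒱.h) D d) {DZ : 𝒱.Z.Div}
    (att : ∀ Q : 𝒱.QQ, (∃ j : 𝒱.JJ, base j = Q ∧ mult j * DZ Q = D ⟨j.1, j.2.1⟩) ∨
      ((∀ j : 𝒱.JJ, base j ≠ Q) ∧ ∃ dv, 𝒱.X.IsValue (gaussVal 𝒱.h.isTorus Q.1) D dv ∧ dv ≤ DZ Q))
    (A : 𝒱.X.Div) (hA : 𝒱.NoPoly A) :
    ∃ (AZ : 𝒱.Z.Div) (C : ℕ), 𝒱.Z.IsInt AZ ∧ (A = 0 → AZ = 0 ∧ C = 0) ∧ ∀ n : ℕ,
      sdim (𝒱.X.H0 ((n : ℚ) • D + A)) ≤ ((n * ⌈d⌉₊ + C + 1 : ℕ) : ℕ∞) *
        sdim (𝒱.Z.H0 ((n : ℚ) • DZ + AZ)) := by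
  classical
  obtain ⟨C, hC0, hC⟩ := exists_value_bound hd A
  -- the bounds on the base
  have key : ∀ Q : 𝒱.QQ, ∃ α : ℚ, 0 ≤ α ∧ (A = 0 → α = 0) ∧
      ((∃ j : 𝒱.JJ, base j = Q) → (∀ j : 𝒱.JJ, base j = Q → A ⟨j.1, j.2.1⟩ = 0) → α = 0) ∧
      ∀ (n : ℕ) (a : K), a ≠ 0 → algebraMap K L a ∈ 𝒱.X.H0 ((n : ℚ) • D + A) →
        0 ≤ (Q.1 a : ℚ) + n * DZ Q + α := by
    intro Q
    rcases att Q with ⟨j, hj, hjD⟩ | ⟨hno, dv, hdv, hle⟩
    · refine ⟨|A ⟨j.1, j.2.1⟩|, abs_nonneg _, fun h => by rw [h]; simp, fun _ h => by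
        rw [h j hj, abs_zero], fun n a ha hmem => ?_⟩
      rw [algebraMap_mem_iff ((hD.smul _).add hA) ha] at hmem
      have h1 := hmem.1 j
      rw [Finsupp.add_apply, Finsupp.smul_apply, smul_eq_mul, hj, ← hjD] at h1
      have he : (1 : ℚ) ≤ mult j := by exact_mod_cast mult_pos j
      have h2 := le_abs_self (A ⟨j.1, j.2.1⟩)
      have h3 := abs_nonneg (A ⟨j.1, j.2.1⟩)
      have h4 : 0 ≤ (mult j : ℚ) * ((Q.1 a : ℚ) + n * DZ Q + |A ⟨j.1, j.2.1⟩|) := by
        nlinarith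
      by_contra hneg
      push Not at hneg
      have := mul_neg_of_pos_of_neg (lt_of_lt_of_le one_pos he) hneg
      linarith
    · obtain ⟨C', hC'0, hC'⟩ := exists_value_bound hdv A
      refine ⟨|C'|, abs_nonneg _, fun h => by rw [hC'0 h, abs_zero], fun h => absurd h.choose_spec
        (hno _), fun n a ha hmem => ?_⟩
      have h1 := hC' n _ (by simpa using ha) hmem
      rw [gaussVal_algebraMap] at h1
      have h2 := le_abs_self C'
      have h3 : (0 : ℚ) ≤ n := by positivity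
      have h4 := mul_le_mul_of_nonneg_left hle h3
      linarith
  choose α hα0 hαA hαj hα using key
  have hfin : {Q | α Q ≠ 0}.Finite := by
    have h1 : {j : 𝒱.JJ | A ⟨j.1, j.2.1⟩ ≠ 0}.Finite := by
      apply Set.Finite.of_finite_image (f := fun j : 𝒱.JJ => (⟨j.1, j.2.1⟩ : 𝒱.X.primeDivisors))
      · apply A.hasFiniteSupport.subset
        rintro _ ⟨j, hj, rfl⟩
        exact hj
      · intro j _ j' _ h
        exact Subtype.ext (congrArg (fun x : 𝒱.X.primeDivisors => x.1) h)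
    apply (𝒱.finite_not_base.union (h1.image base)).subset
    intro Q hQ
    by_contra hcon
    simp only [Set.mem_union, Set.mem_ofPred_eq, Set.mem_image, not_or, not_forall,
      not_exists, not_and, not_not] at hcon
    obtain ⟨⟨j, hj⟩, h2⟩ := hcon
    apply hQ
    apply hαj Q ⟨j, hj⟩
    intro j' hj'
    by_contra hne
    exact h2 j' hne hj'
  let AZ : 𝒱.Z.Div := Finsupp.onFinset hfin.toFinset (fun Q => (⌈α Q⌉ : ℚ)) (by
    intro Q hQ
    rw [Set.Finite.mem_toFinset, Set.mem_ofPred_eq]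
    intro h0
    rw [h0] at hQ
    simp at hQ)
  have hAZ : ∀ Q, AZ Q = (⌈α Q⌉ : ℚ) := fun Q => rfl
  refine ⟨AZ, ⌈C⌉₊, fun Q => ⟨⌈α Q⌉, hAZ Q⟩, fun h => ⟨?_, ?_⟩, fun n => ?_⟩
  · ext Q
    rw [hAZ, hαA Q h]
    simp
  · rw [hC0 h]
    simp
  · have hND := (hD.smul (n : ℚ)).add hA
    refine (sdim_le_cst hND (n * ⌈d⌉₊ + ⌈C⌉₊) ?_).trans ?_
    · intro p hp
      by_cases hp0 : p = 0
      · rw [hp0]; simp
      have h1 := hC n _ (𝒱.h.aeval_ne hp0) hp
      rw [infVal_aeval 𝒱.h hp0] at h1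
      push_cast at h1
      have h2 := Nat.le_ceil d
      have h3 := Nat.le_ceil C
      have h4 : (0 : ℚ) ≤ n := by positivity
      have h5 := mul_le_mul_of_nonneg_left h2 h4
      have h6 : (p.natDegree : ℚ) ≤ ((n * ⌈d⌉₊ + ⌈C⌉₊ : ℕ) : ℚ) := by
        push_cast
        linarith
      exact_mod_cast h6
    · gcongr
      apply sdim_mono
      intro a ha
      by_cases ha0 : a = 0
      · rw [ha0]; exact Submodule.zero_mem _
      rw [mem_cst] at ha
      rw [mem_H0 ha0]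
      intro Q
      have h1 := hα Q n a ha0 ha
      rw [Finsupp.add_apply, Finsupp.smul_apply, smul_eq_mul, hAZ]
      have h2 := Int.le_ceil (α Q)
      linarith

/-- Reduction to divisors without polynomial components. -/
structure Red (E : 𝒱.X.Div) where
  M : ℕ
  M_pos : 0 < M
  int : 𝒱.X.IsInt ((M : ℚ) • E)
  G : L
  G_ne : G ≠ 0
  D : 𝒱.X.Div
  D_eq : ∀ P, D P = M * E P - P.1 G
  noPoly : 𝒱.NoPoly D

lemma Red.upper {E : 𝒱.X.Div} (R : Red E) (A : 𝒱.X.Div) : ∃ A' : 𝒱.X.Div,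
    𝒱.NoPoly A' ∧ ∀ m : ℕ, sdim (𝒱.X.H0 ((m : ℚ) • E + A)) ≤
      sdim (𝒱.X.H0 (((m / R.M : ℕ) : ℚ) • R.D + A')) := by
  classical
  choose A₀ f hf hA₀ hle using fun ρ : ℕ => exists_noPoly (((ρ : ℚ)) • E + A)
  choose A₁ hA₁ hA₁2 hA₁3 using fun ρ : ℕ => IsInt.ceilAbs (A₀ ρ)
  have hmem : ∀ (s : Finset ℕ) P, (∑ ρ ∈ s, ((A₀ ρ).mapRange (fun x => |x|) (by simp))) P =
      ∑ ρ ∈ s, |A₀ ρ P| := by
    intro s P
    rw [Finsupp.finsetSum_apply]
    rfl
  refine ⟨∑ ρ ∈ Finset.range R.M, ((A₀ ρ).mapRange (fun x => |x|) (by simp)), ?_, fun m => ?_⟩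
  · intro P hP
    rw [hmem]
    apply Finset.sum_eq_zero
    intro ρ _
    rw [hA₀ ρ P hP, abs_zero]
  · apply sdim_sec_le (R.G ^ (m / R.M) * f (m % R.M))
      (mul_ne_zero (pow_ne_zero _ R.G_ne) (hf _))
    intro P
    rw [DVal.map_mul _ (pow_ne_zero _ R.G_ne) (hf _), DVal.map_pow, Finsupp.add_apply,
      Finsupp.add_apply, Finsupp.smul_apply, Finsupp.smul_apply, smul_eq_mul, smul_eq_mul, hmem,
      R.D_eq]
    have h1 := hle (m % R.M) P
    rw [Finsupp.add_apply, Finsupp.smul_apply, smul_eq_mul] at h1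
    have h2 : A₀ (m % R.M) P ≤ ∑ ρ ∈ Finset.range R.M, |A₀ ρ P| :=
      (le_abs_self _).trans (Finset.single_le_sum (f := fun ρ => |A₀ ρ P|)
        (fun ρ _ => abs_nonneg _) (Finset.mem_range.2 (Nat.mod_lt _ R.M_pos)))
    have h5 : (m : ℚ) = R.M * (m / R.M : ℕ) + (m % R.M : ℕ) := by
      exact_mod_cast (Nat.div_add_mod m R.M).symm
    have h6 : (m : ℚ) * E P + A P = R.M * (m / R.M : ℕ) * E P + ((m % R.M : ℕ) * E P + A P) := by
      rw [h5]
      ring
    rw [h6]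
    generalize ∑ ρ ∈ Finset.range R.M, |A₀ ρ P| = S at h2 ⊢
    generalize m / R.M = l
    generalize m % R.M = ρ at h1 h2 ⊢
    push_cast at h1 ⊢
    linarith

lemma Red.upper0 {E : 𝒱.X.Div} (R : Red E) (n : ℕ) :
    sdim (𝒱.X.H0 (((R.M * n : ℕ) : ℚ) • E)) ≤ sdim (𝒱.X.H0 ((n : ℚ) • R.D)) := by
  apply sdim_sec_le (R.G ^ n) (pow_ne_zero _ R.G_ne)
  intro P
  rw [DVal.map_pow, Finsupp.smul_apply, Finsupp.smul_apply, smul_eq_mul, smul_eq_mul, R.D_eq]
  push_cast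
  linarith

lemma Red.lower {E : 𝒱.X.Div} (R : Red E) (A : 𝒱.X.Div) (n : ℕ) :
    sdim (𝒱.X.H0 ((n : ℚ) • R.D + A)) ≤ sdim (𝒱.X.H0 (((R.M * n : ℕ) : ℚ) • E + A)) := by
  apply sdim_sec_le (R.G ^ n)⁻¹ (inv_ne_zero (pow_ne_zero _ R.G_ne))
  intro P
  rw [DVal.map_inv, DVal.map_pow, Finsupp.add_apply, Finsupp.add_apply, Finsupp.smul_apply,
    Finsupp.smul_apply, smul_eq_mul, smul_eq_mul, R.D_eq]
  push_cast
  linarith

/-- Constants are sections. -/
lemma cst_lower {D : 𝒱.X.Div} (hD : 𝒱.NoPoly D) {d : ℚ}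
    (hd : 𝒱.X.IsValue (infVal k 𝒱.h) D d) (hd0 : 0 ≤ d) {DZ : 𝒱.Z.Div}
    (low : ∀ j : 𝒱.JJ, mult j * DZ (base j) ≤ D ⟨j.1, j.2.1⟩) (A : 𝒱.Z.Div) (n : ℕ) {a : K}
    (ha : a ∈ 𝒱.Z.H0 ((n : ℚ) • DZ + A)) :
    algebraMap K L a ∈ 𝒱.X.H0 ((n : ℚ) • D + pullDiv A) := by
  by_cases ha0 : a = 0
  · rw [ha0, map_zero]; exact Submodule.zero_mem _
  rw [mem_H0 ha0] at ha
  rw [algebraMap_mem_iff ((hD.smul _).add (pullDiv_noPoly A)) ha0]
  have hn : (0 : ℚ) ≤ n := by positivity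
  constructor
  · intro j
    have h1 := ha (base j)
    have h2 := mul_le_mul_of_nonneg_left (low j) hn
    have h3 : pullDiv A (⟨j.1, j.2.1⟩ : 𝒱.X.primeDivisors) = mult j * A (base j) :=
      pullFun_vert A j
    rw [Finsupp.add_apply, Finsupp.smul_apply, smul_eq_mul] at h1 ⊢
    rw [h3]
    have he : (0 : ℚ) ≤ mult j := by positivity
    have h4 := mul_nonneg he h1
    linarith
  · intro hi
    rw [Finsupp.add_apply, Finsupp.smul_apply, smul_eq_mul, pullDiv_inf, add_zero,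
      ← IsValue.eq_coeff hi hd]
    positivity

/-- The comparison theorem when the degree on the generic fibre is zero. -/
theorem comparison_zero {E : 𝒱.X.Div} (R : Red E)
    (hd : 𝒱.X.IsValue (infVal k 𝒱.h) R.D 0) {DZ : 𝒱.Z.Div} (hint : 𝒱.Z.IsInt DZ)
    (low : ∀ j : 𝒱.JJ, mult j * DZ (base j) ≤ R.D ⟨j.1, j.2.1⟩)
    (att : ∀ Q : 𝒱.QQ, (∃ j : 𝒱.JJ, base j = Q ∧ mult j * DZ Q = R.D ⟨j.1, j.2.1⟩) ∨
      ((∀ j : 𝒱.JJ, base j ≠ Q) ∧ ∃ dv, 𝒱.X.IsValue (gaussVal 𝒱.h.isTorus Q.1) R.D dv ∧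
        dv ≤ DZ Q))
    {η : K} (hη : η ≠ 0) (heff : ∀ Q : 𝒱.Z.primeDivisors, 0 ≤ (Q.1 η : ℚ) + DZ Q) :
    Comparison 𝒱.X 𝒱.Z E DZ 0 := by
  refine ⟨hint, ⟨η, hη, heff⟩, ?_, ?_, ?_⟩
  · intro A
    obtain ⟨A', hA', h1⟩ := R.upper A
    obtain ⟨AZ, C, hAZ, -, h2⟩ := bound_of_att R.noPoly hd att A' hA'
    refine ⟨AZ, C + 1, 1, 0, fun m => m / R.M, hAZ, Nat.tendsto_div_const_atTop R.M_pos.ne',
      fun m => by rw [one_mul]; exact Nat.div_le_self _ _, ?_⟩
    filter_upwards with m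
    refine (h1 m).trans ((h2 _).trans ?_)
    rw [Nat.ceil_zero, mul_zero, zero_add, pow_zero, mul_one]
  · refine ⟨R.M, 1, 1, R.M_pos, one_pos, fun n _ => ?_⟩
    obtain ⟨AZ, C, hAZ, h0, h2⟩ := bound_of_att R.noPoly hd att 0 (fun P _ => rfl)
    obtain ⟨hAZ0, hC0⟩ := h0 rfl
    have h3 := h2 n
    rw [hAZ0, hC0, add_zero, add_zero, Nat.ceil_zero, mul_zero] at h3
    refine (R.upper0 n).trans (h3.trans ?_)
    rw [pow_zero, mul_one, one_mul]
    simp
  · refine ⟨R.M, R.M_pos, fun A hA => ⟨pullDiv A, fun h => by rw [h, pullDiv_zero], fun n _ => ?_⟩⟩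
    rw [pow_zero, one_mul, 𝒱.Z.h0_of_int ((hint.nsmul n).add hA), 𝒱.X.h0_of_int]
    · refine le_trans ?_ (R.lower (pullDiv A) n)
      let φ : 𝒱.Z.H0 ((n : ℚ) • DZ + A) →ₗ[k] 𝒱.X.H0 ((n : ℚ) • R.D + pullDiv A) :=
        { toFun := fun a => ⟨algebraMap K L a.1, cst_lower R.noPoly hd le_rfl low A n a.2⟩
          map_add' := fun a b => by
            apply Subtype.ext
            change algebraMap K L (a.1 + b.1) = _
            rw [map_add]
            rfl
          map_smul' := fun c a => by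
            apply Subtype.ext
            change algebraMap K L (c • a.1) = c • algebraMap K L a.1
            rw [Algebra.smul_def, Algebra.smul_def, map_mul, ← IsScalarTower.algebraMap_apply] }
      apply sdim_le_of_injective φ
      intro a b hab
      have h1 : algebraMap K L a.1 = algebraMap K L b.1 := congrArg Subtype.val hab
      exact Subtype.ext ((algebraMap K L).injective h1)
    · apply ProjVar.IsInt.add _ (pullDiv_int hA)
      have h3 := R.int.nsmul n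
      rw [smul_smul] at h3
      have h4 : (n : ℚ) * R.M = ((R.M * n : ℕ) : ℚ) := by push_cast; ring
      rwa [h4] at h3

/-- The comparison theorem when the degree on the generic fibre is positive. -/
theorem comparison_one {E : 𝒱.X.Div} (R : Red E) {d : ℚ}
    (hd : 𝒱.X.IsValue (infVal k 𝒱.h) R.D d) (hd0 : 0 ≤ d) {DZ : 𝒱.Z.Div}
    (hint : 𝒱.Z.IsInt DZ)
    (low : ∀ j : 𝒱.JJ, mult j * DZ (base j) ≤ R.D ⟨j.1, j.2.1⟩)
    (att : ∀ Q : 𝒱.QQ, (∃ j : 𝒱.JJ, base j = Q ∧ mult j * DZ Q = R.D ⟨j.1, j.2.1⟩) ∨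
      ((∀ j : 𝒱.JJ, base j ≠ Q) ∧ ∃ dv, 𝒱.X.IsValue (gaussVal 𝒱.h.isTorus Q.1) R.D dv ∧
        dv ≤ DZ Q))
    {η : K} (hη : η ≠ 0) (heff : ∀ Q : 𝒱.Z.primeDivisors, 0 ≤ (Q.1 η : ℚ) + DZ Q)
    {p : K[X]} (hp : 0 < p.natDegree) (hpD : aeval t p ∈ 𝒱.X.H0 R.D) :
    Comparison 𝒱.X 𝒱.Z E DZ 1 := by
  classical
  refine ⟨hint, ⟨η, hη, heff⟩, ?_, ?_, ?_⟩
  · intro A
    obtain ⟨A', hA', h1⟩ := R.upper A
    obtain ⟨AZ, C, hAZ, -, h2⟩ := bound_of_att R.noPoly hd att A' hA'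
    refine ⟨AZ, ⌈d⌉₊ + C + 1, 1, 0, fun m => m / R.M, hAZ,
      Nat.tendsto_div_const_atTop R.M_pos.ne',
      fun m => by rw [one_mul]; exact Nat.div_le_self _ _, ?_⟩
    filter_upwards [eventually_ge_atTop 1] with m hm
    refine (h1 m).trans ((h2 _).trans ?_)
    rw [pow_one]
    gcongr
    have h3 : m / R.M * ⌈d⌉₊ + C + 1 ≤ (⌈d⌉₊ + C + 1) * m := by
      have h4 : m / R.M ≤ m := Nat.div_le_self _ _
      calc m / R.M * ⌈d⌉₊ + C + 1 ≤ m * ⌈d⌉₊ + C * m + 1 * m := by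
            gcongr
            · exact Nat.le_mul_of_pos_right _ hm
            · rw [one_mul]; exact hm
        _ = _ := by ring
    exact_mod_cast h3
  · refine ⟨R.M, ⌈d⌉₊ + 1, 1, R.M_pos, one_pos, fun n hn => ?_⟩
    obtain ⟨AZ, C, hAZ, h0, h2⟩ := bound_of_att R.noPoly hd att 0 (fun P _ => rfl)
    obtain ⟨hAZ0, hC0⟩ := h0 rfl
    have h3 := h2 n
    rw [hAZ0, hC0, add_zero, add_zero, add_zero] at h3
    refine (R.upper0 n).trans (h3.trans ?_)
    rw [pow_one, one_mul]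
    gcongr
    have h4 : n * ⌈d⌉₊ + 1 ≤ (⌈d⌉₊ + 1) * n := by
      calc n * ⌈d⌉₊ + 1 ≤ n * ⌈d⌉₊ + n := by omega
        _ = _ := by ring
    exact_mod_cast h4
  · refine ⟨R.M * 2, Nat.mul_pos R.M_pos two_pos, fun A hA => ⟨pullDiv A, fun h => by
      rw [h, pullDiv_zero], fun n _ => ?_⟩⟩
    rw [pow_one, 𝒱.Z.h0_of_int ((hint.nsmul n).add hA), 𝒱.X.h0_of_int]
    · have hlow := R.lower (pullDiv A) (2 * n)
      have he : (R.M * 2) * n = R.M * (2 * n) := by ring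
      rw [he]
      refine le_trans ?_ hlow
      have hηX : algebraMap K L η ∈ 𝒱.X.H0 R.D := by
        have h1 : η ∈ 𝒱.Z.H0 (((1 : ℕ) : ℚ) • DZ + 0) := by
          rw [mem_H0 hη]
          intro Q
          rw [add_zero, Nat.cast_one, one_smul]
          exact heff Q
        have h2 := cst_lower R.noPoly hd hd0 low 0 1 h1
        rwa [pullDiv_zero, add_zero, Nat.cast_one, one_smul] at h2
      have hp0 : p ≠ 0 := by
        rintro rfl
        simp at hp
      have hP0 : aeval t p ≠ 0 := 𝒱.h.aeval_ne hp0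
      have hη0 : algebraMap K L η ≠ 0 := by simpa using hη
      -- the terms
      have hterm : ∀ (i : Fin n) (a : K), a ∈ 𝒱.Z.H0 ((n : ℚ) • DZ + A) →
          algebraMap K L a * ((aeval t p) ^ (i : ℕ) * (algebraMap K L η) ^ (n - i)) ∈
            𝒱.X.H0 (((2 * n : ℕ) : ℚ) • R.D + pullDiv A) := by
        intro i a ha
        have h1 := cst_lower R.noPoly hd hd0 low A n ha
        have h2 := pow_mem_H0 hP0 hpD (i : ℕ)
        have h3 := pow_mem_H0 hη0 hηX (n - i)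
        have h4 := mul_mem_H0 h1 (mul_mem_H0 h2 h3)
        have h5 : ((n : ℚ) • R.D + pullDiv A) + (((i : ℕ) : ℚ) • R.D + ((n - i : ℕ) : ℚ) • R.D) =
            ((2 * n : ℕ) : ℚ) • R.D + pullDiv A := by
          have h6 : ((i : ℕ) : ℚ) • R.D + ((n - i : ℕ) : ℚ) • R.D = (n : ℚ) • R.D := by
            rw [← add_smul]
            congr 1
            rw [Nat.cast_sub i.2.le]
            ring
          rw [h6]
          push_cast
          rw [two_mul, add_smul]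
          abel
        rwa [h5] at h4
      have hcard : ((Fintype.card (Fin n) : ℕ) : ℕ∞) = n := by rw [Fintype.card_fin]
      rw [← hcard]
      let W := 𝒱.Z.H0 ((n : ℚ) • DZ + A)
      let φ : (Fin n →₀ W) →ₗ[k] L :=
        Finsupp.lsum k fun i : Fin n =>
          { toFun := fun a : W =>
              algebraMap K L a.1 * ((aeval t p) ^ (i : ℕ) * (algebraMap K L η) ^ (n - i))
            map_add' := fun a b => by
              change algebraMap K L (a.1 + b.1) * _ = _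
              rw [map_add, add_mul]
            map_smul' := fun c a => by
              change algebraMap K L (c • a.1) * _ = c • (algebraMap K L a.1 * _)
              rw [Algebra.smul_def, Algebra.smul_def, map_mul, ← IsScalarTower.algebraMap_apply,
                mul_assoc] }
      have hφ : ∀ x, φ x = ∑ i : Fin n, algebraMap K L (x i).1 *
          ((aeval t p) ^ (i : ℕ) * (algebraMap K L η) ^ (n - i)) := by
        intro x
        change x.sum _ = _
        rw [Finsupp.sum_fintype]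
        · rfl
        · intro i
          rw [map_zero]
      have hmem : ∀ x, φ x ∈ 𝒱.X.H0 (((2 * n : ℕ) : ℚ) • R.D + pullDiv A) := by
        intro x
        rw [hφ]
        exact Submodule.sum_mem _ fun i _ => hterm i _ (x i).2
      refine card_mul_le_sdim (φ.codRestrict _ hmem) ?_
      rw [injective_iff_map_eq_zero]
      intro x hx'
      have hx : φ x = 0 := congrArg Subtype.val hx'
      rw [hφ] at hx
      -- a polynomial relation
      let q : K[X] := ∑ i : Fin n, C ((x i).1 * η ^ (n - i)) * Polynomial.X ^ (i : ℕ)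
      have hq : aeval t (q.comp p) = 0 := by
        rw [aeval_comp]
        simp only [q, map_sum, map_mul, map_pow, aeval_C, aeval_X]
        rw [← hx]
        refine Finset.sum_congr rfl fun i _ => ?_
        ring
      have hq2 : q.comp p = 0 := 𝒱.h.aeval_eq_zero.1 hq
      have hq3 : q = 0 := by
        rcases Polynomial.comp_eq_zero_iff.1 hq2 with h | ⟨-, h⟩
        · exact h
        · rw [h] at hp
          simp at hp
      ext i
      have h1 : q.coeff i = (x i).1 * η ^ (n - i) := by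
        simp only [q, finsetSum_coeff, coeff_C_mul, coeff_X_pow]
        rw [Finset.sum_eq_single i]
        · simp
        · intro j _ hj
          rw [if_neg, mul_zero]
          intro h
          exact hj (Fin.ext h.symm)
        · simp
      rw [hq3, coeff_zero] at h1
      have h2 : (x i).1 = 0 := by
        rcases mul_eq_zero.1 h1.symm with h | h
        · exact h
        · exact absurd h (pow_ne_zero _ hη)
      rw [h2]
      rfl
    · apply ProjVar.IsInt.add _ (pullDiv_int hA)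
      have h3 := R.int.nsmul (2 * n)
      rw [smul_smul] at h3
      have h4 : ((2 * n : ℕ) : ℚ) * R.M = ((R.M * 2 * n : ℕ) : ℚ) := by push_cast; ring
      rwa [h4] at h3

/-- Negative degree on the generic fibre. -/
theorem neg_case {E : 𝒱.X.Div} (R : Red E) {d : ℚ}
    (hd : 𝒱.X.IsValue (infVal k 𝒱.h) R.D d) (hd0 : d < 0) :
    𝒱.X.kod E = ⊥ ∧ 𝒱.X.nu E = ⊥ := by
  have key : ∀ (A : 𝒱.X.Div), 𝒱.NoPoly A → ∃ C : ℚ, (A = 0 → C = 0) ∧ ∀ n : ℕ, C < -(n * d) →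
      𝒱.X.H0 ((n : ℚ) • R.D + A) = ⊥ := by
    intro A hA
    obtain ⟨C, hC0, hC⟩ := exists_value_bound hd A
    refine ⟨C, hC0, fun n hn => ?_⟩
    rw [Submodule.eq_bot_iff]
    intro f hf
    by_contra hf0
    obtain ⟨p, rfl⟩ := exists_poly ((R.noPoly.smul _).add hA) hf
    have hp0 : p ≠ 0 := by
      rintro rfl
      simp at hf0
    have h1 := hC n _ hf0 hf
    rw [infVal_aeval 𝒱.h hp0] at h1
    push_cast at h1
    have h2 : (0 : ℚ) ≤ p.natDegree := by positivity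
    linarith
  constructor
  · unfold ProjVar.kod kodDim
    rw [if_pos]
    intro m hm
    by_contra hne
    have h1 : sdim (𝒱.X.H0 ((m : ℚ) • E)) ≠ 0 := by
      intro h0
      have := 𝒱.X.h0_le ((m : ℚ) • E)
      rw [h0] at this
      exact hne (le_antisymm this zero_le)
    rw [sdim_ne_zero] at h1
    obtain ⟨f, hf, hf0⟩ := h1
    have h2 := pow_mem_H0 hf0 hf R.M
    rw [smul_smul] at h2
    have h3 : (R.M : ℚ) * m = ((R.M * m : ℕ) : ℚ) := by push_cast; rfl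
    rw [h3] at h2
    have h4 : sdim (𝒱.X.H0 (((R.M * m : ℕ) : ℚ) • E)) ≠ 0 := by
      rw [sdim_ne_zero]
      exact ⟨_, h2, pow_ne_zero _ hf0⟩
    obtain ⟨C, hC0, hC⟩ := key 0 (fun P _ => rfl)
    rw [hC0 rfl] at hC
    have h5 := hC m (by
      have : (0 : ℚ) < m := by exact_mod_cast hm
      nlinarith)
    rw [add_zero] at h5
    have h6 := R.upper0 m
    rw [h5, sdim_bot] at h6
    exact h4 (le_antisymm h6 zero_le)
  · unfold ProjVar.nu
    rw [iSup_eq_bot]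
    intro A
    apply logGrowth_eq_bot
    obtain ⟨A', hA', h1⟩ := R.upper A
    obtain ⟨C, -, hC⟩ := key A' hA'
    obtain ⟨n₀, hn₀⟩ : ∃ n₀ : ℕ, C / -d < n₀ := exists_nat_gt _
    filter_upwards [eventually_ge_atTop (R.M * n₀)] with m hm
    have hn : n₀ ≤ m / R.M := by
      rw [Nat.le_div_iff_mul_le R.M_pos, mul_comm]
      exact hm
    have h2 := hC (m / R.M) (by
      rw [div_lt_iff₀ (by linarith)] at hn₀
      have h3 : (n₀ : ℚ) ≤ ((m / R.M : ℕ) : ℚ) := by exact_mod_cast hn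
      nlinarith)
    have h3 := (𝒱.X.h0_le ((m : ℚ) • E + A)).trans (h1 m)
    rw [h2, sdim_bot] at h3
    exact le_antisymm h3 zero_le

end GV

end Pool.Agent.Helper92.Ga
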