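import Pool.Agent.Helper92.Ga.Struct
import Pool.Agent.Helper92.Ga.Comp

set_option autoImplicit false
set_option linter.unusedSectionVars false

/-! Sections of divisors on varieties with an action of the additive group. -/

namespace Pool.Agent.Helper92.Ga

open Pool.Agent.Helper92.Weak Polynomial Filter

section general

variable {k L : Type*} [Field k] [Field L] [Algebra k L] {X : ProjVar k L}

lemma mem_H0 {D : X.Div} {f : L} (hf : f ≠ 0) :
    f ∈ X.H0 D ↔ ∀ P : X.primeDivisors, 0 ≤ (P.1 f : ℚ) + D P := by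
  unfold ProjVar.H0
  rw [mem_sec_of_ne hf]

lemma mul_mem_H0 {D D' : X.Div} {f g : L} (hf : f ∈ X.H0 D) (hg : g ∈ X.H0 D') :
    f * g ∈ X.H0 (D + D') := by
  by_cases hf0 : f = 0
  · rw [hf0, zero_mul]; exact Submodule.zero_mem _
  by_cases hg0 : g = 0
  · rw [hg0, mul_zero]; exact Submodule.zero_mem _
  rw [mem_H0 hf0] at hf
  rw [mem_H0 hg0] at hg
  rw [mem_H0 (mul_ne_zero hf0 hg0)]
  intro P
  rw [DVal.map_mul _ hf0 hg0, Finsupp.add_apply]
  push_cast
  linarith [hf P, hg P]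

lemma pow_mem_H0 {D : X.Div} {f : L} (hf0 : f ≠ 0) (hf : f ∈ X.H0 D) (n : ℕ) :
    f ^ n ∈ X.H0 ((n : ℚ) • D) := by
  rw [mem_H0 hf0] at hf
  rw [mem_H0 (pow_ne_zero _ hf0)]
  intro P
  rw [DVal.map_pow, Finsupp.smul_apply, smul_eq_mul]
  have h1 : (0 : ℚ) ≤ n := by positivity
  have := mul_nonneg h1 (hf P)
  push_cast
  linarith

/-- Rank and nullity. -/
lemma sdim_le_add {V W : Type*} [AddCommGroup V] [Module k V] [AddCommGroup W] [Module k W]
    {A A' : Submodule k V} {B : Submodule k W} (φ : V →ₗ[k] W) (h : ∀ x ∈ A, φ x ∈ B)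
    (hk : ∀ x ∈ A, φ x = 0 → x ∈ A') : sdim A ≤ sdim A' + sdim B := by
  let ψ : A →ₗ[k] B := (φ.comp A.subtype).codRestrict B fun x => h x.1 x.2
  have h1 := LinearMap.lift_rank_range_add_rank_ker ψ
  have h2 : Cardinal.toENat (Module.rank k A) =
      Cardinal.toENat (Module.rank k (LinearMap.range ψ)) +
        Cardinal.toENat (Module.rank k (LinearMap.ker ψ)) := by
    have h3 := congrArg Cardinal.toENat h1
    rw [map_add, Cardinal.toENat_lift, Cardinal.toENat_lift, Cardinal.toENat_lift] at h3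
    exact h3.symm
  unfold sdim
  rw [h2, add_comm]
  gcongr
  · -- the kernel
    let θ : LinearMap.ker ψ →ₗ[k] A' :=
      { toFun := fun x => ⟨x.1.1, hk x.1.1 x.1.2 (by
          have := x.2
          rw [LinearMap.mem_ker] at this
          exact congrArg Subtype.val this)⟩
        map_add' := fun a b => rfl
        map_smul' := fun c a => rfl }
    have hθ : Function.Injective θ := by
      intro a b hab
      have := congrArg Subtype.val hab
      exact Subtype.ext (Subtype.ext this)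
    exact LinearMap.rank_le_of_injective θ hθ
  · exact Submodule.rank_le _

end general

namespace GV

variable {k K L : Type*} [Field k] [Field K] [Field L] [Algebra k K] [Algebra k L] [Algebra K L]
  [IsScalarTower k K L] {t : L} (𝒱 : GV k K t) [CharZero k]

/-- The divisor has no components given by prime polynomials. -/
def NoPoly (D : 𝒱.X.Div) : Prop :=
  ∀ (P : 𝒱.X.primeDivisors), (∃ (p : K[X]) (hp : Prime p), P.1 = pVal k 𝒱.h p hp) → D P = 0

variable {𝒱}

lemma NoPoly.add {D D' : 𝒱.X.Div} (h : 𝒱.NoPoly D) (h' : 𝒱.NoPoly D') : 𝒱.NoPoly (D + D') := by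
  intro P hP
  rw [Finsupp.add_apply, h P hP, h' P hP, add_zero]

lemma NoPoly.smul {D : 𝒱.X.Div} (h : 𝒱.NoPoly D) (c : ℚ) : 𝒱.NoPoly (c • D) := by
  intro P hP
  rw [Finsupp.smul_apply, h P hP, smul_zero]

lemma inf_inv (h : IsLine K t) : IsInvS k h (infVal k h) := by
  intro c
  apply eq_infVal h
  · intro a
    rw [DVal.comap_apply, shift_algebraMap, infVal_algebraMap]
  · rw [DVal.comap_apply, shift_t]
    have h1 : t + algebraMap k L c = aeval t (Polynomial.X + C (algebraMap k K c) : K[X]) := by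
      rw [map_add, aeval_X, aeval_C, ← IsScalarTower.algebraMap_apply]
    have h2 : (Polynomial.X + C (algebraMap k K c) : K[X]) ≠ 0 := X_add_C_ne_zero _
    rw [h1, infVal_aeval h h2, natDegree_X_add_C]
    norm_num

/-- Section spaces are stable under translations. -/
lemma shift_mem {D : 𝒱.X.Div} (hD : 𝒱.NoPoly D) (c : k) {f : L} (hf : f ∈ 𝒱.X.H0 D) :
    shift 𝒱.h c f ∈ 𝒱.X.H0 D := by
  by_cases hf0 : f = 0
  · rw [hf0, map_zero]; exact Submodule.zero_mem _
  have hf0' : shift 𝒱.h c f ≠ 0 := fun h0 => hf0 ((map_eq_zero_iff _ (shift 𝒱.h c).injective).1 h0)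
  rw [mem_H0 hf0] at hf
  rw [mem_H0 hf0']
  intro P
  rcases 𝒱.trichotomy P.1 with ⟨p, hp, hPp⟩ | hinf | ⟨a, ha⟩
  · have hP' := 𝒱.stable c P.1 P.2
    obtain ⟨p', hp', hPp'⟩ : ∃ (p' : K[X]) (hp' : Prime p'),
        P.1.comap (shift 𝒱.h c) = pVal k 𝒱.h p' hp' := by
      apply exists_pVal 𝒱.h
      · intro a
        rw [DVal.comap_apply, shift_algebraMap, hPp, pVal_algebraMap]
      · rw [DVal.comap_apply, shift_t, hPp]
        have h1 : t + algebraMap k L c = aeval t (Polynomial.X + C (algebraMap k K c) : K[X]) := by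
          rw [map_add, aeval_X, aeval_C, ← IsScalarTower.algebraMap_apply]
        rw [h1]
        exact pVal_nonneg k 𝒱.h hp _
    have h1 := hf ⟨_, hP'⟩
    rw [hD ⟨_, hP'⟩ ⟨p', hp', hPp'⟩, add_zero] at h1
    rw [hD P ⟨p, hp, hPp⟩, add_zero]
    exact h1
  · have h1 : P.1 (shift 𝒱.h c f) = P.1 f := by
      rw [hinf]
      exact (inf_inv 𝒱.h).apply c f
    rw [h1]
    exact hf P
  · have h1 : P.1 (shift 𝒱.h c f) = P.1 f := (𝒱.vert_inv ⟨P.1, P.2, a, ha⟩).apply c f
    rw [h1]
    exact hf P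

/-- Sections are polynomials. -/
lemma exists_poly {D : 𝒱.X.Div} (hD : 𝒱.NoPoly D) {f : L} (hf : f ∈ 𝒱.X.H0 D) :
    ∃ p : K[X], f = aeval t p := by
  by_cases hf0 : f = 0
  · exact ⟨0, by rw [hf0, map_zero]⟩
  apply exists_poly_of_nonneg k 𝒱.h
  intro p hp
  rw [mem_H0 hf0] at hf
  have h1 := hf ⟨_, 𝒱.pVal_mem p hp⟩
  rw [hD _ ⟨p, hp, rfl⟩, add_zero] at h1
  exact_mod_cast h1

/-- The constants among the sections. -/
noncomputable def cst (D : 𝒱.X.Div) : Submodule k K :=
  (𝒱.X.H0 D).comap (IsScalarTower.toAlgHom k K L).toLinearMap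

lemma mem_cst {D : 𝒱.X.Div} {a : K} : a ∈ cst D ↔ algebraMap K L a ∈ 𝒱.X.H0 D := Iff.rfl

/-- The section spaces are bounded by the constants. -/
theorem sdim_le_cst {D : 𝒱.X.Div} (hD : 𝒱.NoPoly D) (N : ℕ)
    (hN : ∀ p : K[X], aeval t p ∈ 𝒱.X.H0 D → p.natDegree ≤ N) :
    sdim (𝒱.X.H0 D) ≤ (N + 1 : ℕ) * sdim (cst D) := by
  classical
  let V : ℕ → Submodule k K[X] := fun n =>
    ((degreeLT K n).restrictScalars k) ⊓
      (𝒱.X.H0 D).comap ((aeval t : K[X] →ₐ[K] L).restrictScalars k).toLinearMap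
  have hV : ∀ n p, p ∈ V n ↔ p.degree < n ∧ aeval t p ∈ 𝒱.X.H0 D := by
    intro n p
    simp only [V, Submodule.mem_inf, Submodule.restrictScalars_mem, mem_degreeLT]
    rfl
  have h1 : sdim (𝒱.X.H0 D) ≤ sdim (V (N + 1)) := by
    choose P hP using fun f : 𝒱.X.H0 D => exists_poly hD f.2
    have hlin : ∀ p q : K[X], aeval t p = aeval t q → p = q := fun p q hpq => 𝒱.h.inj hpq
    let φ : 𝒱.X.H0 D →ₗ[k] V (N + 1) :=
      { toFun := fun f => ⟨P f, by
          rw [hV]
          refine ⟨?_, by rw [← hP]; exact f.2⟩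
          by_cases h0 : P f = 0
          · rw [h0, degree_zero]; exact WithBot.bot_lt_coe _
          · rw [degree_eq_natDegree h0]
            have := hN (P f) (by rw [← hP]; exact f.2)
            exact_mod_cast Nat.lt_succ_of_le this⟩
        map_add' := fun f g => by
          apply Subtype.ext
          apply hlin
          change aeval t (P (f + g)) = aeval t (P f + P g)
          rw [map_add, ← hP, ← hP, ← hP]
          rfl
        map_smul' := fun c f => by
          apply Subtype.ext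
          apply hlin
          change aeval t (P (c • f)) = aeval t (c • P f)
          rw [← hP, Algebra.smul_def c (P f), map_mul, ← hP]
          have h2 : aeval t (algebraMap k K[X] c) = algebraMap k L c := by
            rw [IsScalarTower.algebraMap_apply k K K[X], AlgHom.commutes,
              ← IsScalarTower.algebraMap_apply]
          rw [h2, ← Algebra.smul_def]
          rfl }
    apply sdim_le_of_injective φ
    intro f g hfg
    have h2 : P f = P g := congrArg Subtype.val hfg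
    apply Subtype.ext
    rw [hP f, hP g, h2]
  have h2 : ∀ n, sdim (V n) ≤ (n : ℕ) * sdim (cst D) := by
    intro n
    induction n with
    | zero =>
      have h3 : V 0 = ⊥ := by
        rw [Submodule.eq_bot_iff]
        intro p hp
        rw [hV] at hp
        have h4 := hp.1
        by_contra h0
        rw [degree_eq_natDegree h0] at h4
        have : p.natDegree < 0 := by exact_mod_cast h4
        omega
      rw [h3, sdim_bot]
      exact zero_le
    | succ n ih =>
      have h3 : sdim (V (n + 1)) ≤ sdim (V n) + sdim (cst D) := by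
        apply sdim_le_add ((lcoeff K n).restrictScalars k)
        · intro p hp
          rw [hV] at hp
          rw [mem_cst]
          change algebraMap K L (p.coeff n) ∈ _
          have h4 : hasseDeriv n p = C (p.coeff n) := by
            ext i
            rw [hasseDeriv_coeff, coeff_C]
            split_ifs with hi
            · subst hi
              rw [zero_add, Nat.choose_self, Nat.cast_one, one_mul]
            · have h5 : p.coeff (i + n) = 0 := by
                apply coeff_eq_zero_of_degree_lt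
                refine lt_of_lt_of_le hp.1 ?_
                exact_mod_cast (by omega : n + 1 ≤ i + n)
              rw [h5, mul_zero]
          rw [← aeval_C t (p.coeff n), ← h4]
          exact hasseDeriv_mem 𝒱.h (𝒱.X.H0 D) (fun c z hz => shift_mem hD c hz) hp.2 n
        · intro p hp h0
          rw [hV] at hp ⊢
          refine ⟨?_, hp.2⟩
          have h5 : p.coeff n = 0 := h0
          rw [degree_lt_iff_coeff_zero] at hp ⊢
          intro m hm
          rcases Nat.eq_or_lt_of_le hm with h6 | h6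
          · rw [← h6]; exact h5
          · exact hp.1 m h6
      refine h3.trans ?_
      push_cast
      rw [add_mul, one_mul]
      gcongr
  exact h1.trans (h2 (N + 1))

/-- Membership for constants. -/
lemma algebraMap_mem_iff {D : 𝒱.X.Div} (hD : 𝒱.NoPoly D) {a : K} (ha : a ≠ 0) :
    algebraMap K L a ∈ 𝒱.X.H0 D ↔
      (∀ j : 𝒱.JJ, 0 ≤ (mult j : ℚ) * ((base j).1 a : ℚ) + D ⟨j.1, j.2.1⟩) ∧
      ∀ hi : infVal k 𝒱.h ∈ 𝒱.X.primeDivisors, 0 ≤ D ⟨_, hi⟩ := by
  have ha' : algebraMap K L a ≠ 0 := by simpa using ha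
  rw [mem_H0 ha']
  constructor
  · intro h
    refine ⟨fun j => ?_, fun hi => ?_⟩
    · have h1 := h ⟨j.1, j.2.1⟩
      change 0 ≤ (j.1 (algebraMap K L a) : ℚ) + _ at h1
      rw [mult_spec] at h1
      push_cast at h1
      exact h1
    · have h1 := h ⟨_, hi⟩
      change 0 ≤ (infVal k 𝒱.h (algebraMap K L a) : ℚ) + _ at h1
      rw [infVal_algebraMap, Int.cast_zero, zero_add] at h1
      exact h1
  · rintro ⟨h1, h2⟩ P
    rcases 𝒱.trichotomy P.1 with ⟨p, hp, hPp⟩ | hinf | ⟨b, hb⟩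
    · rw [hD P ⟨p, hp, hPp⟩, hPp, pVal_algebraMap]
      simp
    · have h3 := h2 (by rw [← hinf]; exact P.2)
      have h4 : P = ⟨infVal k 𝒱.h, by rw [← hinf]; exact P.2⟩ := Subtype.ext hinf
      rw [h4]
      change 0 ≤ (infVal k 𝒱.h (algebraMap K L a) : ℚ) + _
      rw [infVal_algebraMap, Int.cast_zero, zero_add]
      exact h3
    · have h3 := h1 ⟨P.1, P.2, b, hb⟩
      rw [← Int.cast_natCast (mult _), ← Int.cast_mul, ← mult_spec] at h3
      exact h3

/-- A function with prescribed zeros along the prime polynomials. -/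
lemma exists_fun (A : 𝒱.X.Div) : ∃ f : L, f ≠ 0 ∧ ∀ P : 𝒱.X.primeDivisors,
    (∃ (p : K[X]) (hp : Prime p), P.1 = pVal k 𝒱.h p hp) → A P ≤ P.1 f := by
  classical
  induction A using Finsupp.induction with
  | zero => exact ⟨1, one_ne_zero, fun P _ => by simp⟩
  | single_add P₀ b A _ _ ih =>
    obtain ⟨f, hf, h⟩ := ih
    by_cases hex : ∃ (p : K[X]) (hp : Prime p), P₀.1 = pVal k 𝒱.h p hp
    · obtain ⟨p, hp, hPp⟩ := hex
      have hp0 : aeval t p ≠ 0 := 𝒱.h.aeval_ne hp.ne_zero
      refine ⟨aeval t p ^ ⌈b⌉₊ * f, mul_ne_zero (pow_ne_zero _ hp0) hf, fun P hP => ?_⟩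
      rw [DVal.map_mul _ (pow_ne_zero _ hp0) hf, DVal.map_pow, Finsupp.add_apply,
        Finsupp.single_apply]
      have h1 := h P hP
      have h2 : 0 ≤ P.1 (aeval t p) := by
        obtain ⟨p', hp', hPp'⟩ := hP
        rw [hPp']
        exact pVal_nonneg k 𝒱.h hp' p
      have h3 : (0 : ℚ) ≤ P.1 (aeval t p) := by exact_mod_cast h2
      push_cast
      split_ifs with heq
      · have h4 : P.1 (aeval t p) = 1 := by
          rw [← heq, hPp, pVal_self]
        rw [h4]
        have h5 := Nat.le_ceil b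
        push_cast
        linarith
      · have h4 : (0 : ℚ) ≤ (⌈b⌉₊ : ℚ) * P.1 (aeval t p) := by positivity
        linarith
    · refine ⟨f, hf, fun P hP => ?_⟩
      rw [Finsupp.add_apply, Finsupp.single_apply, if_neg (by
        rintro rfl
        exact hex hP), zero_add]
      exact h P hP

/-- Removing the prime polynomials from a divisor. -/
lemma exists_noPoly (A : 𝒱.X.Div) : ∃ (A' : 𝒱.X.Div) (f : L), f ≠ 0 ∧ 𝒱.NoPoly A' ∧
    ∀ P : 𝒱.X.primeDivisors, A P ≤ A' P + P.1 f := by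
  classical
  obtain ⟨f, hf, h⟩ := exists_fun A
  let F : 𝒱.X.primeDivisors → Prop := fun P =>
    ¬ ∃ (p : K[X]) (hp : Prime p), P.1 = pVal k 𝒱.h p hp
  refine ⟨(A - 𝒱.X.prin f).filter F, f, hf, ?_, ?_⟩
  · intro P hP
    rw [Finsupp.filter_apply_neg]
    exact not_not.2 hP
  · intro P
    by_cases hP : F P
    · rw [Finsupp.filter_apply_pos _ _ hP, Finsupp.sub_apply, ProjVar.prin_apply]
      linarith
    · rw [Finsupp.filter_apply_neg _ _ hP, zero_add]
      exact h P (not_not.1 hP)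

variable (𝒱) in
/-- The pull back of a divisor on the base. -/
noncomputable def pullFun (A : 𝒱.QQ → ℚ) (P : 𝒱.X.primeDivisors) : ℚ :=
  open Classical in
  if h : ∃ a : K, P.1 (algebraMap K L a) ≠ 0 then
    mult (⟨P.1, P.2, h⟩ : 𝒱.JJ) * A (base (⟨P.1, P.2, h⟩ : 𝒱.JJ)) else 0

lemma pullFun_vert (A : 𝒱.QQ → ℚ) (j : 𝒱.JJ) :
    𝒱.pullFun A ⟨j.1, j.2.1⟩ = mult j * A (base j) := by
  unfold pullFun
  rw [dif_pos j.2.2]

lemma pullFun_of_trivial (A : 𝒱.QQ → ℚ) {P : 𝒱.X.primeDivisors}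
    (h : ∀ a : K, P.1 (algebraMap K L a) = 0) : 𝒱.pullFun A P = 0 := by
  unfold pullFun
  rw [dif_neg]
  push Not
  exact h

lemma pullFun_finite {A : 𝒱.QQ → ℚ} (hA : {q | A q ≠ 0}.Finite) :
    {P | 𝒱.pullFun A P ≠ 0}.Finite := by
  have h1 : (⋃ q ∈ {q | A q ≠ 0}, (fun j : 𝒱.JJ => (⟨j.1, j.2.1⟩ : 𝒱.X.primeDivisors)) ''
      {j : 𝒱.JJ | base j = q}).Finite := hA.biUnion fun q _ => (𝒱.fib q).image _
  apply h1.subset
  intro P hP
  by_cases h : ∃ a : K, P.1 (algebraMap K L a) ≠ 0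
  · rw [Set.mem_iUnion₂]
    refine ⟨base ⟨P.1, P.2, h⟩, ?_, ⟨P.1, P.2, h⟩, rfl, rfl⟩
    intro h0
    apply hP
    have := pullFun_vert A (⟨P.1, P.2, h⟩ : 𝒱.JJ)
    rw [h0, mul_zero] at this
    exact this
  · push Not at h
    exact absurd (pullFun_of_trivial A h) hP

/-- The pull back as a divisor. -/
noncomputable def pullDiv (A : 𝒱.Z.Div) : 𝒱.X.Div :=
  Finsupp.onFinset (pullFun_finite (𝒱 := 𝒱) (A := A) A.hasFiniteSupport).toFinset
    (𝒱.pullFun A) (by
      intro P hP
      rw [Set.Finite.mem_toFinset]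
      exact hP)

lemma pullDiv_apply (A : 𝒱.Z.Div) (P : 𝒱.X.primeDivisors) : pullDiv A P = 𝒱.pullFun A P := rfl

lemma pullDiv_zero : pullDiv (𝒱 := 𝒱) 0 = 0 := by
  ext P
  rw [pullDiv_apply]
  unfold pullFun
  split_ifs <;> simp

lemma pullDiv_int {A : 𝒱.Z.Div} (hA : 𝒱.Z.IsInt A) : 𝒱.X.IsInt (pullDiv A) := by
  intro P
  rw [pullDiv_apply]
  by_cases h : ∃ a : K, P.1 (algebraMap K L a) ≠ 0
  · obtain ⟨z, hz⟩ := hA (base ⟨P.1, P.2, h⟩)
    refine ⟨mult (⟨P.1, P.2, h⟩ : 𝒱.JJ) * z, ?_⟩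
    have := pullFun_vert A (⟨P.1, P.2, h⟩ : 𝒱.JJ)
    rw [hz] at this
    rw [this]
    push_cast
    rfl
  · push Not at h
    exact ⟨0, by rw [pullFun_of_trivial A h]; simp⟩

lemma pullDiv_noPoly (A : 𝒱.Z.Div) : 𝒱.NoPoly (pullDiv A) := by
  rintro P ⟨p, hp, hPp⟩
  rw [pullDiv_apply]
  apply pullFun_of_trivial
  intro a
  rw [hPp, pVal_algebraMap]

lemma pullDiv_inf (A : 𝒱.Z.Div) (hi : infVal k 𝒱.h ∈ 𝒱.X.primeDivisors) :
    pullDiv A ⟨_, hi⟩ = 0 := by
  rw [pullDiv_apply]
  apply pullFun_of_trivial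
  intro a
  exact infVal_algebraMap 𝒱.h a

end GV

end Pool.Agent.Helper92.Ga
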