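import Pool.Agent.Helper92.Ga.Line

set_option autoImplicit false
set_option linter.unusedSectionVars false

/-! Translations of `L = K(t)` and their action on valuations. -/

namespace Pool.Agent.Helper92.Ga

open Pool.Agent.Helper92.Weak Polynomial

section vander

variable {k V : Type*} [Field k] [AddCommGroup V] [Module k V]

/-- The coefficients of a polynomial with values in a subspace lie in the subspace. -/
lemma coeff_mem_of_forall [Infinite k] (W : Submodule k V) {n : ℕ} (b : Fin n → V)
    (h : ∀ c : k, ∑ i : Fin n, c ^ (i : ℕ) • b i ∈ W) (i : Fin n) : b i ∈ W := by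
  classical
  obtain ⟨f, hf⟩ : ∃ f : Fin n → k, Function.Injective f :=
    ⟨fun i => Infinite.natEmbedding k i, fun i j hij => Fin.val_injective
      ((Infinite.natEmbedding k).injective hij)⟩
  set M := Matrix.vandermonde f with hM
  have hdet : M.det ≠ 0 := Matrix.det_vandermonde_ne_zero_iff.2 hf
  have hinv : M⁻¹ * M = 1 := Matrix.nonsing_inv_mul M (isUnit_iff_ne_zero.2 hdet)
  have h1 : b i = ∑ j, M⁻¹ i j • ∑ l : Fin n, f j ^ (l : ℕ) • b l := by
    have h2 : ∀ j, M⁻¹ i j • ∑ l : Fin n, f j ^ (l : ℕ) • b l =
        ∑ l : Fin n, (M⁻¹ i j * M j l) • b l := by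
      intro j
      rw [Finset.smul_sum]
      refine Finset.sum_congr rfl fun l _ => ?_
      rw [smul_smul]
      rfl
    simp only [h2]
    rw [Finset.sum_comm]
    have h3 : ∀ l, ∑ j, (M⁻¹ i j * M j l) • b l = (1 : Matrix (Fin n) (Fin n) k) i l • b l := by
      intro l
      rw [← Finset.sum_smul, ← hinv, Matrix.mul_apply]
    simp only [h3, Matrix.one_apply]
    simp
  rw [h1]
  exact W.sum_mem fun j _ => W.smul_mem _ (h (f j))

end vander

section shift

variable {K L : Type*} [Field K] [Field L] [Algebra K L] {t : L}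

lemma algHom_ext_line (h : IsLine K t) {φ ψ : L →ₐ[K] L} (ht : φ t = ψ t) : φ = ψ := by
  apply AlgHom.ext
  intro z
  obtain ⟨a, b, -, rfl⟩ := h.exists_div z
  have key : ∀ a : K[X], φ (aeval t a) = ψ (aeval t a) := by
    intro a
    rw [← aeval_algHom_apply, ← aeval_algHom_apply, ht]
  rw [map_div₀, map_div₀, key, key]

lemma exists_shiftHom (h : IsLine K t) (c : K) : ∃ σ : L →ₐ[K] L, σ t = t + algebraMap K L c := by
  let _ := lineAlg K t
  have := h.isFractionRing
  have : IsScalarTower K K[X] L := by
    apply IsScalarTower.of_algebraMap_eq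
    intro x
    change _ = aeval t (algebraMap K K[X] x)
    simp
  have hinj : Function.Injective ((aeval t : K[X] →ₐ[K] L).comp
      (aeval (X + C c) : K[X] →ₐ[K] K[X])) := by
    have h2 : ∀ p : K[X], aeval (X - C c : K[X]) (aeval (X + C c : K[X]) p) = p := by
      intro p
      rw [← aeval_algHom_apply, map_add, aeval_X, ← Polynomial.algebraMap_eq, AlgHom.commutes]
      simp
    intro p q hpq
    have h3 : aeval (X + C c : K[X]) p = aeval (X + C c : K[X]) q := h.inj hpq
    rw [← h2 p, h3, h2]
  refine ⟨IsFractionRing.liftAlgHom hinj, ?_⟩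
  have h1 : algebraMap K[X] L X = t := by
    change aeval t X = _
    simp
  have h2 : IsFractionRing.liftAlgHom hinj (algebraMap K[X] L X) =
      ((aeval t : K[X] →ₐ[K] L).comp (aeval (X + C c) : K[X] →ₐ[K] K[X])) X := by
    rw [IsFractionRing.liftAlgHom_apply, IsFractionRing.lift_algebraMap]
    rfl
  rw [h1] at h2
  rw [h2]
  simp

lemma exists_shiftEquiv (h : IsLine K t) (c : K) :
    ∃ σ : L ≃ₐ[K] L, σ t = t + algebraMap K L c := by
  obtain ⟨σ, hσ⟩ := exists_shiftHom h c
  obtain ⟨τ, hτ⟩ := exists_shiftHom h (-c)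
  refine ⟨AlgEquiv.ofAlgHom σ τ ?_ ?_, hσ⟩
  · apply algHom_ext_line h
    rw [AlgHom.comp_apply, hτ, map_add, hσ, AlgHom.commutes, AlgHom.id_apply, map_neg]
    ring
  · apply algHom_ext_line h
    rw [AlgHom.comp_apply, hσ, map_add, hτ, AlgHom.commutes, AlgHom.id_apply, map_neg]
    ring

/-- The automorphism `t ↦ t + c`. -/
noncomputable def shiftEquiv (h : IsLine K t) (c : K) : L ≃ₐ[K] L :=
  (exists_shiftEquiv h c).choose

lemma shiftEquiv_t (h : IsLine K t) (c : K) : shiftEquiv h c t = t + algebraMap K L c :=
  (exists_shiftEquiv h c).choose_spec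

lemma algEquiv_ext_line (h : IsLine K t) {φ ψ : L ≃ₐ[K] L} (ht : φ t = ψ t) : φ = ψ := by
  have h1 : (φ : L →ₐ[K] L) = (ψ : L →ₐ[K] L) := algHom_ext_line h ht
  ext z
  exact DFunLike.congr_fun h1 z

end shift

section action

variable {k K L : Type*} [Field k] [Field K] [Field L] [Algebra k K] [Algebra k L] [Algebra K L]
  [IsScalarTower k K L] {t : L}

/-- The automorphism `t ↦ t + c` over `k`. -/
noncomputable def shift (h : IsLine K t) (c : k) : L ≃ₐ[k] L :=
  (shiftEquiv h (algebraMap k K c)).restrictScalars k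

lemma shift_apply (h : IsLine K t) (c : k) (z : L) :
    shift h c z = shiftEquiv h (algebraMap k K c) z := rfl

lemma shift_t (h : IsLine K t) (c : k) : shift h c t = t + algebraMap k L c := by
  rw [shift_apply, shiftEquiv_t, ← IsScalarTower.algebraMap_apply]

lemma shift_algebraMap (h : IsLine K t) (c : k) (a : K) :
    shift h c (algebraMap K L a) = algebraMap K L a := by
  rw [shift_apply, AlgEquiv.commutes]

lemma shift_add (h : IsLine K t) (c c' : k) (z : L) :
    shift h (c + c') z = shift h c (shift h c' z) := by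
  have : shiftEquiv h (algebraMap k K (c + c')) =
      (shiftEquiv h (algebraMap k K c')).trans (shiftEquiv h (algebraMap k K c)) := by
    apply algEquiv_ext_line h
    rw [shiftEquiv_t, AlgEquiv.trans_apply, shiftEquiv_t, map_add (shiftEquiv h _), shiftEquiv_t,
      AlgEquiv.commutes, map_add, map_add]
    ring
  rw [shift_apply, this]
  rfl

lemma shift_zero (h : IsLine K t) (z : L) : shift h (0 : k) z = z := by
  have : shiftEquiv h (algebraMap k K 0) = AlgEquiv.refl := by
    apply algEquiv_ext_line h
    rw [shiftEquiv_t]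
    simp
  rw [shift_apply, this]
  rfl

/-- Taylor expansion. -/
lemma shift_aeval (h : IsLine K t) (c : k) (p : K[X]) {n : ℕ} (hn : p.natDegree < n) :
    shift h c (aeval t p) = ∑ i : Fin n, c ^ (i : ℕ) • aeval t (hasseDeriv (i : ℕ) p) := by
  have h1 : shift h c (aeval t p) = aeval (t + algebraMap k L c) p := by
    rw [shift_apply, ← AlgEquiv.coe_toAlgHom, ← aeval_algHom_apply, AlgEquiv.coe_toAlgHom,
      shiftEquiv_t, ← IsScalarTower.algebraMap_apply]
  have h2 : aeval (t + algebraMap k L c) p =
      (taylor t (p.map (algebraMap K L))).eval (algebraMap k L c) := by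
    rw [taylor_eval, eval_map_algebraMap, add_comm]
  have h3 : (taylor t (p.map (algebraMap K L))).natDegree < n := by
    rw [natDegree_taylor]
    exact lt_of_le_of_lt (natDegree_map_le) hn
  rw [h1, h2, eval_eq_sum_range' h3, Finset.sum_range]
  refine Finset.sum_congr rfl fun i _ => ?_
  rw [taylor_coeff, Algebra.smul_def, map_pow, mul_comm]
  congr 1
  rw [← eval_map_algebraMap]
  congr 1
  ext j
  rw [hasseDeriv_coeff, coeff_map, coeff_map, hasseDeriv_coeff, map_mul, map_natCast]

/-- The action of the additive group on valuations. -/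
@[reducible] noncomputable def shiftAction (h : IsLine K t) :
    MulAction (Multiplicative k) (DVal k L) where
  smul c P := P.comap (shift h c.toAdd)
  one_smul P := by
    apply DVal.ext
    intro a
    change P (shift h (0 : k) a) = P a
    rw [shift_zero]
  mul_smul c c' P := by
    apply DVal.ext
    intro a
    change P (shift h (c.toAdd + c'.toAdd) a) = P (shift h c'.toAdd (shift h c.toAdd a))
    rw [add_comm c.toAdd, shift_add]

/-- The valuation is invariant under translations. -/
def IsInvS (k : Type*) [Field k] [Algebra k K] [Algebra k L] [IsScalarTower k K L]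
    (h : IsLine K t) (P : DVal k L) : Prop := ∀ c : k, P.comap (shift h c) = P

lemma IsInvS.apply {h : IsLine K t} {P : DVal k L} (hP : IsInvS k h P) (c : k) (z : L) :
    P (shift h c z) = P z := by
  conv_rhs => rw [← hP c]
  rfl

/-- A valuation with finite orbit is invariant. -/
lemma isInvS_of_finite [CharZero k] (h : IsLine K t) (P : DVal k L)
    (hfin : (Set.range fun c : k => P.comap (shift h c)).Finite) : IsInvS k h P := by
  let _ := shiftAction (k := k) h
  have horb : (MulAction.orbit (Multiplicative k) P).Finite := by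
    apply hfin.subset
    rintro _ ⟨c, rfl⟩
    exact ⟨c.toAdd, rfl⟩
  have hidx := MulAction.index_stabilizer (Multiplicative k) P
  have hne : (MulAction.stabilizer (Multiplicative k) P).index ≠ 0 := by
    rw [hidx]
    exact ((Set.ncard_pos horb).2 (MulAction.nonempty_orbit P)).ne'
  intro c
  set n := (MulAction.stabilizer (Multiplicative k) P).index with hn
  have hn0 : (n : k) ≠ 0 := by exact_mod_cast hne
  have hroot : (Multiplicative.ofAdd (c / n)) ^ n = Multiplicative.ofAdd c := by
    rw [← ofAdd_nsmul, nsmul_eq_mul, mul_div_cancel₀ _ hn0]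
  have h1 := Subgroup.pow_index_mem (MulAction.stabilizer (Multiplicative k) P)
    (Multiplicative.ofAdd (c / n))
  rw [← hn, hroot] at h1
  exact h1

lemma natDegree_hasseDeriv_top (p : K[X]) :
    hasseDeriv p.natDegree p = C p.leadingCoeff := by
  ext i
  rw [hasseDeriv_coeff, coeff_C]
  split_ifs with hi
  · subst hi
    rw [zero_add, Nat.choose_self, Nat.cast_one, one_mul]
    rfl
  · rw [coeff_eq_zero_of_natDegree_lt (by omega), mul_zero]

/-- Taylor coefficients of functions in a translation invariant subspace. -/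
lemma hasseDeriv_mem [CharZero k] (h : IsLine K t) (W : Submodule k L)
    (hW : ∀ (c : k) (z : L), z ∈ W → shift h c z ∈ W) {p : K[X]} (hp : aeval t p ∈ W) (i : ℕ) :
    aeval t (hasseDeriv i p) ∈ W := by
  by_cases hi : i < p.natDegree + 1
  · have := coeff_mem_of_forall W (n := p.natDegree + 1)
      (fun i => aeval t (hasseDeriv (i : ℕ) p)) (fun c => by
        rw [← shift_aeval h c p (Nat.lt_succ_self _)]
        exact hW c _ hp) ⟨i, hi⟩
    exact this
  · have h0 : hasseDeriv i p = 0 := by
      ext j
      rw [hasseDeriv_coeff, coeff_eq_zero_of_natDegree_lt (by omega), mul_zero, coeff_zero]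
    rw [h0, map_zero]
    exact W.zero_mem

/-- Invariant valuations and Taylor coefficients. -/
lemma IsInvS.ge_hasseDeriv [CharZero k] {h : IsLine K t} {P : DVal k L} (hP : IsInvS k h P)
    {p : K[X]} {m : ℚ} (hp : P.Ge m (aeval t p)) (i : ℕ) :
    P.Ge m (aeval t (hasseDeriv i p)) := by
  apply hasseDeriv_mem h (P.filt m) _ hp i
  intro c z hz
  rcases hz with hz | hz
  · left; rw [hz, map_zero]
  · right; rwa [hP.apply]

lemma IsInvS.le_leadingCoeff [CharZero k] {h : IsLine K t} {P : DVal k L} (hP : IsInvS k h P)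
    {p : K[X]} (hp : p ≠ 0) : P (aeval t p) ≤ P (algebraMap K L p.leadingCoeff) := by
  have h1 := hP.ge_hasseDeriv (p := p) (DVal.ge_self _) p.natDegree
  rw [natDegree_hasseDeriv_top, aeval_C, DVal.ge_iff (by simpa using hp)] at h1
  exact_mod_cast h1

end action

end Pool.Agent.Helper92.Ga
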