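import Pool.Agent.Helper92.Ga.Shift
import Pool.Agent.Helper92.Ga.Gauss
import Pool.Agent.Helper92.Ga.Implied

set_option autoImplicit false
set_option linter.unusedSectionVars false

/-! Varieties with an action of the additive group. -/

namespace Pool.Agent.Helper92.Ga

open Pool.Agent.Helper92.Weak Polynomial

/-- A variety `X` with function field `K(t)`, stable under translations, and a model `Z` of `K`
such that every prime divisor of `X` is horizontal or lies over a prime divisor of `Z`. -/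
structure GV (k K : Type*) {L : Type*} [Field k] [Field K] [Field L] [Algebra k K] [Algebra k L]
    [Algebra K L] [IsScalarTower k K L] (t : L) where
  h : IsLine K t
  Z : ProjVar k K
  X : ProjVar k L
  stable : ∀ (c : k), ∀ P ∈ X.primeDivisors, P.comap (shift h c) ∈ X.primeDivisors
  equi : ∀ P ∈ X.primeDivisors, (∃ a : K, P (algebraMap K L a) ≠ 0) →
    ∃ Q ∈ Z.primeDivisors, ∃ e : ℕ, ∀ a : K, P (algebraMap K L a) = e * Q a

namespace GV

variable {k K L : Type*} [Field k] [Field K] [Field L] [Algebra k K] [Algebra k L] [Algebra K L]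
  [IsScalarTower k K L] {t : L} (𝒱 : GV k K t)

include 𝒱 in
lemma fgK : (⊤ : IntermediateField k K).FG := by
  classical
  refine ⟨Finset.univ.image (fun j => 𝒱.Z.x j / 𝒱.Z.x 0), ?_⟩
  rw [← 𝒱.Z.gen 0]
  congr 1
  simp

/-- The prime divisors of the base. -/
abbrev QQ : Type _ := {Q : DVal k K // Q ∈ 𝒱.Z.primeDivisors}

/-- The vertical prime divisors. -/
abbrev JJ : Type _ := {P : DVal k L // P ∈ 𝒱.X.primeDivisors ∧
  ∃ a : K, P (algebraMap K L a) ≠ 0}

section

variable {𝒱} (j : 𝒱.JJ)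

/-- The underlying prime divisor of the base. -/
noncomputable def base (j : 𝒱.JJ) : 𝒱.QQ :=
  ⟨(𝒱.equi j.1 j.2.1 j.2.2).choose, (𝒱.equi j.1 j.2.1 j.2.2).choose_spec.1⟩

/-- The multiplicity. -/
noncomputable def mult (j : 𝒱.JJ) : ℕ := (𝒱.equi j.1 j.2.1 j.2.2).choose_spec.2.choose

lemma mult_spec (a : K) : j.1 (algebraMap K L a) = mult j * (base j).1 a :=
  (𝒱.equi j.1 j.2.1 j.2.2).choose_spec.2.choose_spec a

lemma mult_pos : 0 < mult j := by
  obtain ⟨a, ha⟩ := j.2.2
  rw [mult_spec] at ha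
  have := left_ne_zero_of_mul ha
  omega

lemma base_eq {Q : DVal k K} (hQ : Q ∈ 𝒱.Z.primeDivisors) {e : ℕ} (he : 0 < e)
    (h : ∀ a : K, j.1 (algebraMap K L a) = e * Q a) : base j = ⟨Q, hQ⟩ := by
  apply Subtype.ext
  apply DVal.eq_of_ring_le
  intro a ha
  rw [DVal.mem_ring] at ha ⊢
  have h1 := mult_spec j a
  rw [h] at h1
  have h2 : (0 : ℤ) ≤ mult j * (base j).1 a := mul_nonneg (by positivity) ha
  rw [← h1] at h2
  change 0 ≤ Q a
  have he' : (0 : ℤ) < e := by exact_mod_cast he
  by_contra hneg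
  push Not at hneg
  have := mul_neg_of_pos_of_neg he' hneg
  omega

end

lemma fib (Q : 𝒱.QQ) : {j : 𝒱.JJ | base j = Q}.Finite := by
  obtain ⟨p, hp0, hp⟩ := Q.1.exists_uniformizer
  have hp0' : algebraMap K L p ≠ 0 := by simpa using hp0
  apply Set.Finite.of_finite_image (f := fun j : 𝒱.JJ => j.1) _ (Subtype.val_injective.injOn)
  apply (𝒱.X.finite_support hp0').subset
  rintro _ ⟨j, hj, rfl⟩
  refine ⟨j.2.1, ?_⟩
  rw [Set.mem_ofPred_eq] at hj
  change j.1 _ ≠ 0
  rw [mult_spec, hj, hp]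
  have := mult_pos j
  simp
  omega

/-- Finitely many prime divisors of the base have no prime divisor of `X` above them. -/
lemma finite_not_base : {Q : 𝒱.QQ | ∀ j, base j ≠ Q}.Finite := by
  apply Set.Finite.of_finite_image (f := fun Q : 𝒱.QQ => Q.1) _ (Subtype.val_injective.injOn)
  apply (finite_gauss_notMem 𝒱.h.isTorus 𝒱.X 𝒱.Z).subset
  rintro _ ⟨Q, hQ, rfl⟩
  refine ⟨Q.2, fun hcon => ?_⟩
  obtain ⟨p, hp0, hp⟩ := Q.1.exists_uniformizer
  let j : 𝒱.JJ := ⟨gaussVal 𝒱.h.isTorus Q.1, hcon, p, by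
    rw [gaussVal_algebraMap, hp]
    exact one_ne_zero⟩
  refine hQ j (base_eq j Q.2 one_pos fun a => ?_)
  change gaussVal 𝒱.h.isTorus Q.1 _ = _
  rw [gaussVal_algebraMap]
  simp

variable [CharZero k]

/-- The prime divisors at which some function from `K` has a zero or a pole are invariant. -/
lemma inv_of_ne {P : DVal k L} (hP : P ∈ 𝒱.X.primeDivisors) {f : L}
    (hf : ∀ c : k, P (shift 𝒱.h c f) = P f) (hPf : P f ≠ 0) : IsInvS k 𝒱.h P := by
  apply isInvS_of_finite
  apply (𝒱.X.finite_support (P.ne_zero_of_pos hPf)).subset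
  rintro _ ⟨c, rfl⟩
  refine ⟨𝒱.stable c P hP, ?_⟩
  rw [DVal.comap_apply, hf]
  exact hPf

lemma vert_inv (j : 𝒱.JJ) : IsInvS k 𝒱.h j.1 := by
  obtain ⟨a, ha⟩ := j.2.2
  exact 𝒱.inv_of_ne j.2.1 (f := algebraMap K L a) (fun c => by rw [shift_algebraMap 𝒱.h c a]) ha

lemma dvd_of_t_eq_zero {P : DVal k L} (hP : IsInvS k 𝒱.h P) (ht : P t = 0) {e : ℤ}
    (he : ∀ a : K, e ∣ P (algebraMap K L a)) {p : K[X]} (hp : p ≠ 0) : e ∣ P (aeval t p) := by
  induction hn : p.natDegree using Nat.strong_induction_on generalizing p with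
  | _ n ih =>
    have hlc : p.leadingCoeff ≠ 0 := leadingCoeff_ne_zero.2 hp
    have hlc' : algebraMap K L p.leadingCoeff ≠ 0 := by simpa using hlc
    have hlead : P (aeval t (C p.leadingCoeff * Polynomial.X ^ p.natDegree)) =
        P (algebraMap K L p.leadingCoeff) := by
      rw [map_mul, map_pow, aeval_X, aeval_C, P.map_mul hlc' (pow_ne_zero _ 𝒱.h.ne_zero),
        P.map_pow, ht, mul_zero, add_zero]
    have hlead0 : aeval t (C p.leadingCoeff * Polynomial.X ^ p.natDegree) ≠ 0 := by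
      apply 𝒱.h.aeval_ne
      exact mul_ne_zero (by simpa using hlc) (pow_ne_zero _ X_ne_zero)
    have hle := hP.le_leadingCoeff hp
    rcases hle.eq_or_lt with heq | hlt
    · rw [heq]; exact he _
    · have hdecomp : aeval t p.eraseLead =
          aeval t p + -aeval t (C p.leadingCoeff * Polynomial.X ^ p.natDegree) := by
        rw [← sub_eq_add_neg, ← map_sub]
        congr 1
        conv_rhs => rw [← Polynomial.eraseLead_add_C_mul_X_pow p]
        simp
      have h1 : P (aeval t p.eraseLead) = P (aeval t p) := by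
        rw [hdecomp]
        apply P.map_add_eq_of_lt (𝒱.h.aeval_ne hp)
        right
        rw [P.map_neg, hlead]
        exact hlt
      have he0 : p.eraseLead ≠ 0 := by
        intro h0
        have h2 : aeval t p = aeval t (C p.leadingCoeff * Polynomial.X ^ p.natDegree) := by
          have h3 := hdecomp
          rw [h0, map_zero] at h3
          linear_combination -h3
        rw [h2, hlead] at hlt
        exact lt_irrefl _ hlt
      have hpos : 0 < p.natDegree := by
        by_contra h0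
        have h2 : p.natDegree = 0 := by omega
        apply he0
        rw [Polynomial.eq_C_of_natDegree_eq_zero h2]
        simp
      have hlt' : p.eraseLead.natDegree < p.natDegree := by
        have h2 := Polynomial.eraseLead_natDegree_le p
        omega
      rw [← h1]
      exact ih _ (by omega) he0 rfl

lemma finite_mult : {j : 𝒱.JJ | mult j ≠ 1}.Finite := by
  apply Set.Finite.of_finite_image (f := fun j : 𝒱.JJ => j.1) _ (Subtype.val_injective.injOn)
  apply (𝒱.X.finite_support 𝒱.h.ne_zero).subset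
  rintro _ ⟨j, hj, rfl⟩
  refine ⟨j.2.1, fun ht => hj ?_⟩
  have key : ∀ p : K[X], p ≠ 0 → ((mult j : ℕ) : ℤ) ∣ j.1 (aeval t p) := fun p hp =>
    𝒱.dvd_of_t_eq_zero (𝒱.vert_inv j) ht (fun a => ⟨_, mult_spec j a⟩) hp
  obtain ⟨z, hz⟩ := j.1.surj'
  change j.1 z = 1 at hz
  obtain ⟨a, b, hb, rfl⟩ := 𝒱.h.exists_div z
  have ha : a ≠ 0 := by
    rintro rfl
    rw [map_zero, zero_div] at hz
    simp at hz
  rw [DVal.map_div _ (𝒱.h.aeval_ne ha) (𝒱.h.aeval_ne hb)] at hz
  have h1 := dvd_sub (key a ha) (key b hb)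
  rw [hz] at h1
  have h2 := Int.eq_one_of_dvd_one (by positivity) h1
  exact_mod_cast h2

/-- All prime polynomials give prime divisors of `X`. -/
theorem pVal_mem (p : K[X]) (hp : Prime p) : pVal k 𝒱.h p hp ∈ 𝒱.X.primeDivisors := by
  classical
  set h := 𝒱.h
  set Y := 𝒱.X
  set P := pVal k h p hp with hP
  have : CharZero K := charZero_of_injective_algebraMap (algebraMap k K).injective
  have hinf : ¬ (Set.range fun c : k => P.comap (shift h c)).Finite := by
    intro hfin
    have hinv := isInvS_of_finite h P hfin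
    have h1 : P.Ge 1 (aeval t p) := by
      right
      rw [hP, pVal_self]
      norm_num
    have h2 := hinv.ge_hasseDeriv h1 1
    rw [hasseDeriv_one] at h2
    have hdeg : p.natDegree ≠ 0 := by
      intro h0
      apply hp.not_isUnit
      rw [Polynomial.eq_C_of_natDegree_eq_zero h0]
      have h3 : p.coeff 0 ≠ 0 := by
        intro h4
        apply hp.ne_zero
        rw [Polynomial.eq_C_of_natDegree_eq_zero h0, h4, C_0]
      exact (IsUnit.mk0 _ h3).map C
    have hd0 : derivative p ≠ 0 := fun h0 => hdeg (derivative_eq_zero.1 h0)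
    rw [DVal.ge_iff (h.aeval_ne hd0)] at h2
    have h3 : 0 < P (aeval t (derivative p)) := by
      have : (1 : ℤ) ≤ P (aeval t (derivative p)) := by exact_mod_cast h2
      omega
    rw [hP, pVal_pos_iff k h hp hd0] at h3
    have h4 := natDegree_le_of_dvd h3 hd0
    have h5 := natDegree_derivative_lt hdeg
    omega
  obtain ⟨s, hs⟩ := 𝒱.fgK
  -- denominators
  have hden : ∀ z : L, ∃ b : L, b ≠ 0 ∧ b ∈ chart k Y.x 0 ∧ z * b ∈ chart k Y.x 0 := by
    intro z
    obtain ⟨a, ha, b, hb, hb0, rfl⟩ := Y.chart_isFrac 0 z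
    refine ⟨b, hb0, hb, ?_⟩
    rw [div_mul_cancel₀ _ hb0]
    exact ha
  choose d hd0 hd hzd using hden
  have hy : ∀ j, Y.x j / Y.x 0 ≠ 0 := fun j => div_ne_zero (Y.x_ne j) (Y.x_ne 0)
  have hE : ((⋃ y ∈ (s : Set K), {v : DVal k L |
        (∃ (p : K[X]) (hp : Prime p), v = pVal k h p hp) ∧
          v (d (algebraMap K L y)) ≠ 0}) ∪
      ({v : DVal k L | (∃ (p : K[X]) (hp : Prime p), v = pVal k h p hp) ∧
          v (d t) ≠ 0} ∪
      ⋃ j, {v : DVal k L | (∃ (p : K[X]) (hp : Prime p), v = pVal k h p hp) ∧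
          v (Y.x j / Y.x 0) ≠ 0})).Finite :=
    (Set.Finite.biUnion s.finite_toSet fun y _ => finite_pVal k h (hd0 _)).union
      ((finite_pVal k h (hd0 _)).union
      (Set.finite_iUnion fun j => finite_pVal k h (hy j)))
  obtain ⟨c, hc⟩ : ∃ c : k, P.comap (shift h c) ∉ ((⋃ y ∈ (s : Set K), {v : DVal k L |
        (∃ (p : K[X]) (hp : Prime p), v = pVal k h p hp) ∧
          v (d (algebraMap K L y)) ≠ 0}) ∪
      ({v : DVal k L | (∃ (p : K[X]) (hp : Prime p), v = pVal k h p hp) ∧
          v (d t) ≠ 0} ∪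
      ⋃ j, {v : DVal k L | (∃ (p : K[X]) (hp : Prime p), v = pVal k h p hp) ∧
          v (Y.x j / Y.x 0) ≠ 0})) := by
    by_contra hcon
    push Not at hcon
    apply hinf
    apply hE.subset
    rintro _ ⟨c, rfl⟩
    exact hcon c
  obtain ⟨p', hp', hPp'⟩ : ∃ (p' : K[X]) (hp' : Prime p'),
      P.comap (shift h c) = pVal k h p' hp' := by
    apply exists_pVal h
    · intro a
      rw [DVal.comap_apply, shift_algebraMap, hP, pVal_algebraMap]
    · rw [DVal.comap_apply, shift_t]
      have h1 : t + algebraMap k L c = aeval t (Polynomial.X + C (algebraMap k K c) : K[X]) := by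
        rw [map_add, aeval_X, aeval_C, ← IsScalarTower.algebraMap_apply]
      rw [h1]
      exact pVal_nonneg k h hp _
  rw [hPp'] at hc
  set P' := pVal k h p' hp' with hP'
  simp only [Set.mem_union, Set.mem_iUnion, Set.mem_ofPred_eq, not_or, not_exists, not_and,
    not_not] at hc
  obtain ⟨hc1, hc2, hc3⟩ := hc
  have hex : ∃ (p : K[X]) (hp : Prime p), P' = pVal k h p hp := ⟨p', hp', rfl⟩
  have hP'K : ∀ a : K, P' (algebraMap K L a) = 0 := pVal_algebraMap k h hp'
  have hchart : chart k Y.x 0 ≤ P'.ring := by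
    rw [ProjVar.chart_le_iff]
    intro j
    rw [DVal.mem_ring, hc3 j hex]
  set R := locAt _ (posIdeal P' _ hchart) with hR
  have hdom : Dominates R P'.ring := dominates_posIdeal hchart
  have hmem : ∀ z : L, P' (d z) = 0 → z ∈ R := by
    intro z hz
    have h1 : z = (z * d z) * (d z)⁻¹ := by
      have := hd0 z
      field_simp
    rw [h1]
    exact R.mul_mem (le_locAt _ (hzd z)) (hdom.inv_mem (le_locAt _ (hd z)) hz)
  have hRt : t ∈ R := hmem _ (hc2 hex)
  have hRK : ∀ a : K, algebraMap K L a ∈ R := by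
    intro a
    have hadj : ∀ b ∈ Algebra.adjoin k (s : Set K), algebraMap K L b ∈ R := by
      have : Algebra.adjoin k (s : Set K) ≤ R.comap (IsScalarTower.toAlgHom k K L) := by
        rw [Algebra.adjoin_le_iff]
        intro y hy
        exact hmem _ (hc1 y hy hex)
      intro b hb
      exact this hb
    have ha : a ∈ IntermediateField.adjoin k (s : Set K) := by
      rw [hs]; trivial
    rw [IntermediateField.mem_adjoin_iff_div] at ha
    obtain ⟨u, hu, w, hw, rfl⟩ := ha
    rw [map_div₀, div_eq_mul_inv]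
    exact R.mul_mem (hadj u hu) (hdom.inv_mem (hadj w hw) (hP'K w))
  have hRp : P'.ring ≤ R := by
    intro z hz
    rw [mem_pVal_ring] at hz
    obtain ⟨a, b, hb, rfl⟩ := hz
    rw [div_eq_mul_inv]
    exact R.mul_mem (aeval_mem_of hRK hRt a)
      (hdom.inv_mem (aeval_mem_of hRK hRt b) (pVal_eq_zero k h hp' hb))
  have hP'X : P' ∈ Y.primeDivisors := by
    change P'.ring ∈ Y.localRings
    rw [le_antisymm hRp hdom.1]
    exact Y.locAt_mem 0 _
  have hPeq : P = P'.comap (shift h (-c)) := by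
    apply DVal.ext
    intro z
    rw [← hPp', DVal.comap_apply, DVal.comap_apply, ← shift_add, add_neg_cancel, shift_zero]
  rw [hPeq]
  exact 𝒱.stable _ _ hP'X

/-- The three kinds of prime divisors. -/
lemma trichotomy (P : DVal k L) :
    (∃ (p : K[X]) (hp : Prime p), P = pVal k 𝒱.h p hp) ∨ P = infVal k 𝒱.h ∨
      ∃ a : K, P (algebraMap K L a) ≠ 0 := by
  by_cases h0 : ∃ a : K, P (algebraMap K L a) ≠ 0
  · exact Or.inr (Or.inr h0)
  push Not at h0
  by_cases ht : 0 ≤ P t
  · exact Or.inl (exists_pVal 𝒱.h P h0 ht)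
  · exact Or.inr (Or.inl (eq_infVal 𝒱.h P h0 (by omega)))

end GV

end Pool.Agent.Helper92.Ga
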